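import Mathlib

set_option autoImplicit false

namespace Pool.Agent.Lib.MP_37b92f_co

open Finset

section Product

variable {ι X : Type*} [Fintype ι] [DecidableEq ι] [Fintype X]

/-- Product weight of a configuration. -/
def pw (m : ι → X → ℝ) (x : ι → X) : ℝ := ∏ i, m i (x i)

omit [DecidableEq ι] [Fintype X] in
theorem pw_nonneg {m : ι → X → ℝ} (hm : ∀ i a, 0 ≤ m i a) (x : ι → X) : 0 ≤ pw m x :=
  prod_nonneg fun i _ => hm i (x i)

theorem pw_prod (m φ : ι → X → ℝ) :
    ∑ x : ι → X, pw m x * ∏ i, φ i (x i) = ∏ i, ∑ a, m i a * φ i a := by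
  rw [Finset.prod_univ_sum, Fintype.piFinset_univ]
  refine sum_congr rfl fun x _ => ?_
  rw [pw, ← prod_mul_distrib]

theorem pw_sum {m : ι → X → ℝ} (hm : ∀ i, ∑ a, m i a = 1) : ∑ x : ι → X, pw m x = 1 := by
  have := pw_prod m (fun _ _ => 1)
  simpa [hm] using this

theorem pw_prod_on {m : ι → X → ℝ} (hm : ∀ i, ∑ a, m i a = 1) (S : Finset ι) (φ : ι → X → ℝ) :
    ∑ x : ι → X, pw m x * ∏ i ∈ S, φ i (x i) = ∏ i ∈ S, ∑ a, m i a * φ i a := by
  have h := pw_prod m (fun i a => if i ∈ S then φ i a else 1)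
  have h1 : ∀ x : ι → X, ∏ i, (if i ∈ S then φ i (x i) else 1) = ∏ i ∈ S, φ i (x i) := by
    intro x
    rw [← Finset.prod_filter]
    simp
  have h2 : ∏ i, ∑ a, m i a * (if i ∈ S then φ i a else 1) = ∏ i ∈ S, ∑ a, m i a * φ i a := by
    have : ∀ i, ∑ a, m i a * (if i ∈ S then φ i a else 1)
        = if i ∈ S then ∑ a, m i a * φ i a else 1 := by
      intro i
      by_cases hi : i ∈ S <;> simp [hi, hm]
    simp_rw [this]
    rw [← Finset.prod_filter]
    simp
  simp_rw [h1] at h
  rw [h, h2]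

theorem pw_one {m : ι → X → ℝ} (hm : ∀ i, ∑ a, m i a = 1) (i : ι) (g : X → ℝ) :
    ∑ x : ι → X, pw m x * g (x i) = ∑ a, m i a * g a := by
  simpa using pw_prod_on hm {i} (fun _ => g)

theorem pw_two_mul {m : ι → X → ℝ} (hm : ∀ i, ∑ a, m i a = 1) {i j : ι} (hij : i ≠ j)
    (g g' : X → ℝ) :
    ∑ x : ι → X, pw m x * (g (x i) * g' (x j)) = (∑ a, m i a * g a) * ∑ b, m j b * g' b := by
  have := pw_prod_on hm {i, j} (fun l => if l = i then g else g')
  simpa [prod_pair hij, hij.symm] using this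

theorem pw_two [DecidableEq X] {m : ι → X → ℝ} (hm : ∀ i, ∑ a, m i a = 1) {i j : ι} (hij : i ≠ j)
    (g : X → X → ℝ) :
    ∑ x : ι → X, pw m x * g (x i) (x j) = ∑ a, ∑ b, m i a * m j b * g a b := by
  have h1 : ∀ x : ι → X, g (x i) (x j)
      = ∑ a, ∑ b, g a b * ((if x i = a then 1 else 0) * (if x j = b then 1 else 0)) := by
    intro x
    simp
  have h2 : ∀ a b, ∑ x : ι → X, pw m x * ((if x i = a then 1 else 0) * (if x j = b then 1 else 0))
      = m i a * m j b := by
    intro a b
    rw [pw_two_mul hm hij (fun c => if c = a then 1 else 0) (fun c => if c = b then 1 else 0)]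
    simp
  calc ∑ x : ι → X, pw m x * g (x i) (x j)
      = ∑ x : ι → X, ∑ a, ∑ b,
          g a b * (pw m x * ((if x i = a then 1 else 0) * (if x j = b then 1 else 0))) := by
        refine sum_congr rfl fun x _ => ?_
        rw [h1 x, mul_sum]
        refine sum_congr rfl fun a _ => ?_
        rw [mul_sum]
        exact sum_congr rfl fun b _ => by ring
    _ = ∑ a, ∑ b, ∑ x : ι → X,
          g a b * (pw m x * ((if x i = a then 1 else 0) * (if x j = b then 1 else 0))) := by
        rw [sum_comm]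
        exact sum_congr rfl fun a _ => sum_comm
    _ = _ := by
        refine sum_congr rfl fun a _ => sum_congr rfl fun b _ => ?_
        rw [← mul_sum, h2]
        ring

end Product

/-- A weighted average is attained or exceeded at a point of nonzero weight. -/
theorem exists_ge_of_avg {Ω : Type*} [Fintype Ω] (μ g : Ω → ℝ) (hμ : ∀ x, 0 ≤ μ x)
    (h1 : ∑ x, μ x = 1) : ∃ x, μ x ≠ 0 ∧ ∑ y, μ y * g y ≤ g x := by
  by_contra h
  push Not at h
  have hne : ∃ x, μ x ≠ 0 := by
    by_contra h0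
    push Not at h0
    simp [h0] at h1
  obtain ⟨x0, hx0⟩ := hne
  have : ∑ y, μ y * g y < ∑ y, μ y * ∑ z, μ z * g z := by
    apply sum_lt_sum
    · intro y _
      by_cases hy : μ y = 0
      · simp [hy]
      · exact mul_le_mul_of_nonneg_left (h y hy).le (hμ y)
    · exact ⟨x0, mem_univ _, mul_lt_mul_of_pos_left (h x0 hx0) ((hμ x0).lt_of_ne' hx0)⟩
  rw [← sum_mul, h1, one_mul] at this
  exact lt_irrefl _ this

theorem exists_le_of_avg {Ω : Type*} [Fintype Ω] (μ g : Ω → ℝ) (hμ : ∀ x, 0 ≤ μ x)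
    (h1 : ∑ x, μ x = 1) : ∃ x, μ x ≠ 0 ∧ g x ≤ ∑ y, μ y * g y := by
  obtain ⟨x, hx, h⟩ := exists_ge_of_avg μ (fun y => - g y) hμ h1
  refine ⟨x, hx, ?_⟩
  simp only [mul_neg, sum_neg_distrib] at h
  linarith

/-- Sampler properties of a sparse symmetric kernel. -/
structure Samp {W : Type*} [Fintype W] (ψ : W → W → ℝ) (η : ℝ) : Prop where
  symm : ∀ y z, ψ y z = ψ z y
  nonneg : ∀ y z, 0 ≤ ψ y z
  one : ∀ u : W → ℝ, (∀ z, 0 ≤ u z ∧ u z ≤ 1) →
    ∑ y, |∑ z, ψ y z * u z - ∑ z, u z| ≤ η * (Fintype.card W : ℝ) ^ 2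
  two : ∀ S : W → W → ℝ, (∀ z z', 0 ≤ S z z' ∧ S z z' ≤ 1) →
    ∑ y, ∑ z, ψ y z * |∑ z', ψ y z' * S z z' - ∑ z', S z z'| ≤ η * (Fintype.card W : ℝ) ^ 3

/-- Structures on `K` positions times a point set `W`. -/
abbrev Str (W : Type) (K : ℕ) : Type := Fin K → W → Fin K → W → Bool

/-- Restriction of a structure along a map of positions. -/
def res {W ι κ : Type} (v : ι → κ) (E : κ → W → κ → W → Bool) : ι → W → ι → W → Bool :=
  fun i p j q => E (v i) p (v j) q

/-- A consistent family of laws that is invariant under order preserving selections. -/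
structure Law (W : Type) [Fintype W] [DecidableEq W] where
  μ : ∀ K : ℕ, Str W K → ℝ
  nonneg : ∀ K E, 0 ≤ μ K E
  total : ∀ K, ∑ E, μ K E = 1
  spread : ∀ (k K : ℕ) (v : Fin k → Fin K), StrictMono v → ∀ g : Str W k → ℝ,
    ∑ E, μ K E * g (res v E) = ∑ E, μ k E * g E

/-- No order preserving copy of the pattern `A` in the structure `E`. -/
def Avoid {W : Type} {f K : ℕ} (A : Fin f → Fin f → Prop) (E : Str W K) : Prop :=
  ¬ ∃ (pos : Fin f → Fin K) (pt : Fin f → W), StrictMono pos ∧
    ∀ u v, A u v → E (pos u) (pt u) (pos v) (pt v) = true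

/-- No homomorphism from the pattern `A` to the digraph `D`. -/
def HomFree {V : Type*} {f : ℕ} (A : Fin f → Fin f → Prop) (D : V → V → Prop) : Prop :=
  ¬ ∃ φ : Fin f → V, ∀ u v, A u v → D (φ u) (φ v)

open Classical in
/-- One-sided regularity of a relation between two finite sets. -/
def LowReg {V : Type*} (g : V → V → Prop) (P Q : Finset V) (γ θ : ℝ) : Prop :=
  ∀ A ⊆ P, ∀ B ⊆ Q, γ * A.card * B.card - θ * P.card * Q.card
    ≤ ∑ i ∈ A, ∑ j ∈ B, if g i j then (1 : ℝ) else 0

open Classical in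
theorem LowReg.shrink {V : Type*} {g : V → V → Prop} {P Q P' Q' : Finset V} {γ θ θ' c : ℝ}
    (h : LowReg g P Q γ θ) (hP : P' ⊆ P) (hQ : Q' ⊆ Q) (hc : 0 ≤ c) (hθ' : 0 ≤ θ')
    (hθ : θ ≤ θ' * c ^ 2) (h1 : c * P.card ≤ P'.card) (h2 : c * Q.card ≤ Q'.card) :
    LowReg g P' Q' γ θ' := by
  intro A hA B hB
  refine le_trans ?_ (h A (hA.trans hP) B (hB.trans hQ))
  have hp : (0 : ℝ) ≤ P.card := Nat.cast_nonneg _
  have hq : (0 : ℝ) ≤ Q.card := Nat.cast_nonneg _
  have h3 : (c * P.card) * (c * Q.card) ≤ (P'.card : ℝ) * Q'.card :=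
    mul_le_mul h1 h2 (by positivity) (Nat.cast_nonneg _)
  have h4 : θ * P.card * Q.card ≤ θ' * c ^ 2 * P.card * Q.card := by
    have := mul_le_mul_of_nonneg_right hθ (mul_nonneg hp hq)
    nlinarith
  have h5 : θ' * ((c * P.card) * (c * Q.card)) ≤ θ' * ((P'.card : ℝ) * Q'.card) :=
    mul_le_mul_of_nonneg_left h3 hθ'
  nlinarith

open Classical in
/-- Embedding lemma. -/
theorem embed (γ : ℝ) (hγ : 0 < γ) (hγ1 : γ ≤ 1) (f : ℕ) :
    ∃ θ : ℝ, 0 < θ ∧ ∀ (V : Type) (A : Fin f → Fin f → Prop) (g : Fin f → Fin f → V → V → Prop)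
      (P : Fin f → Finset V), (∀ u, (P u).Nonempty) →
      (∀ u v, u < v → A u v → LowReg (g u v) (P u) (P v) γ θ) →
      ∃ x : Fin f → V, (∀ u, x u ∈ P u) ∧ ∀ u v, u < v → A u v → g u v (x u) (x v) := by
  induction f with
  | zero => exact ⟨1, one_pos, fun V A g P _ _ => ⟨Fin.elim0, fun u => u.elim0, fun u => u.elim0⟩⟩
  | succ f ih =>
    obtain ⟨θ', hθ', ih⟩ := ih
    refine ⟨min (θ' * (γ / 2) ^ 2) (γ / (4 * (f + 1))), by positivity, ?_⟩
    intro V A g P hP hreg
    set θ := min (θ' * (γ / 2) ^ 2) (γ / (4 * (f + 1))) with hθ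
    have hθ1 : θ ≤ θ' * (γ / 2) ^ 2 := min_le_left _ _
    have hθ2 : θ ≤ γ / (4 * (f + 1)) := min_le_right _ _
    let N : V → Fin f → Finset V := fun i v => (P v.succ).filter (fun j => g 0 v.succ i j)
    let bad : Fin f → Finset V := fun v =>
      (P 0).filter (fun i => A 0 v.succ ∧ ((N i v).card : ℝ) < γ / 2 * (P v.succ).card)
    have hP0 : (0 : ℝ) < (P 0).card := by exact_mod_cast (hP 0).card_pos
    have hbad : ∀ v, ((bad v).card : ℝ) ≤ (P 0).card / (2 * (f + 1)) := by
      intro v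
      by_cases hA : A 0 v.succ
      · have h := hreg 0 v.succ (Fin.succ_pos v) hA (bad v) (filter_subset _ _) (P v.succ)
          Subset.rfl
        have hq : (0 : ℝ) < (P v.succ).card := by exact_mod_cast (hP v.succ).card_pos
        have h2 : ∑ i ∈ bad v, ∑ j ∈ P v.succ, (if g 0 v.succ i j then (1 : ℝ) else 0)
            ≤ ∑ i ∈ bad v, γ / 2 * (P v.succ).card := by
          refine sum_le_sum fun i hi => ?_
          have := (mem_filter.mp hi).2.2
          rw [sum_boole]
          exact this.le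
        rw [sum_const, nsmul_eq_mul] at h2
        have h3 : γ / 2 * (bad v).card * (P v.succ).card ≤ θ * (P 0).card * (P v.succ).card := by
          nlinarith
        have h4 : γ / 2 * (bad v).card ≤ θ * (P 0).card := le_of_mul_le_mul_right h3 hq
        have h5 : θ * (P 0).card ≤ γ / (4 * (f + 1)) * (P 0).card :=
          mul_le_mul_of_nonneg_right hθ2 hP0.le
        have h6 : γ / (4 * (f + 1)) * (P 0).card = γ / 2 * ((P 0).card / (2 * (f + 1))) := by
          field_simp
          ring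
        rw [h6] at h5
        exact le_of_mul_le_mul_left (h4.trans h5) (by positivity)
      · have : bad v = ∅ := by
          simp [bad, hA]
        rw [this]
        simp only [card_empty, Nat.cast_zero]
        positivity
    have hex : ∃ i ∈ P 0, ∀ v, i ∉ bad v := by
      by_contra hcon
      push Not at hcon
      have hsub : P 0 ⊆ univ.biUnion bad := fun i hi => by
        obtain ⟨v, hv⟩ := hcon i hi
        exact mem_biUnion.mpr ⟨v, mem_univ _, hv⟩
      have h1 : ((P 0).card : ℝ) ≤ ∑ v, ((bad v).card : ℝ) := by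
        exact_mod_cast (card_le_card hsub).trans card_biUnion_le
      have h2 : ∑ v, ((bad v).card : ℝ) ≤ f * ((P 0).card / (2 * (f + 1))) := by
        refine (sum_le_sum fun v _ => hbad v).trans ?_
        simp
      have h3 : (f : ℝ) * ((P 0).card / (2 * (f + 1))) < (P 0).card := by
        rw [← mul_div_assoc, div_lt_iff₀ (by positivity)]
        have : (0 : ℝ) ≤ f := Nat.cast_nonneg _
        nlinarith
      linarith
    obtain ⟨i0, hi0, hgood⟩ := hex
    let P' : Fin f → Finset V := fun v => if A 0 v.succ then N i0 v else P v.succ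
    have hsub : ∀ v, P' v ⊆ P v.succ := by
      intro v
      by_cases hA : A 0 v.succ
      · simp only [P', hA, if_true]
        exact filter_subset _ _
      · simp [P', hA]
    have hbig : ∀ v, γ / 2 * (P v.succ).card ≤ (P' v).card := by
      intro v
      by_cases hA : A 0 v.succ
      · simp only [P', hA, if_true]
        by_contra hlt
        exact hgood v (mem_filter.mpr ⟨hi0, hA, not_le.mp hlt⟩)
      · simp only [P', hA, if_false]
        have : (0 : ℝ) ≤ (P v.succ).card := Nat.cast_nonneg _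
        nlinarith
    have hne : ∀ v, (P' v).Nonempty := by
      intro v
      have hq : (0 : ℝ) < (P v.succ).card := by exact_mod_cast (hP v.succ).card_pos
      have : (0 : ℝ) < (P' v).card := lt_of_lt_of_le (by positivity) (hbig v)
      exact card_pos.mp (by exact_mod_cast this)
    obtain ⟨x, hx, hx'⟩ := ih V (fun u v => A u.succ v.succ) (fun u v => g u.succ v.succ) P' hne
      (fun u v huv hA => (hreg u.succ v.succ (Fin.succ_lt_succ_iff.mpr huv) hA).shrink (hsub u)
        (hsub v) (by positivity) hθ'.le hθ1 (hbig u) (hbig v))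
    refine ⟨Fin.cons i0 x, ?_, ?_⟩
    · intro u
      refine Fin.cases ?_ (fun u => ?_) u
      · simpa using hi0
      · simpa using hsub u (hx u)
    · intro u v
      refine Fin.cases ?_ (fun v => ?_) v
      · intro h
        exact absurd h (Fin.not_lt_zero u)
      · refine Fin.cases ?_ (fun u => ?_) u
        · intro _ hA
          have := hx v
          simp only [P', hA, if_true] at this
          simpa using (mem_filter.mp this).2
        · intro huv hA
          simpa using hx' u v (Fin.succ_lt_succ_iff.mp huv) hA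

section Cond

variable {Ω T : Type*} [Fintype Ω] [DecidableEq T]

/-- Conditional average of `φ` on the fibre of `π` over `a`. -/
noncomputable def cond (μ : Ω → ℝ) (π : Ω → T) (φ : Ω → ℝ) (a : T) : ℝ :=
  (∑ x, if π x = a then μ x * φ x else 0) / ∑ x, if π x = a then μ x else 0

theorem cond_mem {μ : Ω → ℝ} (hμ : ∀ x, 0 ≤ μ x) (π : Ω → T) {φ : Ω → ℝ}
    (hφ : ∀ x, 0 ≤ φ x ∧ φ x ≤ 1) (a : T) : 0 ≤ cond μ π φ a ∧ cond μ π φ a ≤ 1 := by
  have h0 : 0 ≤ ∑ x, if π x = a then μ x else 0 :=
    sum_nonneg fun x _ => by split_ifs; exacts [hμ x, le_rfl]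
  constructor
  · exact div_nonneg (sum_nonneg fun x _ => by
      split_ifs; exacts [mul_nonneg (hμ x) (hφ x).1, le_rfl]) h0
  · apply div_le_one_of_le₀ _ h0
    refine sum_le_sum fun x _ => ?_
    split_ifs
    · exact mul_le_of_le_one_right (hμ x) (hφ x).2
    · exact le_rfl

theorem cond_orth [Fintype T] {μ : Ω → ℝ} (hμ : ∀ x, 0 ≤ μ x) (π : Ω → T) (φ : Ω → ℝ)
    (g : T → ℝ) : ∑ x, μ x * ((φ x - cond μ π φ (π x)) * g (π x)) = 0 := by
  have h1 : ∀ x, μ x * ((φ x - cond μ π φ (π x)) * g (π x))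
      = ∑ a, g a * ((if π x = a then μ x * φ x else 0)
        - cond μ π φ a * (if π x = a then μ x else 0)) := by
    intro x
    rw [sum_eq_single (π x)]
    · simp only [if_true]
      ring
    · intro a _ ha
      simp [ha.symm]
    · simp
  simp_rw [h1]
  rw [sum_comm]
  refine sum_eq_zero fun a _ => ?_
  rw [← mul_sum, sum_sub_distrib, ← mul_sum]
  by_cases h0 : (∑ x, if π x = a then μ x else 0) = 0
  · have hz : ∀ x, π x = a → μ x = 0 := by
      intro x hx
      have := (sum_eq_zero_iff_of_nonneg (fun x _ => by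
        split_ifs; exacts [hμ x, le_rfl])).mp h0 x (mem_univ _)
      simpa [hx] using this
    have : (∑ x, if π x = a then μ x * φ x else 0) = 0 :=
      sum_eq_zero fun x _ => by
        split_ifs with hx
        · simp [hz x hx]
        · rfl
    simp [h0, this]
  · rw [cond, div_mul_cancel₀ _ h0]
    simp

end Cond

end Pool.Agent.Lib.MP_37b92f_co
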