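import Mathlib

set_option autoImplicit false

namespace Pool.Agent.Lib.MP_37b92f_co

open Filter Topology

/-- An ordered graph: a finite simple graph on `Fin n` with the natural order. -/
structure OGraph where
  n : ℕ
  G : SimpleGraph (Fin n)

/-- Number of edges. -/
noncomputable def OGraph.e (G : OGraph) : ℕ := G.G.edgeSet.ncard

/-- Embeddings: strictly increasing maps sending edges to edges. -/
def Emb (H G : OGraph) : Type :=
  {φ : Fin H.n → Fin G.n // StrictMono φ ∧ ∀ u v, H.G.Adj u v → G.G.Adj (φ u) (φ v)}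

/-- A subgraph `G'` of `G`, with the inherited order, is `F`-free. -/
def Free (F G : OGraph) (G' : G.G.Subgraph) : Prop :=
  ¬ ∃ φ : Fin F.n → Fin G.n, StrictMono φ ∧ (∀ u, φ u ∈ G'.verts) ∧
    ∀ u v, F.G.Adj u v → G'.Adj (φ u) (φ v)

/-- The largest proportion of edges in an `F`-free subgraph of `G`. -/
noncomputable def rhoIn (F G : OGraph) : ℝ :=
  sSup {x : ℝ | ∃ G' : G.G.Subgraph, Free F G G' ∧ x = (G'.edgeSet.ncard : ℝ) / (G.e : ℝ)}

/-- The relative Turan density. -/
noncomputable def rho (F : OGraph) : ℝ :=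
  sInf {x : ℝ | ∃ G : OGraph, 1 ≤ G.e ∧ x = rhoIn F G}

/-- Universal sequences. -/
def Universal (G : ℕ → OGraph) : Prop :=
  (∀ n, 1 ≤ (G n).e) ∧ ∀ F : OGraph, Tendsto (fun n => rhoIn F (G n)) atTop (𝓝 (rho F))

/-- The probability that the edge `e` is in the image of the edge set of `H`. -/
noncomputable def hitProb {H G : OGraph} (Φ : PMF (Emb H G)) (e : Sym2 (Fin G.n)) : ℝ :=
  (Φ.toOuterMeasure {φ | ∃ u v, H.G.Adj u v ∧ e = s(φ.1 u, φ.1 v)}).toReal

/-- The complete ordered graph. -/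
def K (r : ℕ) : OGraph := ⟨r, ⊤⟩

end Pool.Agent.Lib.MP_37b92f_co
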