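import Pool.Agent.Lib.MP_37b92f_co.Basic

set_option autoImplicit false

namespace Pool.Agent.Lib.MP_37b92f_co

open Finset Filter Topology

namespace Dich

theorem minimax {R C : Type} [Fintype R] [Fintype C] [Nonempty R] (M : R → C → ℝ) :
    (∃ w : R → ℝ, (∀ r, 0 ≤ w r) ∧ ∑ r, w r = 1 ∧ ∀ c, ∑ r, w r * M r c ≤ 0) ∨
      ∃ l : C → ℝ, (∀ c, 0 ≤ l c) ∧ ∑ c, l c = 1 ∧ ∀ r, 0 ≤ ∑ c, l c * M r c := by
  classical
  obtain ⟨r0⟩ := (inferInstance : Nonempty R)
  rcases isEmpty_or_nonempty C with hC | ⟨⟨c0⟩⟩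
  · exact Or.inl ⟨Pi.single r0 1, (single_mem_stdSimplex ℝ r0).1, (single_mem_stdSimplex ℝ r0).2,
      fun c => hC.elim c⟩
  let f : (R → ℝ) → (C → ℝ) → ℝ := fun w l => ∑ r, ∑ c, w r * l c * M r c
  have h1 : ∀ l : C → ℝ, IsLinearMap ℝ fun w => f w l := fun l =>
    ⟨fun w w' => by simp only [f, Pi.add_apply, add_mul, sum_add_distrib],
      fun a w => by simp only [f, Pi.smul_apply, smul_eq_mul, mul_sum, mul_assoc]⟩
  have h2 : ∀ w : R → ℝ, IsLinearMap ℝ fun l => f w l := fun w =>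
    ⟨fun l l' => by simp only [f, Pi.add_apply, add_mul, mul_add, sum_add_distrib],
      fun a l => by
        simp only [f, Pi.smul_apply, smul_eq_mul, mul_sum]
        exact sum_congr rfl fun r _ => sum_congr rfl fun c _ => by ring⟩
  obtain ⟨w, hw, l, hl, h⟩ := Sion.exists_isSaddlePointOn (X := stdSimplex ℝ R)
    (Y := stdSimplex ℝ C) (f := f) ⟨_, single_mem_stdSimplex ℝ r0⟩ (convex_stdSimplex ℝ R)
    (isCompact_stdSimplex ℝ R)
    (fun l _ => (by fun_prop : Continuous fun w => f w l).lowerSemicontinuous.lowerSemicontinuousOn _)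
    (fun l _ => (((h1 l).mk' _).convexOn (convex_stdSimplex ℝ R)).quasiconvexOn)
    (convex_stdSimplex ℝ C) ⟨_, single_mem_stdSimplex ℝ c0⟩ (isCompact_stdSimplex ℝ C)
    (fun w _ => (by fun_prop : Continuous fun l => f w l).upperSemicontinuous.upperSemicontinuousOn _)
    (fun w _ => (((h2 w).mk' _).concaveOn (convex_stdSimplex ℝ C)).quasiconcaveOn)
  rcases le_total (f w l) 0 with h0 | h0
  · refine Or.inl ⟨w, hw.1, hw.2, fun c => ?_⟩
    have := (h w hw _ (single_mem_stdSimplex ℝ c)).trans h0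
    simpa [f, Pi.single_apply] using this
  · refine Or.inr ⟨l, hl.1, hl.2, fun r => ?_⟩
    have := h0.trans (h _ (single_mem_stdSimplex ℝ r) l hl)
    simpa [f, Pi.single_apply, ite_mul] using this

/-- Iterated ultrafilters: `k` positions tending to infinity one after the other, then a length. -/
noncomputable def V : (k : ℕ) → Ultrafilter ((Fin k → ℕ) × ℕ)
  | 0 => (hyperfilter ℕ).map fun N => (Fin.elim0, N)
  | k + 1 => (hyperfilter ℕ).bind fun i => (V k).map fun x => (Fin.cons i x.1, x.2)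

theorem mem_V_succ {k : ℕ} {s : Set ((Fin (k + 1) → ℕ) × ℕ)} :
    s ∈ V (k + 1) ↔ ∀ᶠ i in (hyperfilter ℕ : Filter ℕ),
      (fun x : (Fin k → ℕ) × ℕ => ((Fin.cons i x.1 : Fin (k + 1) → ℕ), x.2)) ⁻¹' s ∈ V k :=
  Filter.mem_bind'

theorem ev_ge (m : ℕ) : ∀ᶠ i in (hyperfilter ℕ : Filter ℕ), m ≤ i :=
  (eventually_ge_atTop m).filter_mono (Nat.cofinite_eq_atTop ▸ hyperfilter_le_cofinite)

theorem V_ev (k m : ℕ) :
    {x : (Fin k → ℕ) × ℕ | StrictMono x.1 ∧ (∀ a, m ≤ x.1 a ∧ x.1 a < x.2) ∧ m ≤ x.2} ∈ V k := by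
  induction k generalizing m with
  | zero =>
    refine Ultrafilter.mem_map.mpr ((ev_ge m).mono fun N hN => ?_)
    exact ⟨fun a => a.elim0, fun a => a.elim0, hN⟩
  | succ k ih =>
    refine mem_V_succ.mpr ((ev_ge m).mono fun i hi => ?_)
    refine Filter.mem_of_superset (ih (i + 1)) ?_
    rintro ⟨v, N⟩ ⟨h1, h2, h3⟩
    refine ⟨?_, ?_, by simp only at h3 ⊢; omega⟩
    · intro a b
      refine Fin.cases ?_ (fun b => ?_) b
      · intro h
        exact absurd h (Fin.not_lt_zero a)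
      · refine Fin.cases ?_ (fun a => ?_) a
        · intro _
          simpa using (h2 b).1
        · intro h
          simpa using h1 (Fin.succ_lt_succ_iff.mp h)
    · intro a
      refine Fin.cases ?_ (fun a => ?_) a
      · simp only [Fin.cons_zero]
        exact ⟨hi, h3⟩
      · simp only [Fin.cons_succ]
        have := h2 a
        simp only at this
        omega

theorem V_map (K k : ℕ) (j : Fin k → Fin K) (hj : StrictMono j) (s : Set ((Fin k → ℕ) × ℕ)) :
    (fun x : (Fin K → ℕ) × ℕ => (x.1 ∘ j, x.2)) ⁻¹' s ∈ V K ↔ s ∈ V k := by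
  induction K generalizing k with
  | zero =>
    cases k with
    | zero =>
      have : (fun x : (Fin 0 → ℕ) × ℕ => (x.1 ∘ j, x.2)) = id :=
        funext fun x => Prod.ext (funext fun a => a.elim0) rfl
      rw [this, Set.preimage_id]
    | succ k => exact (j 0).elim0
  | succ K ih =>
    have hne : (∀ a, j a ≠ 0) → ((fun x : (Fin (K + 1) → ℕ) × ℕ => (x.1 ∘ j, x.2)) ⁻¹' s
        ∈ V (K + 1) ↔ s ∈ V k) := by
      intro h0
      let j' : Fin k → Fin K := fun a => (j a).pred (h0 a)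
      have hj' : StrictMono j' := fun a b h => Fin.pred_lt_pred_iff.mpr (hj h)
      have hjj : j = fun a => (j' a).succ := funext fun a => by simp [j']
      rw [mem_V_succ, ← ih k j' hj' s, hjj]
      refine Iff.trans (eventually_congr (Eventually.of_forall fun i => ?_))
        (eventually_const (f := (hyperfilter ℕ : Filter ℕ)))
      exact Iff.rfl
    cases k with
    | zero => exact hne fun a => a.elim0
    | succ k =>
      by_cases h0 : j 0 = 0
      · have h1 : ∀ a : Fin k, j a.succ ≠ 0 := fun a =>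
          (h0 ▸ hj (Fin.succ_pos a) : 0 < j a.succ).ne'
        let j' : Fin k → Fin K := fun a => (j a.succ).pred (h1 a)
        have hj' : StrictMono j' := fun a b h =>
          Fin.pred_lt_pred_iff.mpr (hj (Fin.succ_lt_succ_iff.mpr h))
        rw [mem_V_succ, mem_V_succ]
        refine eventually_congr (Eventually.of_forall fun i => ?_)
        rw [← ih k j' hj', ← Set.preimage_comp, ← Set.preimage_comp]
        have : ((fun x : (Fin (K + 1) → ℕ) × ℕ => (x.1 ∘ j, x.2)) ∘
            fun x : (Fin K → ℕ) × ℕ => ((Fin.cons i x.1 : Fin (K + 1) → ℕ), x.2))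
            = (fun x : (Fin k → ℕ) × ℕ => ((Fin.cons i x.1 : Fin (k + 1) → ℕ), x.2)) ∘
              fun x : (Fin K → ℕ) × ℕ => (x.1 ∘ j', x.2) := by
          funext x
          refine Prod.ext (funext fun a => ?_) rfl
          refine Fin.cases ?_ (fun a => ?_) a
          · simp [h0]
          · have : j a.succ = (j' a).succ := by simp [j']
            simp [this]
        rw [this]
      · refine hne fun a ha => h0 ?_
        exact le_antisymm (ha ▸ hj.monotone (Fin.zero_le a)) (Fin.zero_le _)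

/-- Restriction along natural number positions. -/
def resN {W : Type} {k N : ℕ} (v : Fin k → ℕ) (E : Str W (N + 2)) : Str W k :=
  res (fun a => Fin.ofNat (N + 2) (v a)) E

theorem clip_mono {k N : ℕ} {v : Fin k → ℕ} (hv : StrictMono v) (h : ∀ a, v a < N) :
    StrictMono fun a => Fin.ofNat (N + 2) (v a) := by
  intro a b hab
  have ha := h a
  have hb := h b
  have := hv hab
  rw [Fin.lt_def, Fin.val_ofNat, Fin.val_ofNat, Nat.mod_eq_of_lt (by omega),
    Nat.mod_eq_of_lt (by omega)]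
  exact this

theorem limit {W : Type} [Fintype W] [DecidableEq W] {ι : Type} [Fintype ι] [DecidableEq ι]
    {C : ℕ → Type} [∀ N, Fintype (C N)] (ix : ∀ N, C N → ι) (st : ∀ N, C N → Str W (N + 2))
    (l : ∀ N, C N → ℝ) (h0 : ∀ N c, 0 ≤ l N c) (h1 : ∀ N, ∑ c, l N c = 1) :
    ∃ μ : ι → ∀ k, Str W k → ℝ, (∀ i k A, 0 ≤ μ i k A) ∧ ∀ i k (g : Str W k → ℝ),
      Tendsto (fun x : (Fin k → ℕ) × ℕ =>
        ∑ c, if ix x.2 c = i then l x.2 c * g (resN x.1 (st x.2 c)) else 0) (V k : Filter _)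
        (𝓝 (∑ A, μ i k A * g A)) := by
  have key : ∀ i k (A : Str W k), ∃ y ∈ Set.Icc (0 : ℝ) 1, Tendsto (fun x : (Fin k → ℕ) × ℕ =>
      ∑ c, if ix x.2 c = i ∧ resN x.1 (st x.2 c) = A then l x.2 c else 0) (V k : Filter _)
      (𝓝 y) := by
    intro i k A
    refine isCompact_Icc.ultrafilter_le_nhds ((V k).map _) ?_
    rw [Ultrafilter.coe_map, le_principal_iff, Filter.mem_map]
    refine Eventually.of_forall fun x => ⟨sum_nonneg fun c _ => ?_, ?_⟩
    · split_ifs
      exacts [h0 _ _, le_rfl]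
    · rw [← h1 x.2]
      refine sum_le_sum fun c _ => ?_
      split_ifs
      exacts [le_rfl, h0 _ _]
  choose μ hμ hl using key
  refine ⟨μ, fun i k A => (hμ i k A).1, fun i k g => ?_⟩
  have := tendsto_finsetSum univ fun A _ => (hl i k A).mul_const (g A)
  refine this.congr fun x => ?_
  simp only [sum_mul]
  rw [sum_comm]
  refine sum_congr rfl fun c _ => ?_
  by_cases hc : ix x.2 c = i <;> simp [hc]

end Dich

open Dich in
theorem dichotomy (W : Type) [Fintype W] [DecidableEq W] (ι : Type) [Fintype ι]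
    (P : ι → ∀ K : ℕ, Str W K → Prop)
    (hP : ∀ i k K (v : Fin k → Fin K), StrictMono v → ∀ E, P i K E → P i k (res v E))
    (val : Str W 2 → ℝ) (t : ι → ℝ) :
    (∃ (N : ℕ) (w : Fin N → Fin N → ℝ), (∀ a b, 0 ≤ w a b) ∧ (∀ a b, w a b ≠ 0 → a < b) ∧
        ∑ a, ∑ b, w a b = 1 ∧
        ∀ i E, P i N E → ∑ a, ∑ b, w a b * val (res ![a, b] E) ≤ t i) ∨
      ∃ (i : ι) (L : Law W), (∀ K E, L.μ K E ≠ 0 → P i K E) ∧ t i ≤ ∑ E, L.μ 2 E * val E := by
  classical
  rw [or_iff_not_imp_left]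
  intro hno
  let C : ℕ → Type := fun N => {x : ι × Str W (N + 2) // P x.1 (N + 2) x.2}
  have hex : ∀ N, ∃ l : C N → ℝ, (∀ c, 0 ≤ l c) ∧ ∑ c, l c = 1 ∧
      ∀ r : {r : Fin (N + 2) × Fin (N + 2) // r.1 < r.2},
        0 ≤ ∑ c, l c * (val (res ![r.1.1, r.1.2] c.1.2) - t c.1.1) := by
    intro N
    have : Nonempty {r : Fin (N + 2) × Fin (N + 2) // r.1 < r.2} := ⟨⟨(0, 1), Fin.zero_lt_one⟩⟩
    refine (minimax fun (r : {r : Fin (N + 2) × Fin (N + 2) // r.1 < r.2}) (c : C N) =>
      val (res ![r.1.1, r.1.2] c.1.2) - t c.1.1).resolve_left ?_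
    rintro ⟨w, hw0, hw1, hw⟩
    have hs : ∀ g : Fin (N + 2) → Fin (N + 2) → ℝ,
        ∑ a, ∑ b, (if h : a < b then w ⟨(a, b), h⟩ else 0) * g a b
          = ∑ r, w r * g r.1.1 r.1.2 := by
      intro g
      rw [← Fintype.sum_prod_type', ← Fintype.sum_subtype_add_sum_subtype
        (fun r : Fin (N + 2) × Fin (N + 2) => r.1 < r.2)]
      rw [sum_eq_zero (s := (univ : Finset {r : Fin (N + 2) × Fin (N + 2) // ¬ r.1 < r.2}))
        fun r _ => by rw [dif_neg r.2, zero_mul], add_zero]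
      exact sum_congr rfl fun r _ => by rw [dif_pos r.2]
    refine hno ⟨N + 2, fun a b => if h : a < b then w ⟨(a, b), h⟩ else 0, fun a b => ?_,
      fun a b h => ?_, ?_, fun i E hE => ?_⟩
    · dsimp only
      split_ifs
      exacts [hw0 _, le_rfl]
    · by_contra hab
      exact h (dif_neg hab)
    · simpa [hw1] using hs fun _ _ => 1
    · rw [hs fun a b => val (res ![a, b] E)]
      have := hw ⟨(i, E), hE⟩
      simp only [mul_sub, sum_sub_distrib, ← sum_mul, hw1, one_mul] at this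
      linarith
  choose l h0 h1 hl using hex
  obtain ⟨μ, hμ0, hμ⟩ := limit (C := C) (fun _ c => c.1.1) (fun _ c => c.1.2) l h0 h1
  have hspread : ∀ i k K (v : Fin k → Fin K), StrictMono v → ∀ g : Str W k → ℝ,
      ∑ E, μ i K E * g (res v E) = ∑ E, μ i k E * g E := by
    intro i k K v hv g
    have ht : Tendsto (fun x : (Fin K → ℕ) × ℕ => (x.1 ∘ v, x.2)) (V K : Filter _)
        (V k : Filter _) := fun s hs => (V_map K k v hv s).mpr hs
    have h2 := (hμ i k g).comp ht
    refine tendsto_nhds_unique (hμ i K fun E => g (res v E)) (h2.congr fun x => ?_)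
    exact sum_congr rfl fun c _ => rfl
  let m : ι → ℝ := fun i => ∑ E, μ i 0 E
  have hm : ∀ i K, ∑ E, μ i K E = m i := fun i K => by
    simpa only [mul_one] using hspread i 0 K Fin.elim0 (fun a => a.elim0) fun _ => 1
  have hm0 : ∀ i, 0 ≤ m i := fun i => sum_nonneg fun E _ => hμ0 i 0 E
  have hm1 : ∑ i, m i = 1 := by
    have := tendsto_finsetSum univ fun i _ => hμ i 0 fun _ => 1
    simp only [mul_one] at this
    refine tendsto_nhds_unique this (tendsto_const_nhds.congr fun x => ?_)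
    rw [sum_comm]
    simp [h1]
  have hval : 0 ≤ ∑ i, ∑ E, μ i 2 E * (val E - t i) := by
    refine ge_of_tendsto (tendsto_finsetSum univ fun i _ => hμ i 2 fun E => val E - t i) ?_
    filter_upwards [V_ev 2 0] with x hx
    have hc := clip_mono hx.1 fun a => (hx.2.1 a).2
    refine (hl x.2 ⟨(Fin.ofNat _ (x.1 0), Fin.ofNat _ (x.1 1)), hc Fin.zero_lt_one⟩).trans_eq ?_
    rw [sum_comm]
    refine sum_congr rfl fun c _ => ?_
    have : ![Fin.ofNat (x.2 + 2) (x.1 0), Fin.ofNat (x.2 + 2) (x.1 1)]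
        = fun a => Fin.ofNat (x.2 + 2) (x.1 a) := by
      funext a
      fin_cases a <;> rfl
    rw [sum_ite_eq, if_pos (mem_univ _), resN, ← this]
  obtain ⟨i, hi, hge⟩ := exists_ge_of_avg m
    (fun i => (∑ E, μ i 2 E * (val E - t i)) / m i) hm0 hm1
  have hpos : 0 < m i := (hm0 i).lt_of_ne' hi
  have hsum : ∑ i, m i * ((∑ E, μ i 2 E * (val E - t i)) / m i)
      = ∑ i, ∑ E, μ i 2 E * (val E - t i) := by
    refine sum_congr rfl fun j _ => ?_
    by_cases hj : m j = 0
    · have := (sum_eq_zero_iff_of_nonneg fun E _ => hμ0 j 2 E).mp ((hm j 2).trans hj)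
      rw [hj, zero_mul, sum_eq_zero fun E hE => by rw [this E hE, zero_mul]]
    · field_simp
  refine ⟨i, ⟨fun K E => μ i K E / m i, fun K E => div_nonneg (hμ0 i K E) hpos.le,
    fun K => by rw [← sum_div, hm, div_self hi], fun k K v hv g => ?_⟩, fun K E hE => ?_, ?_⟩
  · simp only [div_mul_eq_mul_div, ← sum_div, hspread i k K v hv g]
  · by_contra hn
    refine hE ?_
    have h2 := hμ i K fun A => if A = E then 1 else 0
    have h3 : μ i K E = 0 := by
      simp only [mul_ite, mul_one, mul_zero, sum_ite_eq', mem_univ, if_true] at h2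
      refine tendsto_nhds_unique h2 (tendsto_const_nhds.congr' ?_)
      filter_upwards [V_ev K 0] with x hx
      refine (sum_eq_zero fun c _ => ?_).symm
      split_ifs with a1 a2
      · exact absurd (a1 ▸ a2 ▸ hP _ _ _ _ (clip_mono hx.1 fun a => (hx.2.1 a).2) _ c.2) hn
      · rfl
      · rfl
    simp [h3]
  · have h4 : 0 ≤ ∑ E, μ i 2 E * (val E - t i) := by
      have := hval.trans (hsum ▸ hge)
      exact (div_nonneg_iff.mp this).elim (fun h => h.1) fun h => absurd h.2 (not_le.mpr hpos)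
    simp only [mul_sub, sum_sub_distrib, ← sum_mul, hm] at h4
    simp only [div_mul_eq_mul_div, ← sum_div]
    rw [le_div_iff₀ hpos]
    linarith

end Pool.Agent.Lib.MP_37b92f_co
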