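import Pool.Agent.Lib.MP_37b92f_co.KeyStar

set_option autoImplicit false

namespace Pool.Agent.Lib.MP_37b92f_co

open Finset

section Star

variable {W T : Type} [Fintype W] [DecidableEq W] [Fintype T] [DecidableEq T]

omit [Fintype T] [DecidableEq T] in
theorem star_E1 (K : W → W → ℝ) (hK : ∀ y, K y y ≤ 1) (Mx π : W → ℝ) (n : ℝ) (hn0 : 0 < n)
    (hMx : ∀ y, 0 ≤ Mx y) (hπ0 : ∀ y, 0 ≤ π y) (hπ1 : ∀ y, π y ≤ 1)
    (hπM : ∀ y, π y * Mx y = 1 / n) :
    ∑ ξ : W → Bool, pw (bw π) ξ *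
        Q K (fun z => (63 / 64) / n + ∑ y, sel ξ y * (if y = z then Mx y / 64 else 0))
          (fun z => (63 / 64) / n + ∑ y, sel ξ y * (if y = z then Mx y / 64 else 0))
      ≤ (∑ y, ∑ z, K y z) / n ^ 2 + (∑ y, Mx y) / (4096 * n) := by
  rw [E_quad π K (fun _ => (63 / 64) / n) (fun y z => if y = z then Mx y / 64 else 0)]
  have h1 : ∀ z, (63 / 64) / n + ∑ y, π y * (if y = z then Mx y / 64 else 0) = 1 / n := by
    intro z
    simp only [mul_ite, mul_zero, sum_ite_eq', mem_univ, if_true]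
    rw [← mul_div_assoc, hπM]
    ring
  simp only [h1]
  refine add_le_add (le_of_eq ?_) ?_
  · simp only [Q, sum_div]
    exact sum_congr rfl fun y _ => sum_congr rfl fun z _ => by field_simp
  · rw [sum_div]
    refine sum_le_sum fun y _ => ?_
    have h2 : Q K (fun z => if y = z then Mx y / 64 else 0) (fun z => if y = z then Mx y / 64 else 0)
        = (Mx y / 64) ^ 2 * K y y := by
      simp [Q, sq]
    rw [h2]
    have h3 : 0 ≤ π y - π y ^ 2 := by nlinarith [hπ0 y, hπ1 y]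
    have h4 : (π y - π y ^ 2) * ((Mx y / 64) ^ 2 * K y y) ≤ (π y - π y ^ 2) * (Mx y / 64) ^ 2 :=
      mul_le_mul_of_nonneg_left (mul_le_of_le_one_right (sq_nonneg _) (hK y)) h3
    have h5 : π y * (Mx y / 64) ^ 2 = Mx y / (4096 * n) := by
      have : π y * (Mx y / 64) ^ 2 = (π y * Mx y) * Mx y / 4096 := by ring
      rw [this, hπM]
      field_simp
    have h6 : 0 ≤ π y ^ 2 * (Mx y / 64) ^ 2 := by positivity
    nlinarith

omit [Fintype T] [DecidableEq T] in
theorem star_E2 (S ψ f : W → W → ℝ) (Mx π : W → ℝ) (η r : ℝ) (hW : 0 < Fintype.card W)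
    (hψ : Samp ψ η) (hr : 0 ≤ r)
    (hS : ∀ y z, 0 ≤ S y z ∧ S y z ≤ 1) (hSs : ∀ y z, S y z = S z y)
    (hf : ∀ y z, 0 ≤ f y z) (hfS : ∀ y z, f y z * S y z = 0)
    (hfψ : ∀ y z, f y z ≤ ψ y z) (hMx : ∀ y, 0 ≤ Mx y) (hπ0 : ∀ y, 0 ≤ π y) (hπ1 : ∀ y, π y ≤ 1)
    (hπr : ∀ y, π y ≤ r / Fintype.card W) (hπM : ∀ y, π y * Mx y = 1 / Fintype.card W)
    (hB : ∀ z, ∑ y, π y * f y z ≤ 1 / 2) :
    ∑ ξ : W → Bool, pw (bw π) ξ * Q S (fun z => 1 / Fintype.card W
            + ∑ y, sel ξ y * (f y z / (2 * Fintype.card W) + if y = z then Mx y / 64 else 0))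
          (fun z => 1 / Fintype.card W
            + ∑ y, sel ξ y * (f y z / (2 * Fintype.card W) + if y = z then Mx y / 64 else 0))
      ≤ 2 * (∑ y, ∑ z, S y z) / (Fintype.card W : ℝ) ^ 2 + (∑ y, Mx y) / (4096 * Fintype.card W)
        + r * η / 4 := by
  have htwo := hψ.two S hS
  set n : ℝ := (Fintype.card W : ℝ) with hn
  have hn0 : 0 < n := by rw [hn]; exact_mod_cast hW
  rw [E_quad π S (fun _ => 1 / n) (fun y z => f y z / (2 * n) + if y = z then Mx y / 64 else 0)]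
  set Sb := ∑ y, ∑ z, S y z with hSb
  have hSb0 : 0 ≤ Sb := sum_nonneg fun y _ => sum_nonneg fun z _ => (hS y z).1
  have h1 : ∀ z, 0 ≤ 1 / n + ∑ y, π y * (f y z / (2 * n) + if y = z then Mx y / 64 else 0) ∧
      1 / n + ∑ y, π y * (f y z / (2 * n) + if y = z then Mx y / 64 else 0) ≤ 81 / 64 / n := by
    intro z
    have e1 : ∑ y, π y * (f y z / (2 * n) + if y = z then Mx y / 64 else 0)
        = (∑ y, π y * f y z) / (2 * n) + 1 / n / 64 := by
      simp only [mul_add, sum_add_distrib, mul_ite, mul_zero, sum_ite_eq', mem_univ, if_true,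
        sum_div]
      rw [← hπM z]
      congr 1
      · exact sum_congr rfl fun y _ => by ring
      · ring
    rw [e1]
    have e2 : 0 ≤ ∑ y, π y * f y z := sum_nonneg fun y _ => mul_nonneg (hπ0 y) (hf y z)
    refine ⟨by positivity, ?_⟩
    have e3 : (∑ y, π y * f y z) / (2 * n) ≤ (1 / 2) / (2 * n) :=
      div_le_div_of_nonneg_right (hB z) (by positivity)
    have e4 : 81 / 64 / n = 1 / n + (1 / 2 / (2 * n) + 1 / n / 64) := by
      field_simp
      ring
    linarith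
  have h2 : Q S (fun z => 1 / n + ∑ y, π y * (f y z / (2 * n) + if y = z then Mx y / 64 else 0))
      (fun z => 1 / n + ∑ y, π y * (f y z / (2 * n) + if y = z then Mx y / 64 else 0))
      ≤ (81 / 64) ^ 2 * (Sb / n ^ 2) := by
    have : (81 / 64) ^ 2 * (Sb / n ^ 2) = ∑ y, ∑ z, (81 / 64 / n) * (81 / 64 / n) * S y z := by
      simp only [hSb, ← mul_sum]
      field_simp
    rw [this]
    refine sum_le_sum fun y _ => sum_le_sum fun z _ => ?_
    exact mul_le_mul_of_nonneg_right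
      (mul_le_mul (h1 y).2 (h1 z).2 (h1 z).1 (by positivity)) (hS y z).1
  let s : W → ℝ := fun z => ∑ z', S z z'
  have hs0 : ∀ z, 0 ≤ s z := fun z => sum_nonneg fun z' _ => (hS z z').1
  have h3 : ∀ y, Q S (fun z => f y z / (2 * n) + if y = z then Mx y / 64 else 0)
      (fun z => f y z / (2 * n) + if y = z then Mx y / 64 else 0)
      ≤ (∑ z, f y z * s z + ∑ z, ψ y z * |∑ z', ψ y z' * S z z' - ∑ z', S z z'|) / (4 * n ^ 2)
        + (Mx y / 64) ^ 2 := by
    intro y
    have e1 : Q S (fun z => f y z / (2 * n) + if y = z then Mx y / 64 else 0)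
        (fun z => f y z / (2 * n) + if y = z then Mx y / 64 else 0)
        = (∑ z, f y z * ∑ z', f y z' * S z z') / (4 * n ^ 2) + (Mx y / 64) ^ 2 * S y y := by
      have e2 : ∀ z, f y z * S z y = 0 := fun z => by rw [hSs, hfS]
      simp only [Q, add_mul, mul_add, sum_add_distrib, mul_ite, ite_mul, mul_zero, zero_mul,
        sum_ite_eq, mem_univ, if_true]
      have e3 : ∑ z, f y z / (2 * n) * (Mx y / 64) * S z y = 0 :=
        sum_eq_zero fun z _ => by
          have : f y z / (2 * n) * (Mx y / 64) * S z y = (f y z * S z y) * (Mx y / 64 / (2 * n)) := by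
            ring
          rw [this, e2, zero_mul]
      have e4 : ∑ x, ∑ z, (if y = x then Mx y / 64 * (f y z / (2 * n)) * S x z else 0) = 0 := by
        rw [sum_comm]
        simp only [sum_ite_eq, mem_univ, if_true]
        exact sum_eq_zero fun z _ => by
          have : Mx y / 64 * (f y z / (2 * n)) * S y z = (f y z * S y z) * (Mx y / 64 / (2 * n)) := by
            ring
          rw [this, hfS, zero_mul]
      rw [e3, e4, sum_div]
      simp only [add_zero, zero_add]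
      congr 1
      · refine sum_congr rfl fun z _ => ?_
        rw [mul_sum, sum_div]
        exact sum_congr rfl fun z' _ => by field_simp; ring
      · ring
    rw [e1]
    refine add_le_add (div_le_div_of_nonneg_right ?_ (by positivity))
      (mul_le_of_le_one_right (sq_nonneg _) (hS y y).2)
    rw [← sum_add_distrib]
    refine sum_le_sum fun z _ => ?_
    have e5 : ∑ z', f y z' * S z z' ≤ ∑ z', ψ y z' * S z z' :=
      sum_le_sum fun z' _ => mul_le_mul_of_nonneg_right (hfψ y z') (hS z z').1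
    have e6 := le_abs_self (∑ z', ψ y z' * S z z' - ∑ z', S z z')
    have e7 := mul_le_mul_of_nonneg_right (hfψ y z)
      (abs_nonneg (∑ z', ψ y z' * S z z' - ∑ z', S z z'))
    have e8 : f y z * ∑ z', f y z' * S z z'
        ≤ f y z * (s z + |∑ z', ψ y z' * S z z' - ∑ z', S z z'|) :=
      mul_le_mul_of_nonneg_left (by simp only [s]; linarith) (hf y z)
    linarith
  have h4 : ∑ y, (π y - π y ^ 2) * Q S (fun z => f y z / (2 * n) + if y = z then Mx y / 64 else 0)
      (fun z => f y z / (2 * n) + if y = z then Mx y / 64 else 0)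
      ≤ ∑ y, ((∑ z, π y * f y z * s z
        + r / n * ∑ z, ψ y z * |∑ z', ψ y z' * S z z' - ∑ z', S z z'|) / (4 * n ^ 2)
        + Mx y / (4096 * n)) := by
    refine sum_le_sum fun y _ => ?_
    have e0 : 0 ≤ π y - π y ^ 2 := by nlinarith [hπ0 y, hπ1 y]
    have e1 : 0 ≤ ∑ z, f y z * s z := sum_nonneg fun z _ => mul_nonneg (hf y z) (hs0 z)
    have e2 : 0 ≤ ∑ z, ψ y z * |∑ z', ψ y z' * S z z' - ∑ z', S z z'| :=
      sum_nonneg fun z _ => mul_nonneg (hψ.nonneg y z) (abs_nonneg _)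
    refine (mul_le_mul_of_nonneg_left (h3 y) e0).trans ?_
    refine (mul_le_mul_of_nonneg_right (by nlinarith [sq_nonneg (π y)] : π y - π y ^ 2 ≤ π y)
      (by positivity)).trans ?_
    have h5 : π y * (Mx y / 64) ^ 2 = Mx y / (4096 * n) := by
      have : π y * (Mx y / 64) ^ 2 = (π y * Mx y) * Mx y / 4096 := by ring
      rw [this, hπM]
      field_simp
    rw [mul_add, h5, ← mul_div_assoc, mul_add]
    have e3 : π y * ∑ z, f y z * s z = ∑ z, π y * f y z * s z := by
      rw [mul_sum]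
      exact sum_congr rfl fun z _ => by ring
    rw [e3]
    have e4 := mul_le_mul_of_nonneg_right (hπr y) e2
    gcongr
  have h5 : ∑ y, ∑ z, π y * f y z * s z ≤ Sb / 2 := by
    rw [sum_comm, hSb, sum_div]
    refine sum_le_sum fun z _ => ?_
    rw [← sum_mul]
    have := mul_le_mul_of_nonneg_right (hB z) (hs0 z)
    simp only [s] at this ⊢
    linarith
  rw [sum_add_distrib, ← sum_div, ← sum_div, sum_add_distrib, ← mul_sum] at h4
  have h6 : r / n * ∑ y, ∑ z, ψ y z * |∑ z', ψ y z' * S z z' - ∑ z', S z z'| ≤ r / n * (η * n ^ 3) :=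
    mul_le_mul_of_nonneg_left htwo (by positivity)
  have h7 : (∑ y, ∑ z, π y * f y z * s z
      + r / n * ∑ y, ∑ z, ψ y z * |∑ z', ψ y z' * S z z' - ∑ z', S z z'|) / (4 * n ^ 2)
      ≤ (Sb / 2 + r / n * (η * n ^ 3)) / (4 * n ^ 2) :=
    div_le_div_of_nonneg_right (add_le_add h5 h6) (by positivity)
  have h8 : (Sb / 2 + r / n * (η * n ^ 3)) / (4 * n ^ 2) = Sb / n ^ 2 / 8 + r * η / 4 := by
    field_simp
    ring
  have h9 : 0 ≤ Sb / n ^ 2 := by positivity
  have h10 : 2 * Sb / n ^ 2 = 2 * (Sb / n ^ 2) := by ring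
  rw [h10]
  nlinarith

theorem star_E3 (ψ f : W → W → ℝ) (σ : W → T) (Mx π : W → ℝ) (η : ℝ) (hW : 0 < Fintype.card W)
    (hψ : Samp ψ η) (hf : ∀ y z, 0 ≤ f y z) (hfψ : ∀ y z, f y z ≤ ψ y z) (hπ0 : ∀ y, 0 ≤ π y)
    (hπM : ∀ y, π y * Mx y = 1 / Fintype.card W) (hB : ∀ z, ∑ y, π y * f y z ≤ 1 / 2) :
    (∑ y, ∑ z, f y z - Fintype.card T * (η * (Fintype.card W : ℝ) ^ 2)) / (2 * Fintype.card W)
      ≤ ∑ ξ : W → Bool, pw (bw π) ξ * ∑ y, ∑ z, Mx y * min (cond (fun _ => 1) σ (f y) (σ z)) 1 *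
          (sel ξ y * (1 + ∑ y', sel ξ y' *
            (if y' = y then 0 else - cond (fun _ => 1) σ (f y') (σ z)))) := by
  let a : W → T → ℝ := fun y t => cond (fun _ => 1) σ (f y) t
  have ha : ∀ y t, 0 ≤ a y t := fun y t => cond_nonneg σ (hf y) t
  have hcells := hψ.cells σ (fun y t => if 1 < a y t then 1 else 0)
    (fun y t => by split_ifs <;> norm_num)
  set n : ℝ := (Fintype.card W : ℝ) with hn
  have hn0 : 0 < n := by rw [hn]; exact_mod_cast hW
  have h1 : ∀ y z, ∑ ξ : W → Bool, pw (bw π) ξ * (sel ξ y * (1 + ∑ y', sel ξ y' *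
      (if y' = y then 0 else - a y' (σ z))))
      = π y * (1 + ∑ y', π y' * (if y' = y then 0 else - a y' (σ z))) := by
    intro y z
    have := E_affine π 0 1 (fun y' => if y' = y then 1 else 0)
      (fun y' => if y' = y then 0 else - a y' (σ z))
    have e : ∑ y', (π y' - π y' ^ 2) * ((if y' = y then (1 : ℝ) else 0)
        * (if y' = y then 0 else - a y' (σ z))) = 0 :=
      sum_eq_zero fun y' _ => by split_ifs <;> simp
    rw [e] at this
    simpa only [zero_add, add_zero, mul_ite, mul_one, mul_zero, sum_ite_eq', mem_univ, if_true]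
      using this
  have h2 : ∑ ξ : W → Bool, pw (bw π) ξ * ∑ y, ∑ z, Mx y * min (a y (σ z)) 1 *
          (sel ξ y * (1 + ∑ y', sel ξ y' * (if y' = y then 0 else - a y' (σ z))))
      = ∑ y, ∑ z, min (a y (σ z)) 1 *
          (1 + ∑ y', π y' * (if y' = y then 0 else - a y' (σ z))) / n := by
    have e' : ∀ (r : ℝ) (G : W → W → ℝ), r * ∑ z, ∑ z', G z z' = ∑ z, ∑ z', r * G z z' := by
      intro r G
      simp only [mul_sum]
    simp_rw [e']
    rw [sum_comm]
    refine sum_congr rfl fun y _ => ?_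
    rw [sum_comm]
    refine sum_congr rfl fun z _ => ?_
    have : ∀ ξ : W → Bool, pw (bw π) ξ * (Mx y * min (a y (σ z)) 1 *
          (sel ξ y * (1 + ∑ y', sel ξ y' * (if y' = y then 0 else - a y' (σ z)))))
        = Mx y * min (a y (σ z)) 1 * (pw (bw π) ξ *
          (sel ξ y * (1 + ∑ y', sel ξ y' * (if y' = y then 0 else - a y' (σ z))))) :=
      fun ξ => by ring
    simp_rw [this]
    rw [← mul_sum, h1, div_eq_mul_one_div, ← hπM y]
    ring
  refine le_trans ?_ h2.ge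
  have h3 : ∀ y, (∑ z, f y z - ∑ z, (ψ y z - 1) * (if 1 < a y (σ z) then 1 else 0)) / (2 * n)
      ≤ ∑ z, min (a y (σ z)) 1 * (1 + ∑ y', π y' * (if y' = y then 0 else - a y' (σ z))) / n := by
    intro y
    have hm : ∀ z, 0 ≤ min (a y (σ z)) 1 := fun z => le_min (ha _ _) zero_le_one
    have e1 : ∑ z, f y z - ∑ z, (ψ y z - 1) * (if 1 < a y (σ z) then 1 else 0)
        ≤ ∑ z, min (a y (σ z)) 1 := by
      have e2 := cond_avg σ (f y) (fun t => if 1 < a y t then 0 else 1)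
      have e3 : ∑ z, min (a y (σ z)) 1 = ∑ z, a y (σ z) * (if 1 < a y (σ z) then 0 else 1)
          + ∑ z, (if 1 < a y (σ z) then (1 : ℝ) else 0) := by
        rw [← sum_add_distrib]
        refine sum_congr rfl fun z _ => ?_
        split_ifs with h
        · simp [min_eq_right h.le]
        · simp [min_eq_left (not_lt.mp h)]
      rw [e3, ← e2, ← sum_sub_distrib, ← sum_add_distrib]
      refine sum_le_sum fun z _ => ?_
      have := hfψ y z
      split_ifs <;> linarith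
    have e4 : ∑ z, min (a y (σ z)) 1 * ∑ y', π y' * a y' (σ z) ≤ ∑ z, min (a y (σ z)) 1 / 2 := by
      have e5 : ∑ z, min (a y (σ z)) 1 * ∑ y', π y' * a y' (σ z)
          = ∑ z, min (a y (σ z)) 1 * ∑ y', π y' * f y' z := by
        simp only [mul_sum]
        rw [sum_comm, sum_comm (s := univ) (t := univ)
          (f := fun z y' => min (a y (σ z)) 1 * (π y' * f y' z))]
        refine sum_congr rfl fun y' _ => ?_
        have := cond_avg σ (f y') (fun t => π y' * min (a y t) 1)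
        refine Eq.trans ?_ (this.symm.trans ?_)
        · exact sum_congr rfl fun z _ => by simp only [a]; ring
        · exact sum_congr rfl fun z _ => by ring
      rw [e5]
      refine sum_le_sum fun z _ => ?_
      have := mul_le_mul_of_nonneg_left (hB z) (hm z)
      linarith
    have e6 : ∑ z, min (a y (σ z)) 1 - ∑ z, min (a y (σ z)) 1 * ∑ y', π y' * a y' (σ z)
        ≤ ∑ z, min (a y (σ z)) 1 * (1 + ∑ y', π y' * (if y' = y then 0 else - a y' (σ z))) := by
      rw [← sum_sub_distrib]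
      refine sum_le_sum fun z _ => ?_
      have : - ∑ y', π y' * a y' (σ z) ≤ ∑ y', π y' * (if y' = y then 0 else - a y' (σ z)) := by
        rw [← sum_neg_distrib]
        refine sum_le_sum fun y' _ => ?_
        have := mul_nonneg (hπ0 y') (ha y' (σ z))
        split_ifs <;> linarith
      have := mul_le_mul_of_nonneg_left this (hm z)
      linarith
    rw [← sum_div] at e4
    rw [← sum_div, div_le_div_iff₀ (by positivity) hn0]
    nlinarith
  refine le_trans ?_ (sum_le_sum fun y _ => h3 y)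
  rw [← sum_div, sum_sub_distrib]
  exact div_le_div_of_nonneg_right (by linarith) (by positivity)

theorem star_exp (C S Nn ψ : W → W → ℝ) (σ : W → T) (c : T → T → ℝ) (κ η r : ℝ) (f : W → W → ℝ)
    (Mx π : W → ℝ) (hW : 0 < Fintype.card W) (hψ : Samp ψ η) (hκ0 : 0 ≤ κ) (hr : 0 ≤ r)
    (hκ : ∀ ν : W → ℝ, (∀ y, 0 ≤ ν y) → κ * (∑ y, ν y) ^ 2 ≤ Q C ν ν)
    (hC : ∀ y z, C y z ≤ c (σ y) (σ z) + S y z - Nn y z / 2) (hc : ∀ a b, c a b ≤ 1)
    (hS : ∀ y z, 0 ≤ S y z ∧ S y z ≤ 1) (hSs : ∀ y z, S y z = S z y)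
    (hN : ∀ y z, 0 ≤ Nn y z) (hNs : ∀ y z, Nn y z = Nn z y)
    (hf : ∀ y z, 0 ≤ f y z) (hfN : ∀ y z, f y z * Nn y z = f y z) (hfS : ∀ y z, f y z * S y z = 0)
    (hfψ : ∀ y z, f y z ≤ ψ y z) (hMx : ∀ y, 0 ≤ Mx y) (hπ0 : ∀ y, 0 ≤ π y) (hπ1 : ∀ y, π y ≤ 1)
    (hπr : ∀ y, π y ≤ r / Fintype.card W) (hπM : ∀ y, π y * Mx y = 1 / Fintype.card W)
    (hB : ∀ z, ∑ y, π y * f y z ≤ 1 / 2) :
    (∑ y, ∑ z, f y z) / 256 ≤ ∑ y, ∑ z, c (σ y) (σ z) - κ * (Fintype.card W : ℝ) ^ 2
      + 2 * ∑ y, ∑ z, S y z + Fintype.card W * (∑ y, Mx y) / 2048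
      + (r / 4 + Fintype.card T / 256) * (η * (Fintype.card W : ℝ) ^ 2) := by
  have hdet := star_det C S Nn σ c κ f Mx hW hκ hC (fun y z => (hS y z).1) hN hNs hf hfN hMx
  have hn0 : (0 : ℝ) < Fintype.card W := by exact_mod_cast hW
  have E1 := star_E1 (fun y z => c (σ y) (σ z) - κ) (fun y => by linarith [hc (σ y) (σ y)]) Mx π
    _ hn0 hMx hπ0 hπ1 hπM
  have E2 := star_E2 S ψ f Mx π η r hW hψ hr hS hSs hf hfS hfψ hMx hπ0 hπ1 hπr hπM hB
  have E3 := star_E3 ψ f σ Mx π η hW hψ hf hfψ hπ0 hπM hB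
  have hbw : ∀ y b, 0 ≤ bw π y b := fun y b => by
    unfold bw
    split_ifs
    · exact hπ0 y
    · linarith [hπ1 y]
  have hE := sum_nonneg fun ξ (_ : ξ ∈ univ) => mul_nonneg (pw_nonneg hbw ξ) (hdet ξ)
  have e : ∀ (w a b d : (W → Bool) → ℝ) (t : ℝ), ∑ ξ, w ξ * (a ξ + b ξ - t * d ξ)
      = ∑ ξ, w ξ * a ξ + ∑ ξ, w ξ * b ξ - t * ∑ ξ, w ξ * d ξ := by
    intro w a b d t
    rw [mul_sum, ← sum_add_distrib, ← sum_sub_distrib]
    exact sum_congr rfl fun ξ _ => by ring
  rw [e] at hE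
  have e2 : ∑ y, ∑ z, (c (σ y) (σ z) - κ) = ∑ y, ∑ z, c (σ y) (σ z) - κ * (Fintype.card W : ℝ) ^ 2 := by
    simp only [sum_sub_distrib, sum_const, card_univ, nsmul_eq_mul]
    ring
  rw [e2] at E1
  have E3' := mul_le_mul_of_nonneg_left E3 (by positivity : (0 : ℝ) ≤ 1 / (128 * Fintype.card W))
  set n : ℝ := (Fintype.card W : ℝ)
  have h := hE.trans (sub_le_sub (add_le_add E1 E2) E3')
  have h' := mul_nonneg (sq_nonneg n) h
  have e3 : n ^ 2 * ((∑ y, ∑ z, c (σ y) (σ z) - κ * n ^ 2) / n ^ 2 + (∑ y, Mx y) / (4096 * n)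
      + (2 * (∑ y, ∑ z, S y z) / n ^ 2 + (∑ y, Mx y) / (4096 * n) + r * η / 4)
      - 1 / (128 * n) * ((∑ y, ∑ z, f y z - Fintype.card T * (η * n ^ 2)) / (2 * n)))
      = ∑ y, ∑ z, c (σ y) (σ z) - κ * n ^ 2 + 2 * ∑ y, ∑ z, S y z + n * (∑ y, Mx y) / 2048
        + (r / 4 + Fintype.card T / 256) * (η * n ^ 2) - (∑ y, ∑ z, f y z) / 256 := by
    field_simp
    ring
  rw [e3] at h'
  linarith

end Star

open Classical in
theorem key_cost (ε : ℝ) (hε : 0 < ε) : ∃ η : ℝ, 0 < η ∧ η ≤ ε ∧ ∃ n0 : ℕ,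
    ∀ (W : Type) [Fintype W] (ψ : W → W → ℝ), n0 ≤ Fintype.card W → Samp ψ η →
      ∀ (C : W → W → ℝ) (κ : ℝ), (∀ y z, C y z = C z y) →
      (∀ y z, C y z = 0 ∨ C y z = 1 / 2 ∨ C y z = 1) →
      (∀ ν : W → ℝ, (∀ y, 0 ≤ ν y) → κ * (∑ y, ν y) ^ 2 ≤ Q C ν ν) →
      (κ - ε) * (Fintype.card W : ℝ) ^ 2
        ≤ (1 - 1 / 4096) * ∑ y, ∑ z, C y z + 1 / 4096 * ∑ y, ∑ z, ψ y z * C y z := by
  obtain ⟨R, hR⟩ := model (ε / 2) (by positivity)
  obtain ⟨r, hr⟩ := exists_nat_gt (2 / ε)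
  have hr0 : (0 : ℝ) < r := lt_trans (by positivity) hr
  have hR0 : (0 : ℝ) ≤ R := Nat.cast_nonneg _
  refine ⟨ε / 2 / (r + R + 1), by positivity, ?_, r, ?_⟩
  · rw [div_le_iff₀ (by positivity)]
    nlinarith
  intro W _ ψ hn hψ C κ hsymm hval hκ
  set η := ε / 2 / (r + R + 1) with hη
  have hη0 : 0 < η := by positivity
  have hη1 : (r + R + 1) * η = ε / 2 := by rw [hη]; field_simp
  have hW : 0 < Fintype.card W := lt_of_lt_of_le (by exact_mod_cast hr0) hn
  have hC0 : ∀ y z, 0 ≤ C y z := fun y z => by rcases hval y z with h | h | h <;> linarith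
  have hCA : 0 ≤ ∑ y, ∑ z, C y z := sum_nonneg fun y _ => sum_nonneg fun z _ => hC0 y z
  have hCB : 0 ≤ ∑ y, ∑ z, ψ y z * C y z :=
    sum_nonneg fun y _ => sum_nonneg fun z _ => mul_nonneg (hψ.nonneg y z) (hC0 y z)
  rcases le_total κ 0 with hκ0 | hκ0
  · have : (κ - ε) * (Fintype.card W : ℝ) ^ 2 ≤ 0 :=
      mul_nonpos_of_nonpos_of_nonneg (by linarith) (sq_nonneg _)
    linarith
  obtain ⟨T, i1, i2, σ, c, hT, hcs, hcv, hm1, hm2⟩ := hR W C κ hW hsymm hval hκ
  have hcells := hψ.cells σ (fun y t => - c (σ y) t) (fun y t => by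
    rcases hcv (σ y) t with h | h | h <;> rw [h] <;> norm_num [abs_of_nonneg])
  have hΓ := hκ (fun _ => 1) (fun _ => zero_le_one)
  simp only [Q, sum_const, card_univ, nsmul_eq_mul, mul_one, one_mul] at hΓ
  let S : W → W → ℝ := fun y z => max (C y z - c (σ y) (σ z)) 0
  let Nn : W → W → ℝ := fun y z => if C y z < c (σ y) (σ z) then 1 else 0
  have hN0 : ∀ y z, 0 ≤ Nn y z := fun y z => by simp only [Nn]; split_ifs <;> norm_num
  have hNs : ∀ y z, Nn y z = Nn z y := fun y z => by simp only [Nn, hsymm y z, hcs (σ y) (σ z)]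
  let good : W → W → ℝ := fun y z => ψ y z * Nn y z
  have hg0 : ∀ y z, 0 ≤ good y z := fun y z => mul_nonneg (hψ.nonneg y z) (hN0 y z)
  have hgs : ∀ y z, good y z = good z y := fun y z => by simp only [good, hψ.symm y z, hNs y z]
  set n : ℝ := (Fintype.card W : ℝ) with hnd
  have hn0 : 0 < n := by rw [hnd]; exact_mod_cast hW
  have hrn : (r : ℝ) ≤ n := by rw [hnd]; exact_mod_cast hn
  let g : W → ℝ := fun y => (∑ z, good y z) / n
  have hg : ∀ y, 0 ≤ g y := fun y => div_nonneg (sum_nonneg fun z _ => hg0 y z) hn0.le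
  let Mx : W → ℝ := fun y => max (1 / r) (2 * g y)
  have hMx : ∀ y, 0 < Mx y := fun y => lt_of_lt_of_le (by positivity) (le_max_left _ _)
  let f : W → W → ℝ := fun y z => if Mx z ≤ Mx y then good y z else 0
  have hf0 : ∀ y z, 0 ≤ f y z := fun y z => by
    simp only [f]; split_ifs; exacts [hg0 y z, le_rfl]
  have hfg : ∀ y z, f y z ≤ good y z := fun y z => by
    simp only [f]; split_ifs; exacts [le_rfl, hg0 y z]
  let π : W → ℝ := fun y => 1 / (n * Mx y)
  have hπr : ∀ y, π y ≤ r / n := fun y => by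
    have h1 : 1 / r ≤ Mx y := le_max_left _ _
    have h2 := hMx y
    rw [div_le_iff₀ hr0] at h1
    simp only [π]
    rw [div_le_div_iff₀ (by positivity) hn0]
    nlinarith
  have hstar := star_exp C S Nn ψ σ c κ η r f Mx π hW hψ hκ0 hr0.le hκ
    (fun y z => by
      simp only [S, Nn]
      split_ifs with h
      · have := le_max_right (C y z - c (σ y) (σ z)) 0
        rcases hval y z with h1 | h1 | h1 <;> rcases hcv (σ y) (σ z) with h2 | h2 | h2 <;> linarith
      · linarith [le_max_left (C y z - c (σ y) (σ z)) 0])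
    (fun a b => by rcases hcv a b with h | h | h <;> linarith)
    (fun y z => ⟨le_max_right _ _, max_le (by
      rcases hval y z with h1 | h1 | h1 <;> rcases hcv (σ y) (σ z) with h2 | h2 | h2 <;> linarith)
      zero_le_one⟩)
    (fun y z => by simp only [S, hsymm y z, hcs (σ y) (σ z)]) hN0 hNs hf0
    (fun y z => by simp only [f, good, Nn]; split_ifs <;> simp)
    (fun y z => by
      simp only [f, good, Nn, S]
      split_ifs with h1 h2
      · rw [max_eq_right (by linarith), mul_zero]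
      · simp
      · simp)
    (fun y z => (hfg y z).trans (mul_le_of_le_one_right (hψ.nonneg y z) (by
      simp only [Nn]; split_ifs <;> norm_num)))
    (fun y => (hMx y).le) (fun y => by have := hMx y; positivity)
    (fun y => (hπr y).trans (div_le_one_of_le₀ hrn hn0.le)) hπr
    (fun y => by have := hMx y; simp only [π]; field_simp; rfl)
    (fun z => by
      have h1 : ∑ y, π y * f y z ≤ ∑ y, good z y / (n * Mx z) := by
        refine sum_le_sum fun y _ => ?_
        have h2 := hMx z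
        have h3 := hg0 z y
        simp only [f, π]
        split_ifs with h
        · rw [hgs y z, one_div_mul_eq_div]
          gcongr
        · rw [mul_zero]
          positivity
      refine h1.trans ?_
      have h2 := hMx z
      have h3 : 2 * g z ≤ Mx z := le_max_right _ _
      rw [← sum_div, div_le_iff₀ (by positivity)]
      have h4 : ∑ y, good z y = g z * n := by simp only [g]; field_simp
      rw [h4]
      nlinarith)
  rw [← hnd] at hstar
  set nb := ∑ y, ∑ z, good y z with hnb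
  have h1 : nb ≤ 2 * ∑ y, ∑ z, f y z := by
    have e : ∑ y, ∑ z, f y z = ∑ y, ∑ z, f z y := sum_comm
    rw [two_mul]
    nth_rewrite 2 [e]
    simp only [hnb, ← sum_add_distrib]
    refine sum_le_sum fun y _ => sum_le_sum fun z _ => ?_
    rcases le_total (Mx z) (Mx y) with h | h
    · have : f y z = good y z := by simp only [f, h, if_true]
      linarith [hf0 z y]
    · have : f z y = good y z := by simp only [f, h, if_true, hgs z y]
      linarith [hf0 y z]
  have h2 : n * ∑ y, Mx y ≤ ε / 2 * n ^ 2 + 2 * nb := by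
    have e1 : ∑ y, Mx y ≤ ∑ y, (ε / 2 + 2 * g y) := by
      refine sum_le_sum fun y _ => max_le ?_ ?_
      · have : 1 / (r : ℝ) ≤ ε / 2 := by
          rw [div_le_iff₀ hr0]
          rw [div_lt_iff₀ hε] at hr
          linarith
        linarith [hg y]
      · linarith
    have e2 : n * ∑ y, (ε / 2 + 2 * g y) = ε / 2 * n ^ 2 + 2 * nb := by
      simp only [sum_add_distrib, sum_const, card_univ, nsmul_eq_mul, g, ← mul_sum, ← sum_div, hnb]
      rw [← hnd]
      field_simp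
    rw [← e2]
    exact mul_le_mul_of_nonneg_left e1 hn0.le
  have h3 : ∑ y, ∑ z, c (σ y) (σ z) + ∑ y, ∑ z, S y z ≤ ∑ y, ∑ z, C y z + ε / 2 * n ^ 2 := by
    refine le_trans ?_ (add_le_add_right hm2 _)
    simp only [← sum_add_distrib]
    refine sum_le_sum fun y _ => sum_le_sum fun z _ => ?_
    simp only [S]
    split_ifs with h
    · rw [max_eq_right (by linarith)]
      rcases hcv (σ y) (σ z) with h2 | h2 | h2 <;> linarith [hC0 y z]
    · rw [max_eq_left (by linarith)]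
      linarith
  have h4 : ∑ y, ∑ z, c (σ y) (σ z) - ∑ y, ∑ z, (ψ y z - 1) * - c (σ y) (σ z) - nb
      ≤ ∑ y, ∑ z, ψ y z * C y z := by
    simp only [hnb, ← sum_sub_distrib]
    refine sum_le_sum fun y _ => sum_le_sum fun z _ => ?_
    have := hψ.nonneg y z
    simp only [good, Nn]
    split_ifs with h
    · have : ψ y z * (c (σ y) (σ z) - 1) ≤ ψ y z * C y z :=
        mul_le_mul_of_nonneg_left
          (by rcases hcv (σ y) (σ z) with h2 | h2 | h2 <;> linarith [hC0 y z]) this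
      linarith
    · have := mul_le_mul_of_nonneg_left (not_lt.mp h) this
      linarith
  have hT' : (Fintype.card T : ℝ) ≤ R := by exact_mod_cast hT
  have hT0 : (0 : ℝ) ≤ Fintype.card T := Nat.cast_nonneg _
  have hηn : 0 ≤ η * n ^ 2 := by positivity
  have h5 : Fintype.card T * (η * n ^ 2) ≤ ε / 2 * n ^ 2 := by
    rw [← hη1]
    nlinarith
  have h6 : (r / 4 + Fintype.card T / 256) * (η * n ^ 2) ≤ ε / 2 * n ^ 2 := by
    rw [← hη1]
    nlinarith
  have hn2 : 0 ≤ ε * n ^ 2 := by positivity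
  have hΓ' : κ * n ^ 2 ≤ ∑ y, ∑ z, C y z := hΓ
  nlinarith

open Classical in
/-- The weighted density of a digraph is at most its Lagrangian, up to a small error. -/
theorem key (ε : ℝ) (hε : 0 < ε) : ∃ η : ℝ, 0 < η ∧ η ≤ ε ∧ ∃ n0 : ℕ,
    ∀ (W : Type) [Fintype W] (ψ : W → W → ℝ), n0 ≤ Fintype.card W → Samp ψ η →
      ∀ (D : W → W → Prop) (ρ : ℝ),
      (∀ ν : W → ℝ, (∀ y, 0 ≤ ν y) →
        ∑ y, ∑ z, ν y * ν z * (if D y z then 1 else 0) ≤ ρ * (∑ y, ν y) ^ 2) →
      ∑ y, ∑ z, (if D y z then (1 - 1 / 4096) + 1 / 4096 * ψ y z else 0)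
        ≤ (ρ + 2 * ε) * (Fintype.card W : ℝ) ^ 2 := by
  obtain ⟨η, hη, hηε, n0, h⟩ := key_cost ε hε
  refine ⟨η, hη, hηε, n0, fun W _ ψ hn hψ D ρ hρ => ?_⟩
  let d : W → W → ℝ := fun y z => if D y z then 1 else 0
  have hsw : ∀ k : W → W → ℝ, (∀ y z, k y z = k z y) →
      ∑ y, ∑ z, k y z * (1 - (d y z + d z y) / 2) = ∑ y, ∑ z, k y z - ∑ y, ∑ z, k y z * d y z := by
    intro k hk
    have e : ∑ y, ∑ z, k y z * d z y = ∑ y, ∑ z, k y z * d y z := by
      rw [sum_comm]
      exact sum_congr rfl fun y _ => sum_congr rfl fun z _ => by rw [hk]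
    have : ∑ y, ∑ z, k y z * (1 - (d y z + d z y) / 2)
        = ∑ y, ∑ z, k y z - (∑ y, ∑ z, k y z * d y z + ∑ y, ∑ z, k y z * d z y) / 2 := by
      simp only [sum_div, ← sum_add_distrib, ← sum_sub_distrib]
      exact sum_congr rfl fun y _ => sum_congr rfl fun z _ => by ring
    rw [this, e]
    ring
  have h1 := h W ψ hn hψ (fun y z => 1 - (d y z + d z y) / 2) (1 - ρ) (fun y z => by ring)
    (fun y z => by simp only [d]; split_ifs <;> norm_num)
    (fun ν hν => by
      have e1 := hsw (fun y z => ν y * ν z) (fun y z => by ring)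
      have e2 : ∑ y, ∑ z, ν y * ν z = (∑ y, ν y) ^ 2 := by rw [sq, sum_mul_sum]
      have e3 := hρ ν hν
      simp only [Q]
      rw [e1, e2]
      simp only [d]
      linarith)
  have h2 := hsw (fun _ _ => 1) (fun _ _ => rfl)
  simp only [one_mul, sum_const, card_univ, nsmul_eq_mul, mul_one] at h2
  rw [h2, hsw ψ hψ.symm] at h1
  have h3 : ∑ y, ∑ z, ψ y z ≤ (1 + η) * (Fintype.card W : ℝ) ^ 2 := by
    have e1 := hψ.one (fun _ => 1) (fun _ => ⟨zero_le_one, le_rfl⟩)
    have e2 := (sum_le_sum fun y (_ : y ∈ univ) =>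
      le_abs_self (∑ z, ψ y z * 1 - ∑ _z : W, (1 : ℝ))).trans e1
    simp only [mul_one, sum_sub_distrib, sum_const, card_univ, nsmul_eq_mul] at e2
    nlinarith
  have h4 : ∑ y, ∑ z, (if D y z then (1 - 1 / 4096) + 1 / 4096 * ψ y z else 0)
      = (1 - 1 / 4096) * ∑ y, ∑ z, d y z + 1 / 4096 * ∑ y, ∑ z, ψ y z * d y z := by
    simp only [mul_sum, ← sum_add_distrib, d]
    exact sum_congr rfl fun y _ => sum_congr rfl fun z _ => by split_ifs <;> ring
  have h5 : η * (Fintype.card W : ℝ) ^ 2 ≤ ε * (Fintype.card W : ℝ) ^ 2 := by gcongr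
  have h6 : 0 ≤ ε * (Fintype.card W : ℝ) ^ 2 := by positivity
  rw [h4]
  nlinarith

end Pool.Agent.Lib.MP_37b92f_co
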