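import Pool.Agent.Lib.MP_37b92f_co.Basic

set_option autoImplicit false

namespace Pool.Agent.Lib.MP_37b92f_co

open Finset

namespace Lift

open Classical in
theorem card_comp {A B : Type*} [AddGroup A] [AddGroup B] [Fintype A] [Fintype B] (f : A →+ B)
    (T : B → Prop) : (univ.filter fun a => T (f a)).card =
      (univ.filter fun a => f a = 0).card * (univ.filter fun b => b ∈ Set.range f ∧ T b).card := by
  rw [card_eq_sum_card_fiberwise (f := f) (t := univ.filter fun b => b ∈ Set.range f ∧ T b)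
    (fun a ha => by simpa using ha), mul_comm, ← smul_eq_mul, ← sum_const]
  refine sum_congr rfl fun b hb => ?_
  obtain ⟨hb1, hb2⟩ := (mem_filter.1 hb).2
  rw [← AddMonoidHom.card_fiber_eq_of_mem_range f hb1 ⟨0, map_zero f⟩]
  congr 1
  ext a
  simp only [mem_filter, mem_univ, true_and, and_iff_right_iff_imp]
  rintro rfl
  exact hb2

theorem exists_equiv (X F : Type) [Fintype X] [LinearOrder X] [Fintype F] :
    ∃ (n : ℕ) (ψ : Fin n ≃ X × F), Monotone fun u => (ψ u).1 :=
  ⟨_, (monoEquivOfFin (X ×ₗ Fin (Fintype.card F)) rfl).toEquiv.trans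
    (ofLex.trans ((Equiv.refl X).prodCongr (Fintype.equivFin F).symm)),
    fun _ _ h => Prod.Lex.monotone_fst (β := Fin (Fintype.card F)) _ _
      ((monoEquivOfFin (X ×ₗ Fin (Fintype.card F)) rfl).monotone h)⟩

open Classical in
theorem ncard_edgeSet {n : ℕ} (G : SimpleGraph (Fin n)) : G.edgeSet.ncard =
    (univ.filter fun uv : Fin n × Fin n => uv.1 < uv.2 ∧ G.Adj uv.1 uv.2).card := by
  rw [← Set.ncard_coe_finset]
  symm
  refine Set.ncard_congr (fun uv _ => s(uv.1, uv.2)) (fun uv h => ?_) (fun uv uv' h h' e => ?_)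
    fun e he => ?_
  · exact (mem_filter.1 h).2.2
  · have h1 := (mem_filter.1 h).2.1
    have h2 := (mem_filter.1 h').2.1
    rcases Sym2.eq_iff.1 e with ⟨e1, e2⟩ | ⟨e1, e2⟩
    · exact Prod.ext e1 e2
    · rw [e1, e2] at h1
      exact absurd h1 h2.not_gt
  · induction e using Sym2.ind with
    | _ u v =>
      have h : G.Adj u v := he
      rcases lt_or_gt_of_ne h.ne with h1 | h1
      · exact ⟨(u, v), mem_filter.2 ⟨mem_univ _, h1, h⟩, rfl⟩
      · exact ⟨(v, u), mem_filter.2 ⟨mem_univ _, h1, h.symm⟩, Sym2.eq_swap⟩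

variable {X : Type} [Fintype X] [LinearOrder X] (k : X × X → ℕ)

/-- the fibre -/
abbrev Fb : Type := ∀ e : X × X, ZMod (k e + 1)

/-- the random section -/
def sec (x : X) : (X → Fb k) →+ Fb k where
  toFun b e := if x = e.1 ∧ e.1 < e.2 then b e.2 e else b x e
  map_zero' := by funext e; simp
  map_add' b c := by funext e; simp only [Pi.add_apply]; split_ifs <;> rfl

omit [Fintype X] in
theorem range_sec {x y : X} (h : x < y) (p : Fb k × Fb k) :
    p ∈ Set.range ((sec k x).prod (sec k y)) ↔ p.1 (x, y) = p.2 (x, y) := by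
  constructor
  · rintro ⟨b, rfl⟩
    simp [sec, h, h.ne']
  · intro hp
    refine ⟨fun z e => if z = x then p.1 e else if z = y then p.2 e else
      if e.1 = x then p.1 e else p.2 e, Prod.ext (funext fun e => ?_) (funext fun e => ?_)⟩
    · obtain ⟨u, v⟩ := e
      simp only [AddMonoidHom.prod_apply, sec, AddMonoidHom.coe_mk, ZeroHom.coe_mk, if_true]
      split_ifs with h1 h2 h3 h4
      · rfl
      · obtain ⟨rfl, -⟩ := h1
        subst h3
        exact hp.symm
      · rfl
      · exact absurd h1.1.symm h4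
      · rfl
    · obtain ⟨u, v⟩ := e
      simp only [AddMonoidHom.prod_apply, sec, AddMonoidHom.coe_mk, ZeroHom.coe_mk, if_true,
        if_neg h.ne']
      split_ifs with h1 h2 h3 h4
      · obtain ⟨rfl, h5⟩ := h1
        subst h2
        exact absurd h h5.not_gt
      · rfl
      · exact absurd (h1.1.trans h4) h.ne'
      · rfl
      · rfl

open Classical in
theorem card_Ed (e : X × X) : (k e + 1) * (univ.filter fun p : Fb k × Fb k => p.1 e = p.2 e).card =
    Fintype.card (Fb k × Fb k) := by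
  let g : Fb k × Fb k →+ ZMod (k e + 1) :=
    { toFun := fun p => p.1 e - p.2 e
      map_zero' := by simp
      map_add' := fun p q => by simp only [Prod.fst_add, Prod.snd_add, Pi.add_apply]; abel }
  have h := card_comp g fun _ => True
  have h1 : ∀ b, b ∈ Set.range g := fun b => ⟨(Pi.single e b, 0), by simp [g]⟩
  simp only [h1, and_self, filter_true, card_univ, ZMod.card] at h
  rw [h, mul_comm]
  congr 2
  ext p
  simp [g, sub_eq_zero]

open Classical in
theorem count {x y : X} (h : x < y) (T : Fb k × Fb k → Prop) :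
    ((univ.filter fun p : Fb k × Fb k => p.1 (x, y) = p.2 (x, y) ∧ T p).card : ℝ) =
      Fintype.card (Fb k × Fb k) / Fintype.card (X → Fb k) / (k (x, y) + 1) *
        ∑ b : X → Fb k, if T (sec k x b, sec k y b) then 1 else 0 := by
  have h1 := card_comp ((sec k x).prod (sec k y)) T
  have h2 := card_comp ((sec k x).prod (sec k y)) fun _ => True
  simp only [range_sec k h, and_true, filter_true, card_univ, AddMonoidHom.prod_apply] at h1 h2
  have h3 := card_Ed k (x, y)
  have h4 : (0 : ℝ) < Fintype.card (X → Fb k) := by exact_mod_cast Fintype.card_pos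
  rw [sum_boole, ← h3]
  have h1' := congrArg (Nat.cast : ℕ → ℝ) h1
  have h2' := congrArg (Nat.cast : ℕ → ℝ) h2
  push_cast at h1' h2' ⊢
  rw [h1']
  field_simp
  rw [h2']
  ring

end Lift

open Lift in
open Classical in
theorem exists_lift (X : Type) [Fintype X] [LinearOrder X] (a : X → X → ℝ)
    (ha : ∀ x y, 0 ≤ a x y) (hlt : ∀ x y, a x y ≠ 0 → x < y) (hZ : 0 < ∑ x, ∑ y, a x y)
    (ξ : ℝ) (hξ : 0 < ξ) :
    ∃ (n : ℕ) (G : SimpleGraph (Fin n)) (π : Fin n → X), Monotone π ∧ 1 ≤ G.edgeSet.ncard ∧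
      (∀ u v, G.Adj u v → u < v → a (π u) (π v) ≠ 0) ∧
      ∀ S : Fin n → Fin n → Prop, ∃ σ : X → Fin n, (∀ x, π (σ x) = x) ∧
        ((univ.filter fun uv : Fin n × Fin n =>
            uv.1 < uv.2 ∧ G.Adj uv.1 uv.2 ∧ S uv.1 uv.2).card : ℝ) / G.edgeSet.ncard
          ≤ (∑ x, ∑ y, if S (σ x) (σ y) then a x y else 0) / (∑ x, ∑ y, a x y) + ξ := by
  obtain ⟨Z, hZe⟩ : ∃ Z, Z = ∑ x, ∑ y, a x y := ⟨_, rfl⟩
  rw [← hZe] at hZ ⊢
  have haZ : ∀ x y, a x y ≤ Z := fun x y => hZe ▸
    (single_le_sum (fun y _ => ha x y) (mem_univ y)).trans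
      (single_le_sum (f := fun x => ∑ y, a x y) (fun x _ => sum_nonneg fun y _ => ha x y)
        (mem_univ x))
  obtain ⟨Lc, hLc⟩ : ∃ Lc, Lc = Z / ξ := ⟨_, rfl⟩
  have hL : 0 < Lc := by rw [hLc]; positivity
  have hLZ : ξ * Lc = Z := by rw [hLc]; field_simp
  let k : X × X → ℕ := fun e => ⌊Lc / a e.1 e.2⌋₊
  let b : X → X → ℝ := fun x y => if a x y = 0 then 0 else Lc / (k (x, y) + 1)
  have hb : ∀ x y, 0 ≤ b x y ∧ b x y ≤ a x y ∧ a x y ≤ (1 + ξ) * b x y := by
    intro x y
    by_cases h : a x y = 0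
    · simp [b, h]
    · have h0 : 0 < a x y := (ha x y).lt_of_ne' h
      have h1 : Lc / a x y < k (x, y) + 1 := Nat.lt_floor_add_one _
      have h2 : (k (x, y) : ℝ) ≤ Lc / a x y := Nat.floor_le (by positivity)
      rw [div_lt_iff₀ h0] at h1
      rw [le_div_iff₀ h0] at h2
      simp only [b, if_neg h]
      refine ⟨by positivity, ?_, ?_⟩
      · rw [div_le_iff₀ (by positivity)]; linarith
      · rw [← mul_div_assoc, le_div_iff₀ (by positivity)]; linarith [haZ x y]
  obtain ⟨n, ψ, hψ⟩ := exists_equiv X (Fb k)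
  let E' : X × Fb k → X × Fb k → Prop := fun s t => a s.1 t.1 ≠ 0 ∧ s.2 (s.1, t.1) = t.2 (s.1, t.1)
  let E : Fin n → Fin n → Prop := fun u v => E' (ψ u) (ψ v)
  have hE : ∀ u v, E u v → u < v := fun u v h => hψ.reflect_lt (hlt _ _ h.1)
  have hG : ∀ u v, (u < v ∧ (SimpleGraph.fromRel E).Adj u v) ↔ E u v := fun u v => by
    rw [SimpleGraph.fromRel_adj]
    exact ⟨fun h => h.2.2.resolve_right fun h' => (hE _ _ h').not_gt h.1,
      fun h => ⟨hE _ _ h, (hE _ _ h).ne, Or.inl h⟩⟩
  obtain ⟨c, hc⟩ : ∃ c : ℝ, c = Fintype.card (Fb k × Fb k) / Fintype.card (X → Fb k) / Lc :=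
    ⟨_, rfl⟩
  have hΩ : (0 : ℝ) < Fintype.card (X → Fb k) := by exact_mod_cast Fintype.card_pos
  have hc0 : 0 < c := by
    have : (0 : ℝ) < Fintype.card (Fb k × Fb k) := by exact_mod_cast Fintype.card_pos
    rw [hc]; positivity
  let σ : (X → Fb k) → X → Fin n := fun ω x => ψ.symm (x, sec k x ω)
  have key : ∀ S : Fin n → Fin n → Prop,
      ((univ.filter fun uv : Fin n × Fin n => E uv.1 uv.2 ∧ S uv.1 uv.2).card : ℝ) =
        c * ∑ ω, ∑ x, ∑ y, if S (σ ω x) (σ ω y) then b x y else 0 := by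
    intro S
    have h1 : ((univ.filter fun uv : Fin n × Fin n => E uv.1 uv.2 ∧ S uv.1 uv.2).card : ℝ) =
        ∑ x, ∑ y, ∑ p : Fb k × Fb k, if a x y ≠ 0 ∧ p.1 (x, y) = p.2 (x, y) ∧
          S (ψ.symm (x, p.1)) (ψ.symm (y, p.2)) then 1 else 0 := by
      rw [← sum_boole, ← (ψ.symm.prodCongr ψ.symm).sum_comp, ← Fintype.sum_prod_type',
        ← Fintype.sum_prod_type', ← (Equiv.prodProdProdComm X X (Fb k) (Fb k)).sum_comp]
      refine sum_congr rfl fun q _ => ?_
      simp only [E, Equiv.prodCongr_apply, Prod.map_fst, Prod.map_snd, Equiv.apply_symm_apply]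
      simp [E', and_assoc]
    rw [h1, sum_comm (s := (univ : Finset (X → Fb k))), mul_sum]
    refine sum_congr rfl fun x _ => ?_
    rw [sum_comm (s := (univ : Finset (X → Fb k))), mul_sum]
    refine sum_congr rfl fun y _ => ?_
    by_cases h : a x y = 0
    · simp [b, h]
    · have h2 := count k (hlt x y h) fun p => S (ψ.symm (x, p.1)) (ψ.symm (y, p.2))
      simp only [ne_eq, h, not_false_eq_true, true_and, sum_boole]
      rw [h2, mul_sum, mul_sum]
      refine sum_congr rfl fun ω _ => ?_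
      simp only [σ, b, if_neg h, hc]
      split_ifs
      · field_simp
      · simp
  have hB : Z ≤ (1 + ξ) * ∑ x, ∑ y, b x y := by
    rw [hZe, mul_sum]
    refine sum_le_sum fun x _ => ?_
    rw [mul_sum]
    exact sum_le_sum fun y _ => (hb x y).2.2
  have hB0 : 0 < ∑ x, ∑ y, b x y := pos_of_mul_pos_right (hZ.trans_le hB) (by positivity)
  have he : ((SimpleGraph.fromRel E).edgeSet.ncard : ℝ) =
      c * (Fintype.card (X → Fb k) * ∑ x, ∑ y, b x y) := by
    have h1 := key fun _ _ => True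
    simp only [and_true, if_true, sum_const, card_univ, nsmul_eq_mul] at h1
    rw [ncard_edgeSet, ← h1]
    simp only [hG]
  refine ⟨n, SimpleGraph.fromRel E, fun u => (ψ u).1, hψ, ?_,
    fun u v h h' => ((hG u v).1 ⟨h', h⟩).1, fun S => ?_⟩
  · have : (0 : ℝ) < (SimpleGraph.fromRel E).edgeSet.ncard := by rw [he]; positivity
    exact_mod_cast this
  · obtain ⟨ω, -, hω⟩ := exists_max_image univ
      (fun ω => ∑ x, ∑ y, if S (σ ω x) (σ ω y) then b x y else 0) univ_nonempty
    refine ⟨σ ω, fun x => by simp [σ], ?_⟩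
    simp only [← and_assoc, hG]
    rw [key, he, mul_div_mul_left _ _ hc0.ne']
    have h1 := sum_le_card_nsmul _ _ _ hω
    rw [card_univ, nsmul_eq_mul] at h1
    have h2 : (∑ x, ∑ y, if S (σ ω x) (σ ω y) then b x y else 0) ≤
        ∑ x, ∑ y, if S (σ ω x) (σ ω y) then a x y else 0 :=
      sum_le_sum fun x _ => sum_le_sum fun y _ => by
        split_ifs
        exacts [(hb x y).2.1, le_rfl]
    have h3 : (∑ x, ∑ y, if S (σ ω x) (σ ω y) then a x y else 0) ≤ Z :=
      hZe ▸ sum_le_sum fun x _ => sum_le_sum fun y _ => by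
        split_ifs
        exacts [le_rfl, ha x y]
    have h4 : 0 ≤ ∑ x, ∑ y, if S (σ ω x) (σ ω y) then a x y else 0 :=
      sum_nonneg fun x _ => sum_nonneg fun y _ => by
        split_ifs
        exacts [ha x y, le_rfl]
    obtain ⟨A, hA⟩ : ∃ A, A = ∑ x, ∑ y, if S (σ ω x) (σ ω y) then a x y else 0 := ⟨_, rfl⟩
    rw [← hA] at h2 h3 h4 ⊢
    have h5 : A / Z ≤ 1 := (div_le_one hZ).2 h3
    have h6 : A ≤ (A / Z + ξ) * ∑ x, ∑ y, b x y := by
      have h7 : A = A / Z * Z := by field_simp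
      have h8 := mul_le_mul_of_nonneg_left hB (div_nonneg h4 hZ.le)
      have h9 := mul_le_mul_of_nonneg_right h5 (mul_pos hξ hB0).le
      nlinarith
    rw [div_le_iff₀ (by positivity)]
    have h7 := mul_le_mul_of_nonneg_left (h2.trans h6) hΩ.le
    linarith

end Pool.Agent.Lib.MP_37b92f_co
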