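import Pool.Agent.Lib.MP_37b92f_co.Defs
import Pool.Agent.Lib.MP_37b92f_co.Basic
import Pool.Agent.Lib.MP_37b92f_co.Lift

set_option autoImplicit false

namespace Pool.Agent.Lib.MP_37b92f_co

open Finset Filter Topology

namespace LowerAux

theorem bdd (F G : OGraph) (hG : 1 ≤ G.e) :
    BddAbove {x : ℝ | ∃ G' : G.G.Subgraph, Free F G G' ∧ x = (G'.edgeSet.ncard : ℝ) / G.e} := by
  refine ⟨1, ?_⟩
  rintro x ⟨G', -, rfl⟩
  have h : G'.edgeSet.ncard ≤ G.e := Set.ncard_le_ncard G'.edgeSet_subset (Set.toFinite _)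
  have h1 : (0 : ℝ) < G.e := by exact_mod_cast hG
  rw [div_le_one h1]
  exact_mod_cast h

theorem rhoIn_nonneg (F G : OGraph) : 0 ≤ rhoIn F G := by
  apply Real.sSup_nonneg
  rintro x ⟨G', -, rfl⟩
  positivity

theorem rhoIn_le_one (F G : OGraph) (hG : 1 ≤ G.e) : rhoIn F G ≤ 1 := by
  apply Real.sSup_le _ zero_le_one
  rintro x ⟨G', -, rfl⟩
  have h : G'.edgeSet.ncard ≤ G.e := Set.ncard_le_ncard G'.edgeSet_subset (Set.toFinite _)
  have h1 : (0 : ℝ) < G.e := by exact_mod_cast hG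
  rw [div_le_one h1]
  exact_mod_cast h

theorem K_two : 1 ≤ (K 2).e := by
  have : s((0 : Fin 2), 1) ∈ (⊤ : SimpleGraph (Fin 2)).edgeSet := by simp
  exact (Set.ncard_pos (Set.toFinite _)).2 ⟨_, this⟩

open Classical in
theorem e_eq (G : OGraph) : (G.e : ℝ) = ∑ uv : Fin G.n × Fin G.n,
    if uv.1 < uv.2 ∧ G.G.Adj uv.1 uv.2 then (1 : ℝ) else 0 := by
  rw [sum_boole, OGraph.e, Lift.ncard_edgeSet]

open Classical in
theorem lagr_le_rhoIn (F G : OGraph) (hG : 1 ≤ G.e) (V : Type) [Fintype V] (D : V → V → Prop)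
    (hD : HomFree (fun u v : Fin F.n => u < v ∧ F.G.Adj u v) D) (m : V → ℝ) (hm : ∀ y, 0 ≤ m y)
    (h1 : ∑ y, m y = 1) :
    ∑ y, ∑ z, m y * m z * (if D y z then 1 else 0) ≤ rhoIn F G := by
  have he : (0 : ℝ) < G.e := by exact_mod_cast hG
  have h1' : ∀ _ : Fin G.n, ∑ y, m y = 1 := fun _ => h1
  obtain ⟨x, -, hx⟩ := exists_ge_of_avg (pw fun _ : Fin G.n => m)
    (fun x => ∑ uv : Fin G.n × Fin G.n,
      if uv.1 < uv.2 ∧ G.G.Adj uv.1 uv.2 then (if D (x uv.1) (x uv.2) then (1 : ℝ) else 0) else 0)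
    (pw_nonneg fun _ => hm) (pw_sum h1')
  have e1 : ∑ x : Fin G.n → V, pw (fun _ : Fin G.n => m) x * ∑ uv : Fin G.n × Fin G.n,
      (if uv.1 < uv.2 ∧ G.G.Adj uv.1 uv.2 then (if D (x uv.1) (x uv.2) then (1 : ℝ) else 0) else 0)
      = G.e * ∑ y, ∑ z, m y * m z * (if D y z then 1 else 0) := by
    simp only [mul_sum]
    rw [sum_comm]
    simp only [← mul_sum]
    rw [e_eq, sum_mul]
    refine sum_congr rfl fun uv _ => ?_
    split_ifs with h
    · rw [one_mul]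
      exact pw_two h1' h.1.ne (fun a b => if D a b then (1 : ℝ) else 0)
    · simp
  rw [e1] at hx
  let G' : G.G.Subgraph :=
    { verts := Set.univ
      Adj := fun u v => G.G.Adj u v ∧ ((u < v ∧ D (x u) (x v)) ∨ (v < u ∧ D (x v) (x u)))
      adj_sub := fun h => h.1
      edge_vert := fun _ => Set.mem_univ _
      symm := ⟨fun _ _ h => ⟨h.1.symm, h.2.symm⟩⟩ }
  have hfree : Free F G G' := by
    rintro ⟨φ, h2, -, h3⟩
    refine hD ⟨fun u => x (φ u), fun u v huv => ?_⟩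
    rcases (h3 u v huv.2).2 with h | h
    · exact h.2
    · exact absurd (h2 huv.1) (not_lt.2 h.1.le)
  have e2 : (G'.edgeSet.ncard : ℝ) = ∑ uv : Fin G.n × Fin G.n,
      (if uv.1 < uv.2 ∧ G.G.Adj uv.1 uv.2 then
        (if D (x uv.1) (x uv.2) then (1 : ℝ) else 0) else 0) := by
    have e3 : G'.edgeSet = G'.spanningCoe.edgeSet := by
      ext e
      induction e using Sym2.ind with
      | _ a b => simp
    rw [e3, Lift.ncard_edgeSet, ← sum_boole]
    refine sum_congr rfl fun uv _ => ?_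
    by_cases h : uv.1 < uv.2
    · have h' : ¬ uv.2 < uv.1 := not_lt.2 h.le
      by_cases h4 : G.G.Adj uv.1 uv.2 <;> by_cases h5 : D (x uv.1) (x uv.2) <;>
        simp [G', h, h', h4, h5]
    · simp [h]
  refine le_trans ?_ (le_csSup (bdd F G hG) ⟨G', hfree, rfl⟩)
  rw [le_div_iff₀ he, e2, mul_comm]
  exact hx

theorem rhoIn_eq_one {r : ℕ} {G : OGraph} (hG : 1 ≤ G.e) (h : IsEmpty (Emb (K (r + 2)) G)) :
    rhoIn (K (r + 2)) G = 1 := by
  refine le_antisymm (rhoIn_le_one _ G hG) (le_csSup (bdd _ G hG) ⟨⊤, ?_, ?_⟩)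
  · rintro ⟨φ, h1, -, h2⟩
    exact h.false ⟨φ, h1, fun u v huv => (h2 u v huv)⟩
  · have h1 : (0 : ℝ) < G.e := by exact_mod_cast hG
    rw [SimpleGraph.Subgraph.edgeSet_top, eq_div_iff h1.ne', one_mul]
    rfl

end LowerAux

open LowerAux

theorem rho_nonneg (F : OGraph) : 0 ≤ rho F := by
  apply Real.sInf_nonneg
  rintro x ⟨G, -, rfl⟩
  exact rhoIn_nonneg F G

theorem rho_le_rhoIn (F G : OGraph) (hG : 1 ≤ G.e) : rho F ≤ rhoIn F G :=
  csInf_le ⟨0, by rintro x ⟨G, -, rfl⟩; exact rhoIn_nonneg F G⟩ ⟨G, hG, rfl⟩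

theorem rho_le_one (F : OGraph) : rho F ≤ 1 :=
  (rho_le_rhoIn F (K 2) K_two).trans (rhoIn_le_one F _ K_two)

open Classical in
theorem lagr_le_rho (F : OGraph) (V : Type) [Fintype V] (D : V → V → Prop)
    (hD : HomFree (fun u v : Fin F.n => u < v ∧ F.G.Adj u v) D) (ν : V → ℝ) (hν : ∀ y, 0 ≤ ν y) :
    ∑ y, ∑ z, ν y * ν z * (if D y z then 1 else 0) ≤ rho F * (∑ y, ν y) ^ 2 := by
  rcases (sum_nonneg fun y (_ : y ∈ univ) => hν y).eq_or_lt with h0 | h0
  · have h1 : ∀ y, ν y = 0 := fun y =>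
      (sum_eq_zero_iff_of_nonneg fun y _ => hν y).1 h0.symm y (mem_univ _)
    simp [h1]
  · set Z := ∑ y, ν y with hZ
    have h2 : ∑ y, ∑ z, ν y / Z * (ν z / Z) * (if D y z then 1 else 0) ≤ rho F := by
      refine le_csInf ⟨_, K 2, K_two, rfl⟩ ?_
      rintro x ⟨G, hG, rfl⟩
      exact lagr_le_rhoIn F G hG V D hD (fun y => ν y / Z) (fun y => div_nonneg (hν y) h0.le)
        (by rw [← sum_div, ← hZ, div_self h0.ne'])
    refine le_of_eq_of_le ?_ (mul_le_mul_of_nonneg_right h2 (sq_nonneg Z))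
    rw [sum_mul]
    refine sum_congr rfl fun y _ => ?_
    rw [sum_mul]
    refine sum_congr rfl fun z _ => ?_
    field_simp

theorem K_e (k : ℕ) : ((K k).e : ℝ) = k * (k - 1) / 2 := by
  have h : (K k).e = k.choose 2 := by
    have := SimpleGraph.card_edgeFinset_top_eq_card_choose_two (V := Fin k)
    rw [Fintype.card_fin] at this
    rw [← this, ← Set.ncard_coe_finset, SimpleGraph.coe_edgeFinset]
    rfl
  rw [h, Nat.cast_choose_two]

theorem rho_K_lt_one (r : ℕ) : rho (K (r + 2)) < 1 := by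
  have h1 : 1 ≤ (K (r + 2)).e := by
    have : s((0 : Fin (r + 2)), 1) ∈ (⊤ : SimpleGraph (Fin (r + 2))).edgeSet := by simp
    exact (Set.ncard_pos (Set.toFinite _)).2 ⟨_, this⟩
  have h2 : (0 : ℝ) < (K (r + 2)).e := by exact_mod_cast h1
  refine (rho_le_rhoIn _ _ h1).trans_lt (lt_of_le_of_lt (b := (((K (r + 2)).e : ℝ) - 1) /
    (K (r + 2)).e) (Real.sSup_le ?_ ?_) ?_)
  · rintro x ⟨G', hf, rfl⟩
    refine div_le_div_of_nonneg_right ?_ h2.le
    have h3 : G'.edgeSet ⊂ (K (r + 2)).G.edgeSet := by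
      refine ⟨G'.edgeSet_subset, fun h => hf ⟨id, strictMono_id, fun u => ?_, fun u v huv => ?_⟩⟩
      · obtain ⟨v, hv⟩ := exists_ne (α := Fin (r + 2)) u
        have : s(u, v) ∈ G'.edgeSet := h (show (K (r + 2)).G.Adj u v from hv.symm)
        exact G'.edge_vert this
      · exact h (show s(u, v) ∈ (K (r + 2)).G.edgeSet from huv)
    have h4 := Set.ncard_lt_ncard h3 (Set.toFinite _)
    have h5 : G'.edgeSet.ncard + 1 ≤ (K (r + 2)).e := h4
    have h6 : (G'.edgeSet.ncard : ℝ) + 1 ≤ (K (r + 2)).e := by exact_mod_cast h5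
    linarith
  · refine div_nonneg ?_ h2.le
    have : (1 : ℝ) ≤ (K (r + 2)).e := by exact_mod_cast h1
    linarith
  · rw [div_lt_one h2]
    linarith

theorem eventually_clique {G : ℕ → OGraph} (hG : Universal G) (r : ℕ) :
    ∀ᶠ n in atTop, Nonempty (Emb (K (r + 2)) (G n)) := by
  filter_upwards [(hG.2 (K (r + 2))).eventually (gt_mem_nhds (rho_K_lt_one r))] with n hn
  by_contra h
  rw [not_nonempty_iff] at h
  rw [rhoIn_eq_one (hG.1 n) h] at hn
  exact lt_irrefl _ hn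

open Classical in
/-- If every copy of `K k` has at least `c` edges in `S` then some `S`-edge is hit often. -/
theorem hit_of_many (G : OGraph) (k : ℕ) (S : Fin G.n → Fin G.n → Prop) (c s : ℝ) (hc : 0 < c)
    (hS : ∀ φ : Emb (K k) G,
      c ≤ ((univ.filter fun uv : Fin k × Fin k => uv.1 < uv.2 ∧ S (φ.1 uv.1) (φ.1 uv.2)).card : ℝ))
    (hs : ((univ.filter fun uv : Fin G.n × Fin G.n =>
      uv.1 < uv.2 ∧ G.G.Adj uv.1 uv.2 ∧ S uv.1 uv.2).card : ℝ) ≤ s)
    (Φ : PMF (Emb (K k) G)) : ∃ e ∈ G.G.edgeSet, c / s ≤ hitProb Φ e := by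
  haveI : Finite (Emb (K k) G) := by unfold Emb; infer_instance
  haveI : Fintype (Emb (K k) G) := Fintype.ofFinite _
  set T := univ.filter fun uv : Fin G.n × Fin G.n =>
    uv.1 < uv.2 ∧ G.G.Adj uv.1 uv.2 ∧ S uv.1 uv.2 with hT
  let H : Emb (K k) G → Fin G.n × Fin G.n → Prop := fun φ ab =>
    ∃ u v, (K k).G.Adj u v ∧ s(ab.1, ab.2) = s(φ.1 u, φ.1 v)
  have h1 : ∀ ab : Fin G.n × Fin G.n, hitProb Φ s(ab.1, ab.2) =
      ∑ φ, (Φ φ).toReal * if H φ ab then 1 else 0 := fun ab => by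
    rw [hitProb, PMF.toOuterMeasure_apply, tsum_fintype, ENNReal.toReal_sum fun φ _ =>
      ne_top_of_le_ne_top (Φ.apply_ne_top φ) (Set.indicator_le_self _ _ φ)]
    refine sum_congr rfl fun φ _ => ?_
    by_cases h : H φ ab
    · rw [if_pos h, mul_one, Set.indicator_of_mem (by exact h)]
    · rw [if_neg h, mul_zero, Set.indicator_of_notMem (by exact h), ENNReal.toReal_zero]
  have h2 : ∑ φ, (Φ φ).toReal = 1 := by
    have h0 := Φ.tsum_coe
    rw [tsum_fintype] at h0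
    rw [← ENNReal.toReal_sum fun φ _ => Φ.apply_ne_top φ, h0, ENNReal.toReal_one]
  have h3 : ∀ φ : Emb (K k) G, c ≤ ((T.filter (H φ)).card : ℝ) := fun φ => by
    refine (hS φ).trans (Nat.cast_le.2 ?_)
    refine card_le_card_of_injOn (fun uv => (φ.1 uv.1, φ.1 uv.2)) (fun uv huv => ?_)
      fun uv _ uv' _ h => ?_
    · obtain ⟨h4, h5⟩ := (mem_filter.1 (mem_coe.1 huv)).2
      have h6 : (K k).G.Adj uv.1 uv.2 := h4.ne
      exact mem_coe.2 (mem_filter.2 ⟨mem_filter.2 ⟨mem_univ _, φ.2.1 h4, φ.2.2 _ _ h6, h5⟩,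
        uv.1, uv.2, h6, rfl⟩)
    · exact Prod.ext (φ.2.1.injective (congrArg Prod.fst h))
        (φ.2.1.injective (congrArg Prod.snd h))
  have h4 : c ≤ ∑ ab ∈ T, hitProb Φ s(ab.1, ab.2) := by
    simp only [h1]
    rw [sum_comm]
    calc c = ∑ φ, (Φ φ).toReal * c := by rw [← sum_mul, h2, one_mul]
      _ ≤ _ := sum_le_sum fun φ _ => by
        rw [← mul_sum, sum_boole]
        exact mul_le_mul_of_nonneg_left (h3 φ) ENNReal.toReal_nonneg
  have hne : T.Nonempty := by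
    rw [nonempty_iff_ne_empty]
    intro h
    rw [h, sum_empty] at h4
    exact absurd hc (not_lt.2 h4)
  have h5 : (0 : ℝ) < T.card := by exact_mod_cast hne.card_pos
  obtain ⟨ab, hab, h6⟩ := exists_le_of_sum_le (f := fun _ => c / s)
    (g := fun ab : Fin G.n × Fin G.n => hitProb Φ s(ab.1, ab.2)) hne (by
      refine le_trans ?_ h4
      rw [sum_const, nsmul_eq_mul, ← mul_div_assoc, div_le_iff₀ (h5.trans_le hs), mul_comm]
      exact mul_le_mul_of_nonneg_left hs hc.le)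
  exact ⟨_, (mem_filter.1 hab).2.2.1, h6⟩

end Pool.Agent.Lib.MP_37b92f_co
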