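import Pool.Agent.Lib.MP_37b92f_co.Basic

set_option autoImplicit false

namespace Pool.Agent.Lib.MP_37b92f_co

open Finset

open Classical in
/-- The statement of the position module. -/
def PosThm : Prop :=
  ∀ (W : Type) [Fintype W] [DecidableEq W] (f : ℕ) (A : Fin f → Fin f → Prop),
    (∀ u v, A u v → u < v) → ∀ (ω : W → W → ℝ), (∀ p q, 0 ≤ ω p q) → (∀ p, ω p p = 0) →
    ∀ t : ℝ, 0 ≤ t →
    (∀ D : W → W → Prop, HomFree A D → ∑ p, ∑ q, (if D p q then ω p q else 0) ≤ t) →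
    ∀ L : Law W, (∀ K E, L.μ K E ≠ 0 → Avoid A E) →
    ∑ E, L.μ 2 E * ∑ p, ∑ q, (if E 0 p 1 q = true then ω p q else 0) ≤ t

end Pool.Agent.Lib.MP_37b92f_co
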