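import Pool.Agent.Lib.MP_37b92f_co.Basic

set_option autoImplicit false

namespace Pool.Agent.Lib.MP_37b92f_co

open Finset

namespace Psi

section Det

variable {W : Type*} [Fintype W]

theorem abs_le_sq (x s : ℝ) (hs : 0 < s) : |x| ≤ s + x ^ 2 / s := by
  have h : |x| * s ≤ s * s + x ^ 2 := by nlinarith [sq_abs x, abs_nonneg x, sq_nonneg (|x| - s)]
  calc |x| = |x| * s / s := by field_simp
    _ ≤ (s * s + x ^ 2) / s := by gcongr
    _ = s + x ^ 2 / s := by field_simp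

theorem sq_bound (ψ : W → W → ℝ) (ω u : W → ℝ) (hu : ∀ z, 0 ≤ u z ∧ u z ≤ 1) (N : ℝ)
    (hN : N = Fintype.card W) :
    ∑ y, ω y * (∑ z, ψ y z * u z - ∑ z, u z) ^ 2 ≤
      ∑ z, ∑ z', |∑ y, ω y * ψ y z * ψ y z' - N| + 2 * N * ∑ z, |∑ y, ω y * ψ y z - N|
        + N ^ 2 * |∑ y, ω y - N| := by
  obtain ⟨U, hU⟩ : ∃ U, U = ∑ z, u z := ⟨_, rfl⟩
  have hU0 : 0 ≤ U := hU ▸ sum_nonneg fun z _ => (hu z).1
  have hUN : U ≤ N := by
    rw [hU, hN]
    exact (sum_le_sum fun z _ => (hu z).2).trans (by simp)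
  have e1 : ∑ y, ω y * (∑ z, ψ y z * u z) ^ 2 = ∑ z, ∑ z', u z * u z' * ∑ y, ω y * ψ y z * ψ y z' := by
    simp only [sq, sum_mul_sum]
    simp only [mul_sum]
    rw [sum_comm]
    refine sum_congr rfl fun z _ => ?_
    rw [sum_comm]
    exact sum_congr rfl fun z' _ => sum_congr rfl fun y _ => by ring
  have e2 : ∑ y, ω y * ∑ z, ψ y z * u z = ∑ z, u z * ∑ y, ω y * ψ y z := by
    simp only [mul_sum]
    rw [sum_comm]
    exact sum_congr rfl fun z' _ => sum_congr rfl fun y _ => by ring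
  have e3 : ∑ z, ∑ z', u z * u z' * (∑ y, ω y * ψ y z * ψ y z' - N)
      = ∑ z, ∑ z', u z * u z' * (∑ y, ω y * ψ y z * ψ y z') - U ^ 2 * N := by
    rw [hU, sq, sum_mul_sum, sum_mul, ← sum_sub_distrib]
    refine sum_congr rfl fun z _ => ?_
    rw [sum_mul, ← sum_sub_distrib]
    exact sum_congr rfl fun z' _ => by ring
  have e4 : ∑ z, u z * (∑ y, ω y * ψ y z - N) = ∑ z, u z * (∑ y, ω y * ψ y z) - U * N := by
    rw [hU, sum_mul, ← sum_sub_distrib]
    exact sum_congr rfl fun z' _ => by ring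
  have e5 : ∑ y, ω y * (∑ z, ψ y z * u z - U) ^ 2 = ∑ y, ω y * (∑ z, ψ y z * u z) ^ 2
      - 2 * U * (∑ y, ω y * ∑ z, ψ y z * u z) + U ^ 2 * ∑ y, ω y := by
    rw [mul_sum, mul_sum, ← sum_sub_distrib, ← sum_add_distrib]
    exact sum_congr rfl fun z' _ => by ring
  have b1 : ∑ z, ∑ z', u z * u z' * (∑ y, ω y * ψ y z * ψ y z' - N)
      ≤ ∑ z, ∑ z', |∑ y, ω y * ψ y z * ψ y z' - N| := by
    refine sum_le_sum fun z _ => sum_le_sum fun z' _ => ?_
    have h0 : 0 ≤ u z * u z' := mul_nonneg (hu z).1 (hu z').1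
    have h1 : u z * u z' ≤ 1 := mul_le_one₀ (hu z).2 (hu z').1 (hu z').2
    exact (mul_le_mul_of_nonneg_left (le_abs_self _) h0).trans
      (mul_le_of_le_one_left (abs_nonneg _) h1)
  have b2 : -∑ z, u z * (∑ y, ω y * ψ y z - N) ≤ ∑ z, |∑ y, ω y * ψ y z - N| := by
    rw [← sum_neg_distrib]
    refine sum_le_sum fun z _ => ?_
    rw [← mul_neg]
    exact (mul_le_mul_of_nonneg_left (neg_le_abs _) (hu z).1).trans
      (mul_le_of_le_one_left (abs_nonneg _) (hu z).2)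
  have b3 : U ^ 2 * (∑ y, ω y - N) ≤ N ^ 2 * |∑ y, ω y - N| :=
    (mul_le_mul_of_nonneg_left (le_abs_self _) (sq_nonneg _)).trans
      (mul_le_mul_of_nonneg_right (pow_le_pow_left₀ hU0 hUN 2) (abs_nonneg _))
  have b4 : 0 ≤ ∑ z, |∑ y, ω y * ψ y z - N| := sum_nonneg fun z _ => abs_nonneg _
  have b5 := mul_le_mul_of_nonneg_left b2 hU0
  have b6 := mul_le_mul_of_nonneg_right hUN b4
  rw [← hU, e5, e1, e2]
  rw [e4] at b5
  rw [e3] at b1
  nlinarith

theorem samp_of (ψ : W → W → ℝ) (hs : ∀ y z, ψ y z = ψ z y) (h0 : ∀ y z, 0 ≤ ψ y z) {η τ N : ℝ}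
    (hη : 0 < η) (hτ1 : τ ≤ 1) (hτ : 32 * τ ≤ η ^ 2) (hN : N = Fintype.card W) (hN0 : 0 < N)
    (d1 : ∑ z, |∑ y, ψ y z - N| ≤ τ * N ^ 2)
    (d2 : ∑ z, ∑ z', |∑ y, ψ y z * ψ y z' - N| ≤ τ * N ^ 3)
    (d3 : ∑ z, ∑ z', ∑ z'', |∑ y, ψ y z * ψ y z' * ψ y z'' - N| ≤ τ * N ^ 4) : Samp ψ η := by
  have hs0 : 0 < η / 4 * N := by positivity
  refine ⟨hs, h0, fun u hu => ?_, fun S hS => ?_⟩
  · have h := sq_bound ψ (fun _ => 1) u hu N hN
    simp only [one_mul, sum_const, card_univ, nsmul_eq_mul, mul_one, ← hN, sub_self, abs_zero,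
      mul_zero, add_zero] at h
    rw [← hN]
    calc _ ≤ ∑ y, (η / 4 * N + (∑ z, ψ y z * u z - ∑ z, u z) ^ 2 / (η / 4 * N)) :=
          sum_le_sum fun y _ => abs_le_sq _ _ hs0
      _ = N * (η / 4 * N) + (∑ y, (∑ z, ψ y z * u z - ∑ z, u z) ^ 2) / (η / 4 * N) := by
          rw [sum_add_distrib, ← sum_div, sum_const, card_univ, nsmul_eq_mul, ← hN]
      _ ≤ N * (η / 4 * N) + (η / 2 * N ^ 2) := by
          gcongr
          rw [div_le_iff₀ hs0]
          have h3 : 0 < N ^ 3 := by positivity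
          have h4 := mul_le_mul_of_nonneg_left d1 hN0.le
          nlinarith [sq_nonneg η]
      _ ≤ _ := by nlinarith [mul_pos hη (pow_pos hN0 2)]
  · have h := fun z => sq_bound ψ (fun y => ψ y z) (S z) (hS z) N hN
    have h' := sum_le_sum fun z (_ : z ∈ (univ : Finset W)) => h z
    rw [sum_add_distrib, sum_add_distrib, ← mul_sum, ← mul_sum] at h'
    have t : ∑ z, ∑ y, ψ y z ≤ 2 * N ^ 2 := by
      have t1 : ∑ z, ∑ y, ψ y z ≤ ∑ z, (N + |∑ y, ψ y z - N|) :=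
        sum_le_sum fun z _ => by linarith [le_abs_self (∑ y, ψ y z - N)]
      rw [sum_add_distrib, sum_const, card_univ, nsmul_eq_mul, ← hN] at t1
      nlinarith [pow_pos hN0 2]
    rw [← hN, sum_comm]
    calc _ ≤ ∑ z, ∑ y, ψ y z *
          (η / 4 * N + (∑ z', ψ y z' * S z z' - ∑ z', S z z') ^ 2 / (η / 4 * N)) :=
          sum_le_sum fun z _ => sum_le_sum fun y _ =>
            mul_le_mul_of_nonneg_left (abs_le_sq _ _ hs0) (h0 y z)
      _ = (∑ z, ∑ y, ψ y z) * (η / 4 * N) +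
          (∑ z, ∑ y, ψ y z * (∑ z', ψ y z' * S z z' - ∑ z', S z z') ^ 2) / (η / 4 * N) := by
          simp only [mul_add, sum_add_distrib, sum_div, sum_mul, mul_div_assoc]
      _ ≤ 2 * N ^ 2 * (η / 4 * N) + (η / 2 * N ^ 3) := by
          gcongr
          rw [div_le_iff₀ hs0]
          have h3 : 0 < N ^ 4 := by positivity
          have h4 := mul_le_mul_of_nonneg_left d2 hN0.le
          have h5 := mul_le_mul_of_nonneg_left d1 (sq_nonneg N)
          nlinarith [sq_nonneg η]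
      _ = _ := by ring

end Det

section Rand

variable {W : Type} [Fintype W] [DecidableEq W]

/-- Bit weights. -/
noncomputable def bw (W : Type) (L : ℝ) : Sym2 W → Bool → ℝ := fun _ b => if b then 1 / L else 1 - 1 / L

/-- The random kernel. -/
def ker (L : ℝ) (ξ : Sym2 W → Bool) (y z : W) : ℝ := if y ≠ z ∧ ξ s(y, z) = true then L else 0

omit [Fintype W] [DecidableEq W] in
theorem bw_sum (L : ℝ) (e : Sym2 W) : ∑ b, bw W L e b = 1 := by simp [bw]

omit [Fintype W] [DecidableEq W] in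
theorem bw_nonneg {L : ℝ} (hL : 1 ≤ L) (e : Sym2 W) (b : Bool) : 0 ≤ bw W L e b := by
  unfold bw
  split_ifs
  · positivity
  · have : 1 / L ≤ 1 := by rw [div_le_one (by linarith)]; exact hL
    linarith

theorem exp_prod {A : Type*} (L c : ℝ) (S : Finset A) (e : A → Sym2 W) (he : Set.InjOn e S) :
    ∑ ξ, pw (bw W L) ξ * ∏ a ∈ S, (if ξ (e a) = true then c else 0) = (c / L) ^ S.card := by
  have h := pw_prod_on (bw_sum (W := W) L) (S.image e) (fun _ b => if b = true then c else 0)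
  simp only [prod_image he] at h
  rw [h]
  simp [bw, div_eq_inv_mul]

omit [Fintype W] in
theorem ker_mem {L : ℝ} (hL : 1 ≤ L) (ξ : Sym2 W → Bool) (y z : W) :
    0 ≤ ker L ξ y z ∧ ker L ξ y z ≤ L := by
  unfold ker
  split_ifs <;> constructor <;> linarith

theorem exp_bip {L : ℝ} (hL : 1 ≤ L) (Y Z : Finset W) (h : ∀ y ∈ Y, y ∉ Z) :
    ∑ ξ, pw (bw W L) ξ * ∏ y ∈ Y, ∏ z ∈ Z, ker L ξ y z = 1 := by
  have h1 := exp_prod L L (Y ×ˢ Z) (fun a => s(a.1, a.2)) (by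
    rintro ⟨a, b⟩ hab ⟨c, d⟩ hcd he
    simp only [coe_product, Set.mem_prod, mem_coe] at hab hcd
    simp only [Sym2.eq_iff] at he
    rcases he with ⟨rfl, rfl⟩ | ⟨rfl, rfl⟩
    · rfl
    · exact absurd hcd.2 (h _ hab.1))
  rw [div_self (by linarith), one_pow] at h1
  rw [← h1]
  refine sum_congr rfl fun ξ _ => ?_
  rw [prod_product]
  congr 1
  refine prod_congr rfl fun y hy => prod_congr rfl fun z hz => ?_
  have : y ≠ z := fun e => h y hy (e ▸ hz)
  simp [ker, this]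

theorem exp_var {L : ℝ} (hL : 1 ≤ L) (Z : Finset W) (hZ : Z.card ≤ 3) :
    ∑ ξ, pw (bw W L) ξ * (∑ y, ∏ z ∈ Z, ker L ξ y z - Fintype.card W) ^ 2
      ≤ 7 * L ^ 6 * Fintype.card W := by
  have hw := pw_nonneg (bw_nonneg (W := W) hL)
  have hw1 := pw_sum (bw_sum (W := W) L)
  have hP : ∀ ξ y, |∏ z ∈ Z, ker L ξ y z - 1| ≤ L ^ 3 := by
    intro ξ y
    have a1 : 0 ≤ ∏ z ∈ Z, ker L ξ y z := prod_nonneg fun z _ => (ker_mem hL ξ y z).1
    have a2 : ∏ z ∈ Z, ker L ξ y z ≤ ∏ z ∈ Z, L :=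
      prod_le_prod (fun z _ => (ker_mem hL ξ y z).1) fun z _ => (ker_mem hL ξ y z).2
    rw [prod_const] at a2
    have a3 : L ^ Z.card ≤ L ^ 3 := pow_le_pow_right₀ hL hZ
    have a4 : 1 ≤ L ^ 3 := one_le_pow₀ hL
    rw [abs_le]
    constructor <;> linarith
  have key : ∀ y y', ∑ ξ, pw (bw W L) ξ *
      ((∏ z ∈ Z, ker L ξ y z - 1) * (∏ z ∈ Z, ker L ξ y' z - 1)) ≤
      L ^ 6 * ((if y ∈ Z then 1 else 0) + (if y' ∈ Z then 1 else 0) + if y = y' then 1 else 0) := by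
    intro y y'
    by_cases hb : y ∈ Z ∨ y' ∈ Z ∨ y = y'
    · have b1 : ∑ ξ, pw (bw W L) ξ *
          ((∏ z ∈ Z, ker L ξ y z - 1) * (∏ z ∈ Z, ker L ξ y' z - 1)) ≤
          ∑ ξ, pw (bw W L) ξ * L ^ 6 := by
        refine sum_le_sum fun ξ _ => mul_le_mul_of_nonneg_left ?_ (hw ξ)
        refine (le_abs_self _).trans ?_
        rw [abs_mul, show L ^ 6 = L ^ 3 * L ^ 3 by ring]
        exact mul_le_mul (hP ξ y) (hP ξ y') (abs_nonneg _) (by positivity)
      rw [← sum_mul, hw1, one_mul] at b1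
      refine b1.trans (le_mul_of_one_le_right (by positivity) ?_)
      split_ifs <;> first | (exfalso; tauto) | norm_num
    · push Not at hb
      obtain ⟨h1, h2, h3⟩ := hb
      have e1 := exp_bip hL {y} Z (by simpa using h1)
      have e2 := exp_bip hL {y'} Z (by simpa using h2)
      have e3 := exp_bip hL {y, y'} Z (by simpa using ⟨h1, h2⟩)
      simp only [prod_singleton, prod_pair h3] at e1 e2 e3
      have e4 : ∀ ξ, pw (bw W L) ξ *
          ((∏ z ∈ Z, ker L ξ y z - 1) * (∏ z ∈ Z, ker L ξ y' z - 1)) =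
          pw (bw W L) ξ * ((∏ z ∈ Z, ker L ξ y z) * (∏ z ∈ Z, ker L ξ y' z))
          - pw (bw W L) ξ * (∏ z ∈ Z, ker L ξ y z) - pw (bw W L) ξ * (∏ z ∈ Z, ker L ξ y' z)
          + pw (bw W L) ξ := fun ξ => by ring
      simp only [e4, sum_add_distrib, sum_sub_distrib, e1, e2, e3, hw1, h1, h2, h3, if_false]
      norm_num
  have e : ∀ ξ, pw (bw W L) ξ * (∑ y, ∏ z ∈ Z, ker L ξ y z - Fintype.card W) ^ 2 =
      ∑ y, ∑ y', pw (bw W L) ξ *
        ((∏ z ∈ Z, ker L ξ y z - 1) * (∏ z ∈ Z, ker L ξ y' z - 1)) := by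
    intro ξ
    have : ∑ y, ∏ z ∈ Z, ker L ξ y z - Fintype.card W = ∑ y, (∏ z ∈ Z, ker L ξ y z - 1) := by
      rw [sum_sub_distrib]
      simp
    rw [this, sq, sum_mul_sum]
    simp only [mul_sum]
  simp only [e]
  rw [sum_comm]
  calc _ ≤ ∑ y, ∑ y', L ^ 6 *
        ((if y ∈ Z then 1 else 0) + (if y' ∈ Z then 1 else 0) + if y = y' then 1 else 0) := by
        refine sum_le_sum fun y _ => ?_
        rw [sum_comm]
        exact sum_le_sum fun y' _ => key y y'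
    _ = L ^ 6 * ((2 * Z.card + 1) * Fintype.card W) := by
        simp only [← mul_sum, sum_add_distrib]
        simp
        left
        ring
    _ ≤ _ := by
        have h1 : (Z.card : ℝ) ≤ 3 := by exact_mod_cast hZ
        have h2 : (0 : ℝ) ≤ L ^ 6 * Fintype.card W := by positivity
        nlinarith

theorem exp_abs {L : ℝ} (hL : 1 ≤ L) (hW : (Fintype.card W : ℝ) = L ^ 12) (Z : Finset W)
    (hZ : Z.card ≤ 3) :
    ∑ ξ, pw (bw W L) ξ * |∑ y, ∏ z ∈ Z, ker L ξ y z - L ^ 12| ≤ 8 * L ^ 11 := by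
  have hw := pw_nonneg (bw_nonneg (W := W) hL)
  have hw1 := pw_sum (bw_sum (W := W) L)
  have h := exp_var hL Z hZ
  rw [hW] at h
  have hs : 0 < L ^ 11 := by positivity
  calc _ ≤ ∑ ξ, pw (bw W L) ξ * (L ^ 11 + (∑ y, ∏ z ∈ Z, ker L ξ y z - L ^ 12) ^ 2 / L ^ 11) :=
        sum_le_sum fun ξ _ => mul_le_mul_of_nonneg_left (abs_le_sq _ _ hs) (hw ξ)
    _ = L ^ 11 + (∑ ξ, pw (bw W L) ξ * (∑ y, ∏ z ∈ Z, ker L ξ y z - L ^ 12) ^ 2) / L ^ 11 := by
        simp only [mul_add, sum_add_distrib, ← sum_mul, hw1, one_mul, sum_div, mul_div_assoc]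
    _ ≤ L ^ 11 + 7 * L ^ 11 := by
        gcongr
        rw [div_le_iff₀ hs]
        have : L ^ 18 ≤ L ^ 22 := pow_le_pow_right₀ hL (by norm_num)
        nlinarith
    _ = _ := by ring

theorem exp_triv {L : ℝ} (hL : 1 ≤ L) (hW : (Fintype.card W : ℝ) = L ^ 12)
    (F : (Sym2 W → Bool) → W → ℝ) (hF : ∀ ξ y, 0 ≤ F ξ y ∧ F ξ y ≤ L ^ 3) :
    ∑ ξ, pw (bw W L) ξ * |∑ y, F ξ y - L ^ 12| ≤ L ^ 15 := by
  have hw := pw_nonneg (bw_nonneg (W := W) hL)
  have hw1 := pw_sum (bw_sum (W := W) L)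
  calc _ ≤ ∑ ξ, pw (bw W L) ξ * L ^ 15 := by
        refine sum_le_sum fun ξ _ => mul_le_mul_of_nonneg_left ?_ (hw ξ)
        have a1 : 0 ≤ ∑ y, F ξ y := sum_nonneg fun y _ => (hF ξ y).1
        have a2 : ∑ y, F ξ y ≤ ∑ _y : W, L ^ 3 := sum_le_sum fun y _ => (hF ξ y).2
        rw [sum_const, card_univ, nsmul_eq_mul, hW] at a2
        have a3 : L ^ 12 ≤ L ^ 15 := pow_le_pow_right₀ hL (by norm_num)
        have a4 : 0 ≤ L ^ 12 := by positivity
        rw [abs_le]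
        constructor <;> nlinarith
    _ = _ := by rw [← sum_mul, hw1, one_mul]

theorem exp_d1 {L : ℝ} (hL : 1 ≤ L) (hW : (Fintype.card W : ℝ) = L ^ 12) :
    ∑ ξ, pw (bw W L) ξ * ∑ z, |∑ y, ker L ξ y z - L ^ 12| ≤ 8 * L ^ 23 := by
  simp only [mul_sum]
  rw [sum_comm]
  refine (sum_le_sum fun z _ => by simpa using exp_abs hL hW {z} (by simp)).trans ?_
  rw [sum_const, card_univ, nsmul_eq_mul, hW]
  exact le_of_eq (by ring)

theorem exp_d2 {L : ℝ} (hL : 1 ≤ L) (hW : (Fintype.card W : ℝ) = L ^ 12) :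
    ∑ ξ, pw (bw W L) ξ * ∑ z, ∑ z', |∑ y, ker L ξ y z * ker L ξ y z' - L ^ 12| ≤ 9 * L ^ 35 := by
  have key : ∀ z z', ∑ ξ, pw (bw W L) ξ * |∑ y, ker L ξ y z * ker L ξ y z' - L ^ 12|
      ≤ 8 * L ^ 11 + L ^ 15 * if z = z' then 1 else 0 := by
    intro z z'
    split_ifs with h
    · refine (exp_triv hL hW _ fun ξ y => ⟨mul_nonneg (ker_mem hL ξ y z).1 (ker_mem hL ξ y z').1,
        ?_⟩).trans (by nlinarith [pow_nonneg (zero_le_one.trans hL) 11])
      have := mul_le_mul (ker_mem hL ξ y z).2 (ker_mem hL ξ y z').2 (ker_mem hL ξ y z').1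
        (by linarith)
      nlinarith [mul_nonneg (zero_le_one.trans hL) (zero_le_one.trans hL)]
    · simpa [prod_pair h] using exp_abs hL hW {z, z'} (card_le_two.trans (by norm_num))
  simp only [mul_sum]
  rw [sum_comm]
  calc _ ≤ ∑ z : W, ∑ z' : W, (8 * L ^ 11 + L ^ 15 * if z = z' then 1 else 0) := by
        refine sum_le_sum fun z _ => ?_
        rw [sum_comm]
        exact sum_le_sum fun z' _ => key z z'
    _ = 8 * L ^ 35 + L ^ 27 := by
        simp only [sum_add_distrib, ← mul_sum]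
        simp [hW]
        ring
    _ ≤ _ := by linarith [pow_le_pow_right₀ hL (show 27 ≤ 35 by norm_num)]

theorem exp_d3 {L : ℝ} (hL : 1 ≤ L) (hW : (Fintype.card W : ℝ) = L ^ 12) :
    ∑ ξ, pw (bw W L) ξ * ∑ z, ∑ z', ∑ z'',
      |∑ y, ker L ξ y z * ker L ξ y z' * ker L ξ y z'' - L ^ 12| ≤ 11 * L ^ 47 := by
  have key : ∀ z z' z'', ∑ ξ, pw (bw W L) ξ *
      |∑ y, ker L ξ y z * ker L ξ y z' * ker L ξ y z'' - L ^ 12| ≤ 8 * L ^ 11 + L ^ 15 *
        ((if z = z' then 1 else 0) + (if z = z'' then 1 else 0) + if z' = z'' then 1 else 0) := by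
    intro z z' z''
    by_cases hb : z = z' ∨ z = z'' ∨ z' = z''
    · refine (exp_triv hL hW _ fun ξ y => ⟨mul_nonneg (mul_nonneg (ker_mem hL ξ y z).1
        (ker_mem hL ξ y z').1) (ker_mem hL ξ y z'').1, ?_⟩).trans ?_
      · rw [show L ^ 3 = L * L * L by ring]
        exact mul_le_mul (mul_le_mul (ker_mem hL ξ y z).2 (ker_mem hL ξ y z').2
          (ker_mem hL ξ y z').1 (by linarith)) (ker_mem hL ξ y z'').2 (ker_mem hL ξ y z'').1
          (by positivity)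
      · refine le_add_of_nonneg_of_le (by positivity) (le_mul_of_one_le_right (by positivity) ?_)
        split_ifs <;> first | (exfalso; tauto) | norm_num
    · push Not at hb
      obtain ⟨h1, h2, h3⟩ := hb
      have := exp_abs hL hW {z, z', z''} card_le_three
      simp only [prod_insert (show z ∉ ({z', z''} : Finset W) by simp [h1, h2]), prod_pair h3,
        ← mul_assoc] at this
      simpa [h1, h2, h3] using this
  simp only [mul_sum]
  rw [sum_comm]
  calc _ ≤ ∑ z : W, ∑ z' : W, ∑ z'' : W, (8 * L ^ 11 + L ^ 15 *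
        ((if z = z' then 1 else 0) + (if z = z'' then 1 else 0) + if z' = z'' then 1 else 0)) := by
        refine sum_le_sum fun z _ => ?_
        rw [sum_comm]
        refine sum_le_sum fun z' _ => ?_
        rw [sum_comm]
        exact sum_le_sum fun z'' _ => key z z' z''
    _ = 8 * L ^ 47 + 3 * L ^ 39 := by
        simp only [sum_add_distrib, ← mul_sum]
        simp [hW]
        ring
    _ ≤ _ := by linarith [pow_le_pow_right₀ hL (show 39 ≤ 47 by norm_num)]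

/-- Number of dense configurations. -/
noncomputable def cnt (k : ℕ) (ξ : Sym2 W → Bool) : ℝ :=
  ∑ p ∈ univ.filter (fun p : Fin k → W => Function.Injective p),
    ∑ S ∈ powersetCard (12 * k + 1) (univ.filter fun uv : Fin k × Fin k => uv.1 < uv.2),
      ∏ uv ∈ S, if ξ s(p uv.1, p uv.2) = true then 1 else 0

theorem exp_cnt {L : ℝ} (hL : 1 ≤ L) (hW : (Fintype.card W : ℝ) = L ^ 12) (k : ℕ) :
    ∑ ξ, pw (bw W L) ξ * cnt k ξ ≤ 2 ^ (k * k) / L := by
  simp only [cnt, mul_sum]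
  rw [sum_comm]
  calc _ ≤ ∑ p ∈ univ.filter (fun p : Fin k → W => Function.Injective p),
        (2 : ℝ) ^ (k * k) * (1 / L) ^ (12 * k + 1) := by
        refine sum_le_sum fun p hp => ?_
        rw [sum_comm]
        have hp' := (mem_filter.1 hp).2
        calc _ = ∑ S ∈ powersetCard (12 * k + 1)
              (univ.filter fun uv : Fin k × Fin k => uv.1 < uv.2), (1 / L) ^ (12 * k + 1) := by
              refine sum_congr rfl fun S hS => ?_
              obtain ⟨h1, h2⟩ := mem_powersetCard.1 hS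
              rw [← h2]
              refine exp_prod L 1 S (fun uv => s(p uv.1, p uv.2)) ?_
              rintro ⟨a, b⟩ hab ⟨c, d⟩ hcd he
              have l1 : a < b := (mem_filter.1 (h1 hab)).2
              have l2 : c < d := (mem_filter.1 (h1 hcd)).2
              simp only [Sym2.eq_iff, hp'.eq_iff] at he
              rcases he with ⟨rfl, rfl⟩ | ⟨rfl, rfl⟩
              · rfl
              · exact absurd l1 (not_lt.2 l2.le)
          _ ≤ _ := by
              rw [sum_const, nsmul_eq_mul]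
              refine mul_le_mul_of_nonneg_right ?_ (by positivity)
              have : (powersetCard (12 * k + 1)
                  (univ.filter fun uv : Fin k × Fin k => uv.1 < uv.2)).card ≤ 2 ^ (k * k) :=
                (card_le_univ _).trans (by simp)
              exact_mod_cast this
    _ ≤ (L ^ 12) ^ k * ((2 : ℝ) ^ (k * k) * (1 / L) ^ (12 * k + 1)) := by
        rw [sum_const, nsmul_eq_mul]
        refine mul_le_mul_of_nonneg_right ?_ (by positivity)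
        rw [← hW]
        have : (univ.filter (fun p : Fin k → W => Function.Injective p)).card
            ≤ Fintype.card W ^ k := (card_le_univ _).trans (by simp)
        exact_mod_cast this
    _ = _ := by
        have : L ≠ 0 := by linarith
        rw [← pow_mul, one_div_pow, pow_succ]
        field_simp

theorem cnt_nonneg (k : ℕ) (ξ : Sym2 W → Bool) : 0 ≤ cnt k ξ :=
  sum_nonneg fun _ _ => sum_nonneg fun _ _ => prod_nonneg fun _ _ => by
    split_ifs <;> norm_num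

theorem sparse {k : ℕ} {ξ : Sym2 W → Bool} (h : cnt k ξ < 1) (p : Fin k → W)
    (hp : Function.Injective p) (T : Finset (Fin k × Fin k))
    (hT : ∀ uv ∈ T, uv.1 < uv.2 ∧ ξ s(p uv.1, p uv.2) = true) : T.card ≤ 12 * k := by
  by_contra hc
  obtain ⟨S, hS, hc⟩ := exists_subset_card_eq (show 12 * k + 1 ≤ T.card by omega)
  refine absurd h (not_lt.2 ?_)
  have h0 : ∀ (q : Fin k → W) (R : Finset (Fin k × Fin k)),
      (0 : ℝ) ≤ ∏ uv ∈ R, if ξ s(q uv.1, q uv.2) = true then 1 else 0 :=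
    fun q R => prod_nonneg fun _ _ => by split_ifs <;> norm_num
  refine le_trans ?_ (single_le_sum (fun q _ => sum_nonneg fun R _ => h0 q R)
    (mem_filter.2 ⟨mem_univ p, hp⟩))
  refine le_trans ?_ (single_le_sum (fun R _ => h0 p R) (mem_powersetCard.2
    ⟨fun uv huv => mem_filter.2 ⟨mem_univ _, (hT uv (hS huv)).1⟩, hc⟩))
  exact le_of_eq (prod_eq_one fun uv huv => if_pos (hT uv (hS huv)).2).symm

end Rand

end Psi

open Psi in
open Classical in
theorem exists_psi (k : ℕ) (η : ℝ) (hη : 0 < η) (n0 : ℕ) :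
    ∃ (n : ℕ) (ψ : Fin n → Fin n → ℝ), n0 ≤ n ∧ (∀ y, ψ y y = 0) ∧ Samp ψ η ∧
      ∀ p : Fin k → Fin n, Function.Injective p →
        (univ.filter fun uv : Fin k × Fin k => uv.1 < uv.2 ∧ ψ (p uv.1) (p uv.2) ≠ 0).card
          ≤ 12 * k := by
  obtain ⟨τ, hτ⟩ : ∃ τ : ℝ, τ = min 1 (η ^ 2 / 32) := ⟨_, rfl⟩
  have hτ0 : 0 < τ := by rw [hτ]; positivity
  have hτ1 : τ ≤ 1 := hτ ▸ min_le_left _ _
  have hτ2 : τ ≤ η ^ 2 / 32 := hτ ▸ min_le_right _ _
  obtain ⟨l, hl⟩ := exists_nat_gt ((n0 : ℝ) + 1 + (2 ^ (k * k) + 28 / τ))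
  have p1 : (0 : ℝ) ≤ n0 := Nat.cast_nonneg _
  have p2 : (0 : ℝ) ≤ 2 ^ (k * k) + 28 / τ := by positivity
  have hL : (1 : ℝ) ≤ l := by linarith
  have hW : (Fintype.card (Fin (l ^ 12)) : ℝ) = (l : ℝ) ^ 12 := by simp
  have e0 := exp_cnt hL hW k
  have e1 := exp_d1 hL hW
  have e2 := exp_d2 hL hW
  have e3 := exp_d3 hL hW
  obtain ⟨L, hLl⟩ : ∃ L : ℝ, L = l := ⟨_, rfl⟩
  rw [← hLl] at hl hL hW e0 e1 e2 e3
  have hL0 : 0 < L := by linarith
  obtain ⟨ξ, -, hξ⟩ := exists_le_of_avg (pw (bw (Fin (l ^ 12)) L)) (fun ξ => cnt k ξ +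
    ((∑ z, |∑ y, ker L ξ y z - L ^ 12|) / (τ * L ^ 24) +
    (∑ z, ∑ z', |∑ y, ker L ξ y z * ker L ξ y z' - L ^ 12|) / (τ * L ^ 36) +
    (∑ z, ∑ z', ∑ z'', |∑ y, ker L ξ y z * ker L ξ y z' * ker L ξ y z'' - L ^ 12|) / (τ * L ^ 48)))
    (pw_nonneg (bw_nonneg hL)) (pw_sum (bw_sum L))
  simp only [mul_add, sum_add_distrib, ← mul_div_assoc] at hξ
  rw [← sum_div, ← sum_div, ← sum_div] at hξ
  have hlt : 2 ^ (k * k) / L + (8 * L ^ 23 / (τ * L ^ 24) + 9 * L ^ 35 / (τ * L ^ 36) +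
      11 * L ^ 47 / (τ * L ^ 48)) < 1 := by
    have : 2 ^ (k * k) / L + (8 * L ^ 23 / (τ * L ^ 24) + 9 * L ^ 35 / (τ * L ^ 36) +
      11 * L ^ 47 / (τ * L ^ 48)) = (2 ^ (k * k) + 28 / τ) / L := by
      field_simp
      ring
    rw [this, div_lt_one hL0]
    linarith
  have h := (hξ.trans (by gcongr)).trans_lt hlt
  have n1 : 0 ≤ (∑ z, |∑ y, ker L ξ y z - L ^ 12|) / (τ * L ^ 24) := by positivity
  have n2 : 0 ≤ (∑ z, ∑ z', |∑ y, ker L ξ y z * ker L ξ y z' - L ^ 12|) / (τ * L ^ 36) := by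
    positivity
  have n3 : 0 ≤ (∑ z, ∑ z', ∑ z'', |∑ y, ker L ξ y z * ker L ξ y z' * ker L ξ y z'' - L ^ 12|)
      / (τ * L ^ 48) := by positivity
  have n4 := cnt_nonneg k ξ
  refine ⟨l ^ 12, ker L ξ, ?_, fun y => by simp [ker], ?_, fun p hp => ?_⟩
  · have : n0 ≤ l := by
      have : (n0 : ℝ) ≤ l := by linarith
      exact_mod_cast this
    exact this.trans (Nat.le_self_pow (by norm_num) l)
  · refine samp_of _ (fun y z => by simp only [ker, Sym2.eq_swap (a := y), ne_comm (a := y)])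
      (fun y z => (ker_mem hL ξ y z).1) hη hτ1 (by linarith) hW.symm (by positivity) ?_ ?_ ?_
    · rw [← pow_mul, ← div_le_one (by positivity)]
      norm_num
      linarith
    · rw [← pow_mul, ← div_le_one (by positivity)]
      norm_num
      linarith
    · rw [← pow_mul, ← div_le_one (by positivity)]
      norm_num
      linarith
  · refine sparse (ξ := ξ) (by linarith) p hp _ fun uv huv => ?_
    obtain ⟨h1, h2⟩ := (mem_filter.1 huv).2
    refine ⟨h1, ?_⟩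
    by_contra hc
    exact h2 (by simp [ker, hc])

end Pool.Agent.Lib.MP_37b92f_co
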