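import Pool.Agent.Lib.MP_37b92f_co.Defs
import Pool.Agent.Lib.MP_37b92f_co.PosDef
import Pool.Agent.Lib.MP_37b92f_co.Key
import Pool.Agent.Lib.MP_37b92f_co.Psi
import Pool.Agent.Lib.MP_37b92f_co.Lift
import Pool.Agent.Lib.MP_37b92f_co.Dichotomy
import Pool.Agent.Lib.MP_37b92f_co.Lower

set_option autoImplicit false

namespace Pool.Agent.Lib.MP_37b92f_co

open Finset Filter Topology

namespace Fnl

/-- The pattern of an ordered graph: its edges, and an arc from every isolated vertex to a new last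
vertex. -/
def Ap (F : OGraph) (u v : Fin (F.n + 1)) : Prop :=
  (∃ u' v', u = Fin.castSucc u' ∧ v = Fin.castSucc v' ∧ u' < v' ∧ F.G.Adj u' v') ∨
    (v = Fin.last _ ∧ ∃ u', u = Fin.castSucc u' ∧ ∀ w, ¬ F.G.Adj u' w)

theorem Ap_lt (F : OGraph) (u v : Fin (F.n + 1)) (h : Ap F u v) : u < v := by
  rcases h with ⟨u', v', rfl, rfl, h, -⟩ | ⟨rfl, u', rfl, -⟩
  · exact Fin.castSucc_lt_castSucc_iff.2 h
  · exact Fin.castSucc_lt_last u'

theorem homFree_Ap (F : OGraph) {V : Type} (D : V → V → Prop) (h : HomFree (Ap F) D) :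
    (∀ a b, ¬ D a b) ∨ HomFree (fun u v : Fin F.n => u < v ∧ F.G.Adj u v) D := by
  classical
  by_contra hc
  rw [not_or] at hc
  obtain ⟨h1, h2⟩ := hc
  push Not at h1
  obtain ⟨a, b, hab⟩ := h1
  obtain ⟨φ, hφ⟩ := not_not.1 h2
  refine h ⟨Fin.lastCases b fun u => if ∀ w, ¬ F.G.Adj u w then a else φ u, ?_⟩
  rintro _ _ (⟨u, v, rfl, rfl, h3, h4⟩ | ⟨rfl, u, rfl, h3⟩)
  · simp only [Fin.lastCases_castSucc]
    rw [if_neg fun h5 => h5 v h4, if_neg fun h5 => h5 u h4.symm]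
    exact hφ u v ⟨h3, h4⟩
  · simp only [Fin.lastCases_castSucc, Fin.lastCases_last]
    rw [if_pos h3]
    exact hab

theorem sum_lex {α β : Type} [Fintype α] [Fintype β] (f : α ×ₗ β → ℝ) :
    ∑ x, f x = ∑ a, ∑ b, f (toLex (a, b)) := by
  rw [← Fintype.sum_prod_type' (fun a b => f (toLex (a, b)))]
  exact (Fintype.sum_equiv toLex _ _ fun _ => rfl).symm

theorem sum_lex2 {α β : Type} [Fintype α] [Fintype β] (f : α ×ₗ β → α ×ₗ β → ℝ) :
    ∑ x, ∑ y, f x y = ∑ a, ∑ b, ∑ p, ∑ q, f (toLex (a, p)) (toLex (b, q)) := by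
  rw [sum_lex]
  refine sum_congr rfl fun a _ => ?_
  rw [sum_comm (s := univ) (t := univ) (f := fun b p => ∑ q, f (toLex (a, p)) (toLex (b, q)))]
  exact sum_congr rfl fun p _ => sum_lex _

/-- The weights on pairs of points. -/
noncomputable def om {n : ℕ} (ψ : Fin n → Fin n → ℝ) (p q : Fin n) : ℝ :=
  if p = q then 0 else ((1 - 1 / 4096) + 1 / 4096 * ψ p q) / (n : ℝ) ^ 2

variable {n : ℕ} {ψ : Fin n → Fin n → ℝ} {η : ℝ}

theorem om_nonneg (h : Samp ψ η) (p q : Fin n) : 0 ≤ om ψ p q := by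
  have := h.nonneg p q
  unfold om
  split_ifs
  · exact le_rfl
  · positivity

theorem om_le (h : Samp ψ η) (p q : Fin n) :
    om ψ p q ≤ ((1 - 1 / 4096) + 1 / 4096 * ψ p q) / (n : ℝ) ^ 2 := by
  have := h.nonneg p q
  unfold om
  split_ifs
  · positivity
  · exact le_rfl

theorem om_sum (h : Samp ψ η) (h0 : ∀ y, ψ y y = 0) (hn : 0 < n) (hη : 0 ≤ η) :
    1 - η - 1 / (n : ℝ) ≤ ∑ p, ∑ q, om ψ p q := by
  have hn' : (0 : ℝ) < n := by exact_mod_cast hn
  have h1 : ∀ p q, om ψ p q = ((1 - 1 / 4096) + 1 / 4096 * ψ p q) / (n : ℝ) ^ 2 -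
      if p = q then (1 - 1 / 4096) / (n : ℝ) ^ 2 else 0 := by
    intro p q
    unfold om
    split_ifs with hpq
    · rw [hpq, h0]
      ring
    · ring
  have h2 := h.one (fun _ => 1) fun _ => ⟨zero_le_one, le_rfl⟩
  simp only [mul_one, sum_const, card_univ, Fintype.card_fin, nsmul_eq_mul] at h2
  have h3 : (n : ℝ) * n - ∑ y, ∑ z, ψ y z ≤ η * (n : ℝ) ^ 2 := by
    refine le_trans ?_ h2
    have : (n : ℝ) * n - ∑ y, ∑ z, ψ y z = ∑ y : Fin n, ((n : ℝ) - ∑ z, ψ y z) := by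
      rw [sum_sub_distrib]
      simp
    rw [this]
    exact sum_le_sum fun y _ => by rw [abs_sub_comm]; exact le_abs_self _
  simp only [h1, sum_sub_distrib, sum_ite_eq, mem_univ, if_true, ← sum_div, sum_add_distrib,
    ← mul_sum, sum_const, card_univ, Fintype.card_fin, nsmul_eq_mul]
  rw [← sub_div, le_div_iff₀ (by positivity)]
  have h4 : 1 / (n : ℝ) * (n : ℝ) ^ 2 = n := by field_simp
  nlinarith [mul_nonneg hη (sq_nonneg (n : ℝ))]

open Classical in
theorem om_zero (h : Samp ψ η) (hn : 0 < n) :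
    ∑ p, ∑ q, (if ψ p q = 0 then om ψ p q else 0) ≤ 1 - 1 / 4096 := by
  have hn' : (0 : ℝ) < n := by exact_mod_cast hn
  have h1 : ∀ p q, (if ψ p q = 0 then om ψ p q else 0) ≤ (1 - 1 / 4096) / (n : ℝ) ^ 2 := by
    intro p q
    split_ifs with hpq
    · have := om_le h p q
      rwa [hpq, mul_zero, add_zero] at this
    · positivity
  refine (sum_le_sum fun p _ => sum_le_sum fun q _ => h1 p q).trans (le_of_eq ?_)
  simp only [sum_const, card_univ, Fintype.card_fin, nsmul_eq_mul]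
  field_simp

open Classical in
theorem card_lt (k : ℕ) :
    ((univ.filter fun uv : Fin k × Fin k => uv.1 < uv.2).card : ℝ) = k * (k - 1) / 2 := by
  rw [← K_e k, OGraph.e, Lift.ncard_edgeSet]
  congr 2
  exact filter_congr fun uv _ => ⟨fun h => ⟨h, h.ne⟩, fun h => h.1⟩

open Classical in
theorem ncard_sub {m : ℕ} {G : SimpleGraph (Fin m)} (G' : G.Subgraph) : G'.edgeSet.ncard =
    (univ.filter fun uv : Fin m × Fin m =>
      uv.1 < uv.2 ∧ G.Adj uv.1 uv.2 ∧ G'.Adj uv.1 uv.2).card := by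
  have h : G'.edgeSet = G'.spanningCoe.edgeSet := by
    ext e
    induction e using Sym2.ind with
    | _ u v => rfl
  rw [h, Lift.ncard_edgeSet]
  congr 1
  ext uv
  simp only [mem_filter, mem_univ, true_and, SimpleGraph.Subgraph.spanningCoe_adj]
  exact ⟨fun h => ⟨h.1, G'.adj_sub h.2, h.2⟩, fun h => ⟨h.1, h.2.2⟩⟩

open Classical in
theorem om_pattern (F : OGraph) {e : ℝ} (he : 0 < e) (h : Samp ψ η) (hn : 0 < n)
    (hkey : ∀ (D : Fin n → Fin n → Prop) (ρ : ℝ), (∀ ν : Fin n → ℝ, (∀ y, 0 ≤ ν y) →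
        ∑ y, ∑ z, ν y * ν z * (if D y z then 1 else 0) ≤ ρ * (∑ y, ν y) ^ 2) →
      ∑ y, ∑ z, (if D y z then (1 - 1 / 4096) + 1 / 4096 * ψ y z else 0)
        ≤ (ρ + 2 * e) * (n : ℝ) ^ 2)
    (D : Fin n → Fin n → Prop) (hD : HomFree (Ap F) D) :
    ∑ p, ∑ q, (if D p q then om ψ p q else 0) ≤ rho F + 2 * e := by
  have hn' : (0 : ℝ) < n := by exact_mod_cast hn
  rcases homFree_Ap F D hD with h1 | h1
  · simp only [h1, if_false, sum_const_zero]
    have := rho_nonneg F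
    positivity
  · have h2 := hkey D (rho F) (lagr_le_rho F (Fin n) D h1)
    rw [← div_le_iff₀ (by positivity), sum_div] at h2
    refine le_trans (sum_le_sum fun p _ => ?_) h2
    rw [sum_div]
    refine sum_le_sum fun q _ => ?_
    split_ifs
    · exact om_le h p q
    · rw [zero_div]

theorem avoid_res {W : Type} {f : ℕ} (A : Fin f → Fin f → Prop) (k K : ℕ) (v : Fin k → Fin K)
    (hv : StrictMono v) (E : Str W K) (h : Avoid A E) : Avoid A (res v E) :=
  fun ⟨pos, pt, h1, h2⟩ => h ⟨fun u => v (pos u), pt, hv.comp h1, h2⟩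

open Classical in
theorem avoid_of_free {F G : OGraph} {G' : G.G.Subgraph} (h : Free F G G') {N : ℕ}
    (σ : Fin N ×ₗ Fin n → Fin G.n) (hσ : StrictMono σ) :
    Avoid (Ap F) (K := N) fun i p j q => decide (G'.Adj (σ (toLex (i, p))) (σ (toLex (j, q)))) := by
  rintro ⟨pos, pt, h1, h2⟩
  simp only [decide_eq_true_eq] at h2
  have h3 : ∀ u v, F.G.Adj u v → G'.Adj (σ (toLex (pos u.castSucc, pt u.castSucc)))
      (σ (toLex (pos v.castSucc, pt v.castSucc))) := by
    intro u v huv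
    rcases lt_or_gt_of_ne huv.ne with h4 | h4
    · exact h2 _ _ (Or.inl ⟨u, v, rfl, rfl, h4, huv⟩)
    · exact (h2 _ _ (Or.inl ⟨v, u, rfl, rfl, h4, huv.symm⟩)).symm
  refine h ⟨fun u => σ (toLex (pos u.castSucc, pt u.castSucc)), fun u v huv => hσ ?_, fun u => ?_,
    h3⟩
  · exact Prod.Lex.toLex_lt_toLex.2 (Or.inl (h1 (Fin.castSucc_lt_castSucc_iff.2 huv)))
  · by_cases h4 : ∀ w, ¬ F.G.Adj u w
    · exact G'.edge_vert (h2 _ _ (Or.inr ⟨rfl, u, rfl, h4⟩))
    · push Not at h4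
      obtain ⟨w, hw⟩ := h4
      exact G'.edge_vert (h3 u w hw)

theorem host_aux (hpos : PosThm) (k : ℕ) (hk : 400000 ≤ k) (ι : Type) [Fintype ι]
    (F : ι → OGraph) (ε : ℝ) (hε : 0 < ε) :
    ∃ G : OGraph, 1 ≤ G.e ∧ (∀ i, rhoIn (F i) G ≤ rho (F i) + ε) ∧
      ∀ Φ : PMF (Emb (K k) G), ∃ e ∈ G.G.edgeSet,
        (1 + 1 / 8192) * (((K k).e : ℝ) / G.e) ≤ hitProb Φ e := by
  classical
  obtain ⟨e, he0, he1, he2⟩ : ∃ e : ℝ, 0 < e ∧ e ≤ 1 / 100000 ∧ 7 * e ≤ ε :=
    ⟨min (1 / 100000) (ε / 7), by positivity, min_le_left _ _, by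
      have := min_le_right (1 / 100000) (ε / 7)
      linarith⟩
  obtain ⟨η, hη0, hηe, n0, hkey⟩ := key e he0
  obtain ⟨n1, hn1⟩ := exists_nat_gt (1 / e)
  obtain ⟨n, ψ, hn, hψ0, hψ, hcnt⟩ := exists_psi k η hη0 (max n0 n1)
  have hn1' : (n1 : ℝ) ≤ n := by exact_mod_cast (le_max_right _ _).trans hn
  have hn' : (0 : ℝ) < n := lt_of_lt_of_le (lt_trans (by positivity) hn1) hn1'
  have hn0 : 0 < n := by exact_mod_cast hn'
  have hinv : 1 / (n : ℝ) ≤ e := by
    rw [div_le_iff₀ hn']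
    rw [div_lt_iff₀ he0] at hn1
    nlinarith
  have hZ : 1 - 2 * e ≤ ∑ p, ∑ q, om ψ p q := by
    have := om_sum hψ hψ0 hn0 hη0.le
    linarith
  have hpat : ∀ i (D : Fin n → Fin n → Prop), HomFree (Ap (F i)) D →
      ∑ p, ∑ q, (if D p q then om ψ p q else 0) ≤ rho (F i) + 2 * e := fun i D hD => by
    have h1 := hkey (Fin n) ψ (by rw [Fintype.card_fin]; exact (le_max_left _ _).trans hn) hψ
    rw [Fintype.card_fin] at h1
    exact om_pattern (F i) he0 hψ hn0 h1 D hD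
  rcases dichotomy (Fin n) ι (fun i K E => Avoid (Ap (F i)) E)
    (fun i => avoid_res (Ap (F i)))
    (fun E => ∑ p, ∑ q, if E 0 p 1 q = true then om ψ p q else 0)
    (fun i => rho (F i) + 3 * e) with ⟨N, w, hw0, hwlt, hw1, hw⟩ | ⟨i, L, hL, hL'⟩
  swap
  · have := hpos (Fin n) _ (Ap (F i)) (Ap_lt (F i)) (om ψ) (om_nonneg hψ) (fun p => if_pos rfl)
      (rho (F i) + 2 * e) (by have := rho_nonneg (F i); positivity) (hpat i) L hL
    linarith
  let a : Fin N ×ₗ Fin n → Fin N ×ₗ Fin n → ℝ := fun x y =>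
    w (ofLex x).1 (ofLex y).1 * om ψ (ofLex x).2 (ofLex y).2
  have hsum : ∑ x, ∑ y, a x y = ∑ p, ∑ q, om ψ p q := by
    rw [sum_lex2]
    simp only [a, ofLex_toLex, ← mul_sum, ← sum_mul, hw1, one_mul]
  have hZ0 : 0 < ∑ p, ∑ q, om ψ p q := by linarith
  obtain ⟨m, G, π, hπ, hG, hadj, hlift⟩ := exists_lift (Fin N ×ₗ Fin n) a
    (fun x y => mul_nonneg (hw0 _ _) (om_nonneg hψ _ _))
    (fun x y h => Prod.Lex.lt_iff.2 (Or.inl (hwlt _ _ (left_ne_zero_of_mul h))))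
    (hsum ▸ hZ0) e he0
  rw [hsum] at hlift
  have hG' : (0 : ℝ) < G.edgeSet.ncard := by exact_mod_cast hG
  refine ⟨⟨m, G⟩, hG, fun i => ?_, fun Φ => ?_⟩
  · have h0 := rho_nonneg (F i)
    have h1 := rho_le_one (F i)
    refine Real.sSup_le ?_ (by positivity)
    rintro _ ⟨G', hfree, rfl⟩
    obtain ⟨σ, hσ, h2⟩ := hlift G'.Adj
    have hσ' : StrictMono σ := fun x y hxy => by
      by_contra h3
      have := hπ (not_lt.1 h3)
      rw [hσ, hσ] at this
      exact absurd hxy this.not_gt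
    have h3 := hw i _ (avoid_of_free hfree σ hσ')
    have h4 : (∑ x, ∑ y, if G'.Adj (σ x) (σ y) then a x y else 0) ≤ rho (F i) + 3 * e := by
      refine le_trans (le_of_eq ?_) h3
      rw [sum_lex2]
      refine sum_congr rfl fun x _ => sum_congr rfl fun y _ => ?_
      rw [mul_sum]
      refine sum_congr rfl fun p _ => ?_
      rw [mul_sum]
      refine sum_congr rfl fun q _ => ?_
      change (if G'.Adj (σ (toLex (x, p))) (σ (toLex (y, q))) then w x y * om ψ p q else 0) =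
        w x y * if decide (G'.Adj (σ (toLex (x, p))) (σ (toLex (y, q)))) = true then om ψ p q
          else 0
      by_cases h5 : G'.Adj (σ (toLex (x, p))) (σ (toLex (y, q)))
      · rw [if_pos h5, if_pos (decide_eq_true h5)]
      · rw [if_neg h5, if_neg fun h6 => h5 (of_decide_eq_true h6), mul_zero]
    have h5 : (∑ x, ∑ y, if G'.Adj (σ x) (σ y) then a x y else 0) / ∑ p, ∑ q, om ψ p q ≤
        rho (F i) + 6 * e := by
      rw [div_le_iff₀ hZ0]
      nlinarith [mul_le_mul_of_nonneg_left hZ (show 0 ≤ rho (F i) + 6 * e by positivity)]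
    rw [ncard_sub G']
    refine le_trans (le_of_eq ?_) (h2.trans (by linarith))
    rfl
  · obtain ⟨σ, hσ, h2⟩ := hlift fun u v => ψ (ofLex (π u)).2 (ofLex (π v)).2 = 0
    have h3 : (∑ x, ∑ y, if ψ (ofLex (π (σ x))).2 (ofLex (π (σ y))).2 = 0 then a x y else 0)
        ≤ 1 - 1 / 4096 := by
      rw [sum_lex2]
      simp only [hσ, a, ofLex_toLex]
      calc _ = ∑ x, ∑ y, w x y * ∑ p, ∑ q, (if ψ p q = 0 then om ψ p q else 0) := by
            simp only [mul_sum, mul_ite, mul_zero]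
        _ ≤ ∑ x, ∑ y, w x y * (1 - 1 / 4096) := sum_le_sum fun x _ => sum_le_sum fun y _ =>
            mul_le_mul_of_nonneg_left (om_zero hψ hn0) (hw0 x y)
        _ = _ := by simp only [← sum_mul, hw1, one_mul]
    have h4 : (∑ x, ∑ y, if ψ (ofLex (π (σ x))).2 (ofLex (π (σ y))).2 = 0 then a x y else 0) /
        ∑ p, ∑ q, om ψ p q ≤ 1 - 3 / 16384 - e := by
      rw [div_le_iff₀ hZ0]
      nlinarith [mul_le_mul_of_nonneg_left hZ (show 0 ≤ 1 - 3 / 16384 - e by linarith)]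
    have hk' : (400000 : ℝ) ≤ k := by exact_mod_cast hk
    obtain ⟨ed, h5, h6⟩ := hit_of_many ⟨m, G⟩ k
      (fun u v => ψ (ofLex (π u)).2 (ofLex (π v)).2 = 0)
      ((1 - 1 / 16384) * (k * (k - 1) / 2)) ((1 - 3 / 16384) * G.edgeSet.ncard)
      (mul_pos (by norm_num) (div_pos (mul_pos (by linarith) (by linarith)) two_pos))
      (fun φ => by
        have h7 : ∀ u v : Fin k, u < v → (ofLex (π (φ.1 u))).2 ≠ (ofLex (π (φ.1 v))).2 := by
          intro u v huv h8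
          refine right_ne_zero_of_mul (hadj _ _ (φ.2.2 u v huv.ne) (φ.2.1 huv)) ?_
          exact if_pos h8
        have h8 := hcnt (fun u => (ofLex (π (φ.1 u))).2) fun u v h9 => by
          by_contra h10
          rcases lt_or_gt_of_ne h10 with h11 | h11
          · exact h7 u v h11 h9
          · exact h7 v u h11 h9.symm
        have h9 := card_filter_add_card_filter_not
          (s := univ.filter fun uv : Fin k × Fin k => uv.1 < uv.2)
          (fun uv => ψ (ofLex (π (φ.1 uv.1))).2 (ofLex (π (φ.1 uv.2))).2 = 0)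
        rw [filter_filter, filter_filter] at h9
        have h10 := congrArg (Nat.cast : ℕ → ℝ) h9
        rw [card_lt, Nat.cast_add] at h10
        have h11 : ((univ.filter fun uv : Fin k × Fin k => uv.1 < uv.2 ∧
            ¬ ψ (ofLex (π (φ.1 uv.1))).2 (ofLex (π (φ.1 uv.2))).2 = 0).card : ℝ) ≤ 12 * k := by
          exact_mod_cast h8
        nlinarith)
      (by
        rw [← div_le_iff₀ hG']
        refine le_trans (le_of_eq ?_) (h2.trans (by linarith))
        rfl) Φ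
    refine ⟨ed, h5, le_trans ?_ h6⟩
    rw [K_e]
    change (1 + 1 / 8192) * ((k * (k - 1) / 2 : ℝ) / G.edgeSet.ncard) ≤ _
    rw [mul_div_mul_comm]
    refine mul_le_mul_of_nonneg_right (by norm_num) (div_nonneg ?_ hG'.le)
    exact div_nonneg (mul_nonneg (by linarith) (by linarith)) zero_le_two

end Fnl

theorem host (hpos : PosThm) (ι : Type) [Fintype ι] (F : ι → OGraph) (ε : ℝ) (hε : 0 < ε) :
    ∃ G : OGraph, 1 ≤ G.e ∧ (∀ i, rhoIn (F i) G ≤ rho (F i) + ε) ∧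
      ∀ Φ : PMF (Emb (K 400000) G), ∃ e ∈ G.G.edgeSet,
        (1 + 1 / 8192) * (((K 400000).e : ℝ) / G.e) ≤ hitProb Φ e :=
  Fnl.host_aux hpos 400000 le_rfl ι F ε hε

theorem main_of_pos (hpos : PosThm) :
    ∃ G : ℕ → OGraph, Universal G ∧ (∀ᶠ n in atTop, Nonempty (Emb (K 400000) (G n))) ∧
      ∀ (n : ℕ) (Φ : PMF (Emb (K 400000) (G n))), ∃ e ∈ (G n).G.edgeSet,
        (1 + 1 / 8192) * (((K 400000).e : ℝ) / (G n).e) ≤ hitProb Φ e := by
  classical
  have h := fun n : ℕ => host hpos ((j : Fin (n + 1)) × SimpleGraph (Fin j))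
    (fun x => ⟨x.1, x.2⟩) (1 / ((n : ℝ) + 1)) (by positivity)
  choose G h1 h2 h3 using h
  have hU : Universal G := by
    refine ⟨h1, fun F => ?_⟩
    have h4 : Tendsto (fun n : ℕ => rho F + 1 / ((n : ℝ) + 1)) atTop (𝓝 (rho F)) := by
      simpa using (tendsto_const_nhds (x := rho F)).add
        (tendsto_one_div_add_atTop_nhds_zero_nat (𝕜 := ℝ))
    refine tendsto_of_tendsto_of_tendsto_of_le_of_le' tendsto_const_nhds h4
      (Eventually.of_forall fun n => rho_le_rhoIn F (G n) (h1 n)) ?_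
    filter_upwards [eventually_ge_atTop F.n] with n hn
    exact h2 n ⟨⟨F.n, Nat.lt_succ_of_le hn⟩, F.G⟩
  exact ⟨G, hU, eventually_clique hU 399998, h3⟩

end Pool.Agent.Lib.MP_37b92f_co
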