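import Pool.Agent.Lib.MP_37b92f_co.Basic

set_option autoImplicit false

namespace Pool.Agent.Lib.MP_37b92f_co

open Finset

section Reg

variable {W : Type} [Fintype W]

/-- The cell of a labelling. -/
def cell {T : Type} [DecidableEq T] (σ : W → T) (a : T) : Finset W := univ.filter (σ · = a)

open Classical in
/-- Density of a relation between two cells. -/
noncomputable def dens {T : Type} [DecidableEq T] (g : W → W → Prop) (σ : W → T) (a b : T) : ℝ :=
  cond (fun _ : W × W => 1) (fun p => (σ p.1, σ p.2)) (fun p => if g p.1 p.2 then 1 else 0) (a, b)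

open Classical in
theorem dens_mem {T : Type} [DecidableEq T] (g : W → W → Prop) (σ : W → T) (a b : T) :
    0 ≤ dens g σ a b ∧ dens g σ a b ≤ 1 :=
  cond_mem (fun _ => zero_le_one) _ (fun p => by split_ifs <;> norm_num) _

open Classical in
theorem dens_orth {T : Type} [Fintype T] [DecidableEq T] (g : W → W → Prop) (σ : W → T)
    (u : T → T → ℝ) :
    ∑ y, ∑ z, ((if g y z then 1 else 0) - dens g σ (σ y) (σ z)) * u (σ y) (σ z) = 0 := by
  have := cond_orth (μ := fun _ : W × W => (1 : ℝ)) (fun _ => zero_le_one)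
    (fun p => (σ p.1, σ p.2)) (fun p => if g p.1 p.2 then 1 else 0) (fun t => u t.1 t.2)
  rw [Fintype.sum_prod_type] at this
  simpa [dens] using this

/-- Energy of a labelling for one relation. -/
noncomputable def energy {T : Type} [DecidableEq T] (g : W → W → Prop) (σ : W → T) : ℝ :=
  ∑ y, ∑ z, dens g σ (σ y) (σ z) ^ 2

theorem energy_le {T : Type} [DecidableEq T] (g : W → W → Prop) (σ : W → T) :
    energy g σ ≤ (Fintype.card W : ℝ) ^ 2 := by
  have : energy g σ ≤ ∑ _y : W, ∑ _z : W, (1 : ℝ) :=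
    sum_le_sum fun y _ => sum_le_sum fun z _ =>
      pow_le_one₀ (dens_mem g σ _ _).1 (dens_mem g σ _ _).2
  simpa [sq] using this

theorem energy_nonneg {T : Type} [DecidableEq T] (g : W → W → Prop) (σ : W → T) :
    0 ≤ energy g σ := sum_nonneg fun _ _ => sum_nonneg fun _ _ => sq_nonneg _

open Classical in
theorem energy_sub {T T' : Type} [Fintype T] [DecidableEq T] [Fintype T'] [DecidableEq T']
    (g : W → W → Prop) (σ' : W → T') (ρ : T' → T) :
    energy g σ' - energy g (ρ ∘ σ')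
      = ∑ y, ∑ z, (dens g σ' (σ' y) (σ' z) - dens g (ρ ∘ σ') (ρ (σ' y)) (ρ (σ' z))) ^ 2 := by
  have h1 := dens_orth g σ' (fun a b => dens g (ρ ∘ σ') (ρ a) (ρ b))
  have h2 := dens_orth g (ρ ∘ σ') (fun a b => dens g (ρ ∘ σ') a b)
  have h3 : ∑ y, ∑ z, (dens g σ' (σ' y) (σ' z) - dens g (ρ ∘ σ') (ρ (σ' y)) (ρ (σ' z))) ^ 2
      = energy g σ' - energy g (ρ ∘ σ')
        + 2 * ∑ y, ∑ z, ((if g y z then 1 else 0) - dens g σ' (σ' y) (σ' z))
            * dens g (ρ ∘ σ') (ρ (σ' y)) (ρ (σ' z))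
        - 2 * ∑ y, ∑ z, ((if g y z then 1 else 0) - dens g (ρ ∘ σ') ((ρ ∘ σ') y) ((ρ ∘ σ') z))
            * dens g (ρ ∘ σ') ((ρ ∘ σ') y) ((ρ ∘ σ') z) := by
    simp only [energy, mul_sum, ← sum_sub_distrib, ← sum_add_distrib, Function.comp]
    exact sum_congr rfl fun y _ => sum_congr rfl fun z _ => by ring
  rw [h3, h1, h2]
  ring

open Classical in
/-- Number of pairs of points lying in an irregular pair of cells. -/
noncomputable def irr {T : Type} [DecidableEq T] (g : W → W → Prop) (σ : W → T) (θ : ℝ) : ℝ :=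
  ∑ y, ∑ z, if LowReg g (cell σ (σ y)) (cell σ (σ z)) (dens g σ (σ y) (σ z)) θ then 0 else 1

theorem sum_cells {T : Type} [Fintype T] [DecidableEq T] (σ : W → T) (F : W → ℝ) :
    ∑ y, F y = ∑ a, ∑ y ∈ cell σ a, F y := (sum_fiberwise univ σ F).symm

theorem sum_cells₂ {T : Type} [Fintype T] [DecidableEq T] (σ : W → T) (F : W → W → ℝ) :
    ∑ y, ∑ z, F y z = ∑ a, ∑ b, ∑ y ∈ cell σ a, ∑ z ∈ cell σ b, F y z := by
  rw [sum_cells σ]
  refine sum_congr rfl fun a _ => ?_
  rw [sum_comm (s := univ) (t := cell σ a)]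
  exact sum_congr rfl fun y _ => sum_cells σ _

theorem mem_cell {T : Type} [DecidableEq T] {σ : W → T} {a : T} {y : W} :
    y ∈ cell σ a ↔ σ y = a := by simp [cell]

open Classical in
theorem refine_step {T : Type} [Fintype T] [DecidableEq T] (g : W → W → Prop) (σ : W → T)
    (θ η : ℝ) (hθ : 0 < θ) (hη : 0 < η) (h : η * (Fintype.card W : ℝ) ^ 2 < irr g σ θ) :
    ∃ σ' : W → T × (T → Bool) × (T → Bool), Prod.fst ∘ σ' = σ ∧
      energy g σ + (θ * η) ^ 2 * (Fintype.card W : ℝ) ^ 2 ≤ energy g σ' := by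
  have hw : ∀ a b : T, ∃ A B : Finset W, A ⊆ cell σ a ∧ B ⊆ cell σ b ∧
      θ * (cell σ a).card * (cell σ b).card
          * (if LowReg g (cell σ a) (cell σ b) (dens g σ a b) θ then 0 else 1)
        ≤ ∑ i ∈ A, ∑ j ∈ B, (dens g σ a b - if g i j then (1 : ℝ) else 0) := by
    intro a b
    by_cases hr : LowReg g (cell σ a) (cell σ b) (dens g σ a b) θ
    · exact ⟨∅, ∅, empty_subset _, empty_subset _, by simp [hr]⟩
    · have hr' := hr
      unfold LowReg at hr'
      push Not at hr'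
      obtain ⟨A, hA, B, hB, hlt⟩ := hr'
      refine ⟨A, B, hA, hB, ?_⟩
      simp only [hr, if_false, mul_one, sum_sub_distrib, sum_const, nsmul_eq_mul]
      linarith
  choose A B hA hB hAB using hw
  let σ' : W → T × (T → Bool) × (T → Bool) := fun y =>
    (σ y, fun b => decide (y ∈ A (σ y) b), fun a => decide (y ∈ B a (σ y)))
  have hσ : Prod.fst ∘ σ' = σ := rfl
  refine ⟨σ', hσ, ?_⟩
  let u : T × (T → Bool) × (T → Bool) → T × (T → Bool) × (T → Bool) → ℝ := fun s t =>
    if s.2.1 t.1 = true ∧ t.2.2 s.1 = true then 1 else 0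
  have hu : ∀ y z, u (σ' y) (σ' z) = if y ∈ A (σ y) (σ z) ∧ z ∈ B (σ y) (σ z) then 1 else 0 := by
    intro y z
    simp [u, σ']
  have h1 := dens_orth g σ' u
  have h2 : θ * irr g σ θ
      ≤ ∑ y, ∑ z, (dens g σ (σ y) (σ z) - if g y z then (1 : ℝ) else 0) * u (σ' y) (σ' z) := by
    rw [irr, sum_cells₂ σ, sum_cells₂ σ, mul_sum]
    refine sum_le_sum fun a _ => ?_
    rw [mul_sum]
    refine sum_le_sum fun b _ => ?_
    have e1 : ∑ y ∈ cell σ a, ∑ z ∈ cell σ b,
        (if LowReg g (cell σ (σ y)) (cell σ (σ z)) (dens g σ (σ y) (σ z)) θ then (0 : ℝ) else 1)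
        = (cell σ a).card * (cell σ b).card
          * (if LowReg g (cell σ a) (cell σ b) (dens g σ a b) θ then 0 else 1) := by
      rw [sum_congr rfl fun y hy => sum_congr rfl fun z hz => by
        rw [mem_cell.mp hy, mem_cell.mp hz]]
      simp only [sum_const, nsmul_eq_mul]
      ring
    have e2 : ∑ y ∈ cell σ a, ∑ z ∈ cell σ b,
        (dens g σ (σ y) (σ z) - if g y z then (1 : ℝ) else 0) * u (σ' y) (σ' z)
        = ∑ i ∈ A a b, ∑ j ∈ B a b, (dens g σ a b - if g i j then (1 : ℝ) else 0) := by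
      rw [sum_congr rfl fun y hy => sum_congr rfl fun z hz => by
        rw [hu, mem_cell.mp hy, mem_cell.mp hz]]
      rw [← sum_subset (hA a b) (fun y _ hy => by simp [hy])]
      refine sum_congr rfl fun y hy => ?_
      rw [← sum_subset (hB a b) (fun z _ hz => by simp [hz])]
      exact sum_congr rfl fun z hz => by simp [hy, hz]
    rw [e1, e2]
    have := hAB a b
    linarith [this]
  have h3 : ∑ y, ∑ z, (dens g σ (σ y) (σ z) - if g y z then (1 : ℝ) else 0) * u (σ' y) (σ' z)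
      = ∑ p : W × W, (dens g σ (σ p.1) (σ p.2) - dens g σ' (σ' p.1) (σ' p.2))
          * u (σ' p.1) (σ' p.2) := by
    rw [Fintype.sum_prod_type]
    refine (add_zero _).symm.trans (Eq.trans (congrArg _ h1.symm) ?_)
    rw [← sum_add_distrib]
    refine sum_congr rfl fun y _ => ?_
    rw [← sum_add_distrib]
    exact sum_congr rfl fun z _ => by ring
  have h4 := sum_mul_sq_le_sq_mul_sq univ
    (fun p : W × W => dens g σ (σ p.1) (σ p.2) - dens g σ' (σ' p.1) (σ' p.2))
    (fun p => u (σ' p.1) (σ' p.2))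
  have h5 : ∑ p : W × W, u (σ' p.1) (σ' p.2) ^ 2 ≤ (Fintype.card W : ℝ) ^ 2 := by
    have : ∑ p : W × W, u (σ' p.1) (σ' p.2) ^ 2 ≤ ∑ _p : W × W, (1 : ℝ) :=
      sum_le_sum fun p _ => by rw [hu]; split_ifs <;> norm_num
    simpa [sq] using this
  have h6 : ∑ p : W × W, (dens g σ (σ p.1) (σ p.2) - dens g σ' (σ' p.1) (σ' p.2)) ^ 2
      = energy g σ' - energy g σ := by
    have := energy_sub g σ' Prod.fst
    rw [hσ] at this
    rw [this, Fintype.sum_prod_type]
    exact sum_congr rfl fun y _ => sum_congr rfl fun z _ => by simp only [σ']; ring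
  have hn : (0 : ℝ) < (Fintype.card W : ℝ) ^ 2 := by
    have : irr g σ θ ≤ ∑ _y : W, ∑ _z : W, (1 : ℝ) :=
      sum_le_sum fun y _ => sum_le_sum fun z _ => by split_ifs <;> norm_num
    simp only [sum_const, card_univ, nsmul_eq_mul, mul_one] at this
    rcases (sq_nonneg (Fintype.card W : ℝ)).eq_or_lt with h0 | h0
    · rw [← h0] at h
      nlinarith
    · exact h0
  set N := (Fintype.card W : ℝ) ^ 2
  set Δ := energy g σ' - energy g σ
  have hΔ : 0 ≤ Δ := h6 ▸ sum_nonneg fun _ _ => sq_nonneg _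
  rw [h6, ← h3] at h4
  have h7 : θ * (η * N) ≤ ∑ y, ∑ z,
      (dens g σ (σ y) (σ z) - if g y z then (1 : ℝ) else 0) * u (σ' y) (σ' z) :=
    (mul_le_mul_of_nonneg_left h.le hθ.le).trans h2
  have h8 : (θ * (η * N)) ^ 2 ≤ Δ * N :=
    ((pow_le_pow_left₀ (by positivity) h7 2).trans h4).trans (mul_le_mul_of_nonneg_left h5 hΔ)
  have h9 : (θ * η) ^ 2 * N ≤ Δ := by
    refine le_of_mul_le_mul_right ?_ hn
    nlinarith
  simp only [Δ] at h9
  linarith

end Reg

theorem regularity_aux (θ η : ℝ) (hθ : 0 < θ) (hη : 0 < η) (j : ℕ) : ∀ t : ℕ, ∃ R : ℕ,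
    ∀ (W : Type) [Fintype W] (g₀ g₁ : W → W → Prop) (T : Type) [Fintype T] [DecidableEq T]
      (σ : W → T), Fintype.card T ≤ t →
      (2 - j * (θ * η) ^ 2) * (Fintype.card W : ℝ) ^ 2 < energy g₀ σ + energy g₁ σ →
      ∃ (T' : Type) (_ : Fintype T') (_ : DecidableEq T') (σ' : W → T'), Fintype.card T' ≤ R ∧
        irr g₀ σ' θ ≤ η * (Fintype.card W : ℝ) ^ 2 ∧ irr g₁ σ' θ ≤ η * (Fintype.card W : ℝ) ^ 2 := by
  induction j with
  | zero =>
    intro t
    refine ⟨0, fun W _ g₀ g₁ T _ _ σ _ h => ?_⟩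
    have := energy_le g₀ σ
    have := energy_le g₁ σ
    simp only [Nat.cast_zero, zero_mul, sub_zero] at h
    linarith
  | succ j ih =>
    intro t
    obtain ⟨R, hR⟩ := ih (t * (2 ^ t * 2 ^ t))
    refine ⟨max t R, fun W _ g₀ g₁ T _ _ σ ht h => ?_⟩
    have hcard : Fintype.card (T × (T → Bool) × (T → Bool)) ≤ t * (2 ^ t * 2 ^ t) := by
      simp only [Fintype.card_prod, Fintype.card_fun, Fintype.card_bool]
      have := Nat.pow_le_pow_right (by norm_num : 0 < 2) ht
      exact Nat.mul_le_mul ht (Nat.mul_le_mul this this)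
    have hmono : ∀ (g : W → W → Prop) (σ' : W → T × (T → Bool) × (T → Bool)),
        Prod.fst ∘ σ' = σ → energy g σ ≤ energy g σ' := by
      intro g σ' hσ
      have := energy_sub g σ' Prod.fst
      rw [hσ] at this
      have h0 : 0 ≤ energy g σ' - energy g σ :=
        this ▸ sum_nonneg fun _ _ => sum_nonneg fun _ _ => sq_nonneg _
      linarith
    by_cases h0 : irr g₀ σ θ ≤ η * (Fintype.card W : ℝ) ^ 2
    · by_cases h1 : irr g₁ σ θ ≤ η * (Fintype.card W : ℝ) ^ 2
      · exact ⟨T, inferInstance, inferInstance, σ, ht.trans (le_max_left _ _), h0, h1⟩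
      · obtain ⟨σ', hσ, hinc⟩ := refine_step g₁ σ θ η hθ hη (not_le.mp h1)
        obtain ⟨T', i1, i2, σ'', h2, h3⟩ := hR W g₀ g₁ _ σ' hcard (by
          have := hmono g₀ σ' hσ
          push_cast at h
          linarith)
        exact ⟨T', i1, i2, σ'', h2.trans (le_max_right _ _), h3⟩
    · obtain ⟨σ', hσ, hinc⟩ := refine_step g₀ σ θ η hθ hη (not_le.mp h0)
      obtain ⟨T', i1, i2, σ'', h2, h3⟩ := hR W g₀ g₁ _ σ' hcard (by
        have := hmono g₁ σ' hσ
        push_cast at h
        linarith)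
      exact ⟨T', i1, i2, σ'', h2.trans (le_max_right _ _), h3⟩

/-- Regularity lemma for two relations. -/
theorem regularity (θ η : ℝ) (hθ : 0 < θ) (hη : 0 < η) : ∃ R : ℕ,
    ∀ (W : Type) [Fintype W] (g₀ g₁ : W → W → Prop), 0 < Fintype.card W →
      ∃ (T : Type) (_ : Fintype T) (_ : DecidableEq T) (σ : W → T), Fintype.card T ≤ R ∧
        irr g₀ σ θ ≤ η * (Fintype.card W : ℝ) ^ 2 ∧ irr g₁ σ θ ≤ η * (Fintype.card W : ℝ) ^ 2 := by
  obtain ⟨j, hj⟩ := exists_nat_gt (2 / (θ * η) ^ 2)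
  obtain ⟨R, hR⟩ := regularity_aux θ η hθ hη j 1
  refine ⟨R, fun W _ g₀ g₁ hW => hR W g₀ g₁ Unit (fun _ => ()) (by simp) ?_⟩
  have h1 : 2 < j * (θ * η) ^ 2 := by rwa [div_lt_iff₀ (by positivity)] at hj
  have h2 : (0 : ℝ) < (Fintype.card W : ℝ) ^ 2 := by positivity
  have := energy_nonneg g₀ (fun _ : W => ())
  have := energy_nonneg g₁ (fun _ : W => ())
  nlinarith

/-- Bilinear form of a kernel. -/
def Q {W : Type} [Fintype W] (K : W → W → ℝ) (ν ν' : W → ℝ) : ℝ := ∑ y, ∑ z, ν y * ν' z * K y z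

open Classical in
theorem LowReg.symm {V : Type*} {g : V → V → Prop} (hg : ∀ i j, g i j ↔ g j i) {P P' : Finset V}
    {γ θ : ℝ} (h : LowReg g P P' γ θ) : LowReg g P' P γ θ := by
  intro A hA B hB
  have := h B hB A hA
  rw [sum_comm] at this
  simp_rw [hg] at this ⊢
  linarith

open Classical in
theorem LowReg.mono {V : Type*} {g : V → V → Prop} {P P' : Finset V} {γ γ' θ : ℝ}
    (h : LowReg g P P' γ θ) (hγ : γ' ≤ γ) : LowReg g P P' γ' θ := by
  intro A hA B hB
  refine le_trans ?_ (h A hA B hB)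
  have : γ' * A.card * B.card ≤ γ * A.card * B.card := by gcongr
  linarith

open Classical in
theorem few_bad {W T : Type} [Fintype W] [Fintype T] [DecidableEq T] (g : W → W → Prop) (σ : W → T)
    (γ θ : ℝ) (hγ : 0 ≤ γ) :
    ∑ y, ∑ z, (if g y z ∧ ¬ LowReg g (cell σ (σ y)) (cell σ (σ z)) γ θ then (1 : ℝ) else 0)
      ≤ γ * (Fintype.card W : ℝ) ^ 2 + irr g σ θ := by
  have h1 := dens_orth g σ (fun a b => if dens g σ a b < γ then 1 else 0)
  have h2 : γ * (Fintype.card W : ℝ) ^ 2 = ∑ _y : W, ∑ _z : W, γ := by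
    simp only [sum_const, card_univ, nsmul_eq_mul]
    ring
  have h3 : ∑ _y : W, ∑ _z : W, γ = ∑ _y : W, ∑ _z : W, γ + ∑ y, ∑ z,
      ((if g y z then 1 else 0) - dens g σ (σ y) (σ z))
        * if dens g σ (σ y) (σ z) < γ then 1 else 0 := by rw [h1, add_zero]
  rw [h2, h3, irr, ← sum_add_distrib, ← sum_add_distrib]
  refine sum_le_sum fun y _ => ?_
  rw [← sum_add_distrib, ← sum_add_distrib]
  refine sum_le_sum fun z _ => ?_
  have hd := dens_mem g σ (σ y) (σ z)
  by_cases hlt : dens g σ (σ y) (σ z) < γ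
  · simp only [hlt, if_true]
    split_ifs <;> first | linarith | (exfalso; tauto)
  · simp only [hlt, if_false, mul_zero, add_zero]
    by_cases hr : LowReg g (cell σ (σ y)) (cell σ (σ z)) (dens g σ (σ y) (σ z)) θ
    · have := hr.mono (not_lt.mp hlt)
      simp [hr, this, hγ]
    · simp only [hr, if_false]
      split_ifs <;> linarith

theorem ite_aux {x : ℝ} (hx : x = 0 ∨ x = 1 / 2 ∨ x = 1) {p q : Prop} {_ : Decidable p}
    {_ : Decidable q} {_ : Decidable (x < if p then 0 else if q then 1 / 2 else 1)}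
    {_ : Decidable (x ≤ 0 ∧ ¬ p)} {_ : Decidable (x ≤ 1 / 2 ∧ ¬ q)} :
    (if x < (if p then 0 else if q then 1 / 2 else 1) then (1 : ℝ) else 0)
      ≤ (if x ≤ 0 ∧ ¬ p then 1 else 0) + (if x ≤ 1 / 2 ∧ ¬ q then 1 else 0) := by
  by_cases hp : p <;> by_cases hq : q <;> rcases hx with h | h | h <;> simp [hp, hq, h] <;> norm_num

open Classical in
/-- A bounded model of a three-valued cost kernel. -/
theorem model (ε : ℝ) (hε : 0 < ε) : ∃ R : ℕ, ∀ (W : Type) [Fintype W] (C : W → W → ℝ) (κ : ℝ),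
    0 < Fintype.card W → (∀ y z, C y z = C z y) →
    (∀ y z, C y z = 0 ∨ C y z = 1 / 2 ∨ C y z = 1) →
    (∀ ν : W → ℝ, (∀ y, 0 ≤ ν y) → κ * (∑ y, ν y) ^ 2 ≤ Q C ν ν) →
    ∃ (T : Type) (_ : Fintype T) (_ : DecidableEq T) (σ : W → T) (c : T → T → ℝ),
      Fintype.card T ≤ R ∧ (∀ a b, c a b = c b a) ∧
      (∀ a b, c a b = 0 ∨ c a b = 1 / 2 ∨ c a b = 1) ∧
      (κ - ε) * (Fintype.card W : ℝ) ^ 2 ≤ ∑ y, ∑ z, c (σ y) (σ z) ∧
      ∑ y, ∑ z, (if C y z < c (σ y) (σ z) then (1 : ℝ) else 0) ≤ ε * (Fintype.card W : ℝ) ^ 2 := by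
  obtain ⟨M, hM⟩ := exists_nat_gt (1 / ε)
  have hM0 : (0 : ℝ) < M := lt_trans (by positivity) hM
  set γ := min (ε / 4) 1 with hγ
  have hγ0 : 0 < γ := by positivity
  obtain ⟨θ, hθ, hemb⟩ := embed γ hγ0 (min_le_right _ _) M
  obtain ⟨R, hR⟩ := regularity θ (ε / 4) hθ (by positivity)
  refine ⟨R, fun W _ C κ hW hsymm hval hκ => ?_⟩
  obtain ⟨T, i1, i2, σ, hT, h0, h1⟩ :=
    hR W (fun y z => C y z ≤ 0) (fun y z => C y z ≤ 1 / 2) hW
  let c : T → T → ℝ := fun a b =>
    if LowReg (fun y z => C y z ≤ 0) (cell σ a) (cell σ b) γ θ then 0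
    else if LowReg (fun y z => C y z ≤ 1 / 2) (cell σ a) (cell σ b) γ θ then 1 / 2 else 1
  have hc01 : ∀ a b, c a b = 0 ∨ c a b = 1 / 2 ∨ c a b = 1 := by
    intro a b
    simp only [c]
    split_ifs <;> simp
  have hsy : ∀ a b, c a b = c b a := by
    intro a b
    have e : ∀ v : ℝ, LowReg (fun y z => C y z ≤ v) (cell σ a) (cell σ b) γ θ
        ↔ LowReg (fun y z => C y z ≤ v) (cell σ b) (cell σ a) γ θ := fun v =>
      ⟨LowReg.symm fun i j => by rw [hsymm], LowReg.symm fun i j => by rw [hsymm]⟩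
    simp only [c, e]
  refine ⟨T, i1, i2, σ, c, hT, hsy, hc01, ?_, ?_⟩
  · have hn : (0 : ℝ) < Fintype.card W := by exact_mod_cast hW
    have hreg : ∀ a b, LowReg (fun y z => C y z ≤ c a b) (cell σ a) (cell σ b) γ θ := by
      intro a b
      simp only [c]
      split_ifs with ha hb
      · exact ha
      · exact hb
      · intro A _ B _
        have : ∀ y z, C y z ≤ 1 := fun y z => by rcases hval y z with h | h | h <;> linarith
        simp only [this, if_true, sum_const, nsmul_eq_mul, mul_one]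
        have h2 : γ * A.card * B.card ≤ 1 * A.card * B.card := by
          gcongr
          exact min_le_right _ _
        have h3 : 0 ≤ θ * (cell σ a).card * (cell σ b).card := by positivity
        linarith
    have htup : ∀ z : Fin M → W, κ * (M : ℝ) ^ 2
        ≤ M + ∑ u, ∑ v, if u = v then 0 else c (σ (z u)) (σ (z v)) := by
      intro z
      obtain ⟨x, -, hx⟩ := hemb W (fun _ _ => True)
        (fun u v y y' => C y y' ≤ c (σ (z u)) (σ (z v))) (fun u => cell σ (σ (z u)))
        (fun u => ⟨z u, mem_cell.mpr rfl⟩) (fun u v _ _ => hreg _ _)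
      have h2 := hκ (fun y => ∑ u, if x u = y then 1 else 0)
        (fun y => sum_nonneg fun u _ => by split_ifs <;> norm_num)
      have h3 : ∑ y, ∑ u, (if x u = y then (1 : ℝ) else 0) = M := by
        rw [sum_comm]
        simp
      have h4 : Q C (fun y => ∑ u, if x u = y then 1 else 0) (fun y => ∑ u, if x u = y then 1 else 0)
          = ∑ u, ∑ v, C (x u) (x v) := by
        simp only [Q, sum_mul, mul_sum]
        rw [sum_comm]
        have : ∀ y' : W, ∑ y : W, ∑ v, ∑ u, (if x u = y then (1 : ℝ) else 0)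
            * (if x v = y' then (1 : ℝ) else 0) * C y y'
            = ∑ u, ∑ v, (if x v = y' then (1 : ℝ) else 0) * C (x u) y' := by
          intro y'
          rw [sum_comm, sum_comm (s := univ) (t := univ)
            (f := fun u v => (if x v = y' then (1 : ℝ) else 0) * C (x u) y')]
          refine sum_congr rfl fun v _ => ?_
          rw [sum_comm]
          refine sum_congr rfl fun u _ => ?_
          simp
        simp_rw [this]
        rw [sum_comm]
        refine sum_congr rfl fun u _ => ?_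
        rw [sum_comm]
        refine sum_congr rfl fun v _ => ?_
        simp
      rw [h3, h4] at h2
      refine h2.trans ?_
      have h5 : (M : ℝ) = ∑ u : Fin M, ∑ v : Fin M, if u = v then (1 : ℝ) else 0 := by simp
      rw [h5, ← sum_add_distrib]
      refine sum_le_sum fun u _ => ?_
      rw [← sum_add_distrib]
      refine sum_le_sum fun v _ => ?_
      rcases lt_trichotomy u v with h | h | h
      · simpa [h.ne] using hx u v h trivial
      · subst h
        rcases hval (x u) (x u) with h | h | h <;> simp [h] <;> norm_num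
      · have := hx v u h trivial
        rw [hsymm, hsy] at this
        simpa [h.ne'] using this
    let m : Fin M → W → ℝ := fun _ _ => 1 / Fintype.card W
    have hm : ∀ i, ∑ a, m i a = 1 := fun i => by
      simp only [m, sum_const, card_univ, nsmul_eq_mul]
      field_simp
    obtain ⟨z, -, hz⟩ := exists_le_of_avg (pw m)
      (fun z => ∑ u, ∑ v, if u = v then 0 else c (σ (z u)) (σ (z v)))
      (pw_nonneg fun _ _ => by positivity) (pw_sum hm)
    set cb := ∑ y, ∑ z, c (σ y) (σ z)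
    have hcb : 0 ≤ cb := sum_nonneg fun y _ => sum_nonneg fun z _ => by
      rcases hc01 (σ y) (σ z) with h | h | h <;> linarith
    have h6 : ∑ z : Fin M → W, pw m z * ∑ u, ∑ v, (if u = v then 0 else c (σ (z u)) (σ (z v)))
        ≤ (M : ℝ) ^ 2 * (cb / (Fintype.card W : ℝ) ^ 2) := by
      simp_rw [mul_sum]
      rw [sum_comm]
      have : (M : ℝ) ^ 2 * (cb / (Fintype.card W : ℝ) ^ 2)
          = ∑ _u : Fin M, ∑ _v : Fin M, cb / (Fintype.card W : ℝ) ^ 2 := by
        simp only [sum_const, card_univ, Fintype.card_fin, nsmul_eq_mul]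
        ring
      rw [this]
      refine sum_le_sum fun u _ => ?_
      rw [sum_comm]
      refine sum_le_sum fun v _ => ?_
      by_cases huv : u = v
      · simp only [huv, if_true, mul_zero, sum_const_zero]
        positivity
      · simp only [huv, if_false]
        rw [pw_two hm huv (fun a b => c (σ a) (σ b))]
        simp only [m, cb, sum_div]
        refine le_of_eq (sum_congr rfl fun a _ => sum_congr rfl fun b _ => ?_)
        field_simp
    have h7 := (htup z).trans (add_le_add_right (hz.trans h6) _)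
    have h8 : (M : ℝ) ≤ ε * (M : ℝ) ^ 2 := by
      rw [div_lt_iff₀ hε] at hM
      nlinarith
    have h9 : κ - ε ≤ cb / (Fintype.card W : ℝ) ^ 2 := by
      refine le_of_mul_le_mul_left ?_ (pow_pos hM0 2)
      linarith
    rwa [le_div_iff₀ (by positivity)] at h9
  · have e0 := few_bad (fun y z => C y z ≤ 0) σ γ θ hγ0.le
    have e1 := few_bad (fun y z => C y z ≤ 1 / 2) σ γ θ hγ0.le
    have e2 : ∑ y, ∑ z, (if C y z < c (σ y) (σ z) then (1 : ℝ) else 0)
        ≤ ∑ y, ∑ z, (if C y z ≤ 0 ∧ ¬ LowReg (fun y z => C y z ≤ 0) (cell σ (σ y))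
            (cell σ (σ z)) γ θ then (1 : ℝ) else 0)
          + ∑ y, ∑ z, (if C y z ≤ 1 / 2 ∧ ¬ LowReg (fun y z => C y z ≤ 1 / 2) (cell σ (σ y))
            (cell σ (σ z)) γ θ then (1 : ℝ) else 0) := by
      rw [← sum_add_distrib]
      refine sum_le_sum fun y _ => ?_
      rw [← sum_add_distrib]
      refine sum_le_sum fun z _ => ?_
      exact ite_aux (hval y z)
    have e3 : γ * (Fintype.card W : ℝ) ^ 2 ≤ ε / 4 * (Fintype.card W : ℝ) ^ 2 := by
      gcongr
      exact min_le_left _ _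
    refine e2.trans ((add_le_add ?_ ?_).trans (le_of_eq (by ring :
      (ε / 4 * (Fintype.card W : ℝ) ^ 2 + ε / 4 * (Fintype.card W : ℝ) ^ 2)
        + (ε / 4 * (Fintype.card W : ℝ) ^ 2 + ε / 4 * (Fintype.card W : ℝ) ^ 2) = _)))
    · convert e0.trans (add_le_add e3 h0)
    · convert e1.trans (add_le_add e3 h1)

end Pool.Agent.Lib.MP_37b92f_co
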