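import Pool.Agent.Lib.MP_37b92f_co.KeyReg

set_option autoImplicit false

namespace Pool.Agent.Lib.MP_37b92f_co

open Finset

section Bern

variable {W : Type} [Fintype W] [DecidableEq W]

/-- Bernoulli weights. -/
def bw (π : W → ℝ) : W → Bool → ℝ := fun y b => if b then π y else 1 - π y

/-- Indicator of a selected point. -/
def sel (ξ : W → Bool) (y : W) : ℝ := if ξ y then 1 else 0

omit [Fintype W] [DecidableEq W] in
theorem bw_sum (π : W → ℝ) (y : W) : ∑ b, bw π y b = 1 := by simp [bw]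

omit [Fintype W] [DecidableEq W] in
theorem sel_nonneg (ξ : W → Bool) (y : W) : 0 ≤ sel ξ y := by
  unfold sel; split_ifs <;> norm_num

theorem E_sel (π : W → ℝ) (y : W) : ∑ ξ : W → Bool, pw (bw π) ξ * sel ξ y = π y := by
  have := pw_one (bw_sum π) y (fun b => if b then (1 : ℝ) else 0)
  simpa [sel, bw] using this

theorem E_sel_sel (π : W → ℝ) (y y' : W) :
    ∑ ξ : W → Bool, pw (bw π) ξ * (sel ξ y * sel ξ y')
      = π y * π y' + if y = y' then π y - π y ^ 2 else 0 := by
  by_cases h : y = y'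
  · subst h
    have : ∀ ξ : W → Bool, sel ξ y * sel ξ y = sel ξ y := fun ξ => by
      unfold sel; split_ifs <;> norm_num
    simp_rw [this, E_sel]
    simp only [if_true]
    ring
  · have := pw_two_mul (bw_sum π) h (fun b => if b then (1 : ℝ) else 0)
      (fun b => if b then (1 : ℝ) else 0)
    simpa [sel, bw, h] using this

theorem E_affine (π : W → ℝ) (b b' : ℝ) (u u' : W → ℝ) :
    ∑ ξ : W → Bool, pw (bw π) ξ * ((b + ∑ y, sel ξ y * u y) * (b' + ∑ y, sel ξ y * u' y))
      = (b + ∑ y, π y * u y) * (b' + ∑ y, π y * u' y) + ∑ y, (π y - π y ^ 2) * (u y * u' y) := by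
  have h1 : ∀ v : W → ℝ, ∑ ξ : W → Bool, pw (bw π) ξ * ∑ y, sel ξ y * v y = ∑ y, π y * v y := by
    intro v
    simp_rw [mul_sum]
    rw [sum_comm]
    refine sum_congr rfl fun y _ => ?_
    rw [← E_sel π y, sum_mul]
    exact sum_congr rfl fun ξ _ => by ring
  have h2 : ∑ ξ : W → Bool, pw (bw π) ξ * ((∑ y, sel ξ y * u y) * ∑ y, sel ξ y * u' y)
      = (∑ y, π y * u y) * (∑ y, π y * u' y) + ∑ y, (π y - π y ^ 2) * (u y * u' y) := by
    have e : ∀ ξ : W → Bool, pw (bw π) ξ * ((∑ y, sel ξ y * u y) * ∑ y, sel ξ y * u' y)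
        = ∑ y, ∑ y', u y * u' y' * (pw (bw π) ξ * (sel ξ y * sel ξ y')) := by
      intro ξ
      rw [sum_mul_sum, mul_sum]
      refine sum_congr rfl fun y _ => ?_
      rw [mul_sum]
      exact sum_congr rfl fun y' _ => by ring
    simp_rw [e]
    rw [sum_comm, sum_mul_sum, ← sum_add_distrib]
    refine sum_congr rfl fun y _ => ?_
    rw [sum_comm]
    simp_rw [← mul_sum, E_sel_sel, mul_add, sum_add_distrib]
    congr 1
    · rw [mul_sum]
      exact sum_congr rfl fun y' _ => by ring
    · simp only [mul_ite, mul_zero, sum_ite_eq, mem_univ, if_true]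
      ring
  have h3 := pw_sum (bw_sum π)
  calc _ = ∑ ξ : W → Bool, (b * b' * pw (bw π) ξ + b * (pw (bw π) ξ * ∑ y, sel ξ y * u' y)
          + b' * (pw (bw π) ξ * ∑ y, sel ξ y * u y)
          + pw (bw π) ξ * ((∑ y, sel ξ y * u y) * ∑ y, sel ξ y * u' y)) :=
        sum_congr rfl fun ξ _ => by ring
    _ = _ := by
        simp only [sum_add_distrib, ← mul_sum]
        rw [h1, h1, h2, h3]
        ring

theorem E_quad (π : W → ℝ) (K : W → W → ℝ) (b : W → ℝ) (x : W → W → ℝ) :
    ∑ ξ : W → Bool, pw (bw π) ξ * Q K (fun z => b z + ∑ y, sel ξ y * x y z)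
        (fun z => b z + ∑ y, sel ξ y * x y z)
      = Q K (fun z => b z + ∑ y, π y * x y z) (fun z => b z + ∑ y, π y * x y z)
        + ∑ y, (π y - π y ^ 2) * Q K (x y) (x y) := by
  have e : ∑ y, (π y - π y ^ 2) * Q K (x y) (x y)
      = ∑ z, ∑ z', (∑ y, (π y - π y ^ 2) * (x y z * x y z')) * K z z' := by
    simp only [Q, mul_sum, sum_mul]
    rw [sum_comm]
    refine sum_congr rfl fun z _ => ?_
    rw [sum_comm]
    exact sum_congr rfl fun z' _ => sum_congr rfl fun y _ => by ring
  rw [e]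
  simp only [Q]
  have e' : ∀ (r : ℝ) (G : W → W → ℝ), r * ∑ z, ∑ z', G z z' = ∑ z, ∑ z', r * G z z' := by
    intro r G
    simp only [mul_sum]
  simp_rw [e']
  rw [sum_comm, ← sum_add_distrib]
  refine sum_congr rfl fun z _ => ?_
  rw [sum_comm, ← sum_add_distrib]
  refine sum_congr rfl fun z' _ => ?_
  rw [← add_mul, ← E_affine π (b z) (b z') (fun y => x y z) (fun y => x y z'), sum_mul]
  exact sum_congr rfl fun ξ _ => by ring

end Bern

theorem cond_nonneg {Ω T : Type*} [Fintype Ω] [DecidableEq T] (π : Ω → T) {φ : Ω → ℝ}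
    (hφ : ∀ x, 0 ≤ φ x) (a : T) : 0 ≤ cond (fun _ => 1) π φ a :=
  div_nonneg (sum_nonneg fun x _ => by split_ifs; exacts [by simpa using hφ x, le_rfl])
    (sum_nonneg fun x _ => by split_ifs <;> norm_num)

theorem cond_avg {Ω T : Type*} [Fintype Ω] [Fintype T] [DecidableEq T] (π : Ω → T) (φ : Ω → ℝ)
    (g : T → ℝ) : ∑ x, φ x * g (π x) = ∑ x, cond (fun _ => 1) π φ (π x) * g (π x) := by
  have := cond_orth (μ := fun _ : Ω => (1 : ℝ)) (fun _ => zero_le_one) π φ g
  simp only [one_mul, sub_mul, sum_sub_distrib] at this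
  linarith

theorem Samp.cells {W T : Type} [Fintype W] [Fintype T] [DecidableEq T] {ψ : W → W → ℝ} {η : ℝ}
    (h : Samp ψ η) (σ : W → T) (w : W → T → ℝ) (hw : ∀ y t, |w y t| ≤ 1) :
    ∑ y, ∑ z, (ψ y z - 1) * w y (σ z) ≤ Fintype.card T * (η * (Fintype.card W : ℝ) ^ 2) := by
  have h1 : ∀ y, ∑ z, (ψ y z - 1) * w y (σ z) ≤ ∑ t : T,
      |∑ z, ψ y z * (if σ z = t then 1 else 0) - ∑ z, (if σ z = t then (1 : ℝ) else 0)| := by
    intro y
    have : ∑ z, (ψ y z - 1) * w y (σ z) = ∑ t : T, w y t *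
        (∑ z, ψ y z * (if σ z = t then 1 else 0) - ∑ z, (if σ z = t then (1 : ℝ) else 0)) := by
      simp_rw [← sum_sub_distrib, mul_sum]
      rw [sum_comm]
      refine sum_congr rfl fun z _ => ?_
      rw [sum_eq_single (σ z)]
      · simp only [if_true]
        ring
      · intro t _ ht
        simp [ht.symm]
      · simp
    rw [this]
    refine sum_le_sum fun t _ => (le_abs_self _).trans ?_
    rw [abs_mul]
    exact mul_le_of_le_one_left (abs_nonneg _) (hw y t)
  refine (sum_le_sum fun y _ => h1 y).trans ?_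
  rw [sum_comm]
  refine (sum_le_sum fun t _ => h.one (fun z => if σ z = t then 1 else 0)
    (fun z => by split_ifs <;> norm_num)).trans ?_
  simp

theorem div_max_ge {a B : ℝ} (ha : 0 ≤ a) (hB : 0 ≤ B) : min a 1 * (1 - B) ≤ a / max 1 (a + B) := by
  have hm : 0 < max 1 (a + B) := lt_of_lt_of_le one_pos (le_max_left _ _)
  rw [le_div_iff₀ hm]
  rcases le_total a 1 with h | h
  · rw [min_eq_left h]
    have : max 1 (a + B) ≤ 1 + B := max_le (by linarith) (by linarith)
    rcases le_total B 1 with h' | h'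
    · have h2 : (1 - B) * max 1 (a + B) ≤ (1 - B) * (1 + B) :=
        mul_le_mul_of_nonneg_left this (by linarith)
      nlinarith [mul_nonneg ha (mul_nonneg hB hB)]
    · have : a * (1 - B) * max 1 (a + B) ≤ 0 :=
        mul_nonpos_of_nonpos_of_nonneg (mul_nonpos_of_nonneg_of_nonpos ha (by linarith)) hm.le
      linarith
  · rw [min_eq_right h, max_eq_right (by linarith)]
    nlinarith [mul_nonneg hB hB]

theorem div_max_eq (A : ℝ) : A / max 1 A = min 1 A := by
  rcases le_total A 1 with h | h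
  · rw [max_eq_left h, min_eq_right h, div_one]
  · rw [max_eq_right h, min_eq_left h, div_self (by linarith)]

section Star

variable {W T : Type} [Fintype W] [DecidableEq W] [Fintype T] [DecidableEq T]

/-- The deterministic inequality for one selection of centres. -/
theorem star_det (C S Nn : W → W → ℝ) (σ : W → T) (c : T → T → ℝ) (κ : ℝ) (f : W → W → ℝ)
    (Mx : W → ℝ) (hW : 0 < Fintype.card W)
    (hκ : ∀ ν : W → ℝ, (∀ y, 0 ≤ ν y) → κ * (∑ y, ν y) ^ 2 ≤ Q C ν ν)
    (hC : ∀ y z, C y z ≤ c (σ y) (σ z) + S y z - Nn y z / 2)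
    (hS : ∀ y z, 0 ≤ S y z) (hN : ∀ y z, 0 ≤ Nn y z) (hNs : ∀ y z, Nn y z = Nn z y)
    (hf : ∀ y z, 0 ≤ f y z) (hfN : ∀ y z, f y z * Nn y z = f y z) (hMx : ∀ y, 0 ≤ Mx y)
    (ξ : W → Bool) :
    0 ≤ Q (fun y z => c (σ y) (σ z) - κ)
          (fun z => (63 / 64) / Fintype.card W + ∑ y, sel ξ y * (if y = z then Mx y / 64 else 0))
          (fun z => (63 / 64) / Fintype.card W + ∑ y, sel ξ y * (if y = z then Mx y / 64 else 0))
      + Q S (fun z => 1 / Fintype.card W
            + ∑ y, sel ξ y * (f y z / (2 * Fintype.card W) + if y = z then Mx y / 64 else 0))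
          (fun z => 1 / Fintype.card W
            + ∑ y, sel ξ y * (f y z / (2 * Fintype.card W) + if y = z then Mx y / 64 else 0))
      - 1 / (128 * Fintype.card W) * ∑ y, ∑ z, Mx y * min (cond (fun _ => 1) σ (f y) (σ z)) 1 *
          (sel ξ y * (1 + ∑ y', sel ξ y' *
            (if y' = y then 0 else - cond (fun _ => 1) σ (f y') (σ z)))) := by
  set n : ℝ := (Fintype.card W : ℝ) with hn
  have hn0 : 0 < n := by rw [hn]; exact_mod_cast hW
  let a : W → T → ℝ := fun y t => cond (fun _ => 1) σ (f y) t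
  have ha : ∀ y t, 0 ≤ a y t := fun y t => cond_nonneg σ (hf y) t
  let A : T → ℝ := fun t => ∑ y, sel ξ y * a y t
  have hA : ∀ t, 0 ≤ A t := fun t => sum_nonneg fun y _ => mul_nonneg (sel_nonneg ξ y) (ha y t)
  let F : W → ℝ := fun z => ∑ y, sel ξ y * f y z
  have hF : ∀ z, 0 ≤ F z := fun z => sum_nonneg fun y _ => mul_nonneg (sel_nonneg ξ y) (hf y z)
  have hmax : ∀ t, 0 < max 1 (A t) := fun t => lt_of_lt_of_le one_pos (le_max_left _ _)
  let ν1 : W → ℝ := fun z => sel ξ z * (Mx z / 64)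
  let ν2 : W → ℝ := fun z => F z / max 1 (A (σ z)) / (2 * n)
  let ν3 : W → ℝ := fun z => (63 / 64 - min 1 (A (σ z)) / 2) / n
  have h1 : ∀ z, 0 ≤ ν1 z := fun z => mul_nonneg (sel_nonneg ξ z) (by linarith [hMx z])
  have h2 : ∀ z, 0 ≤ ν2 z := fun z =>
    div_nonneg (div_nonneg (hF z) (hmax _).le) (by positivity)
  have h3 : ∀ z, 0 ≤ ν3 z := fun z =>
    div_nonneg (by linarith [min_le_left 1 (A (σ z))]) hn0.le
  let ν : W → ℝ := fun z => ν3 z + ν2 z + ν1 z
  have hν : ∀ z, 0 ≤ ν z := fun z => add_nonneg (add_nonneg (h3 z) (h2 z)) (h1 z)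
  have hsel : ∀ z, ∑ y, sel ξ y * (if y = z then Mx y / 64 else 0) = ν1 z := fun z => by
    simp [ν1]
  let ν0 : W → ℝ := fun z => (63 / 64) / n + ν1 z
  have hcell : ∀ u : T → ℝ, ∑ z, ν z * u (σ z) = ∑ z, ν0 z * u (σ z) := by
    intro u
    have e1 : ∑ z, F z * (u (σ z) / max 1 (A (σ z)))
        = ∑ z, A (σ z) * (u (σ z) / max 1 (A (σ z))) := by
      simp only [F, A, sum_mul]
      rw [sum_comm, sum_comm (s := univ) (t := univ) (f := fun z y =>
        sel ξ y * a y (σ z) * (u (σ z) / max 1 (∑ y, sel ξ y * a y (σ z))))]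
      refine sum_congr rfl fun y _ => ?_
      simp_rw [mul_assoc, ← mul_sum]
      congr 1
      exact cond_avg σ (f y) (fun t => u t / max 1 (A t))
    have e2 : ∑ z, ν z * u (σ z) = ∑ z, ν0 z * u (σ z)
        + (∑ z, F z * (u (σ z) / max 1 (A (σ z)))
          - ∑ z, A (σ z) * (u (σ z) / max 1 (A (σ z)))) / (2 * n) := by
      rw [← sum_sub_distrib, sum_div, ← sum_add_distrib]
      refine sum_congr rfl fun z _ => ?_
      simp only [ν, ν0, ν2, ν3]
      rw [← div_max_eq (A (σ z))]
      field_simp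
      ring
    rw [e2, e1]
    simp
  have hQ : ∀ k : T → T → ℝ, Q (fun y z => k (σ y) (σ z)) ν ν = Q (fun y z => k (σ y) (σ z)) ν0 ν0 := by
    intro k
    simp only [Q]
    calc ∑ y, ∑ z, ν y * ν z * k (σ y) (σ z) = ∑ y, ν y * ∑ z, ν0 z * k (σ y) (σ z) := by
          refine sum_congr rfl fun y _ => ?_
          rw [← hcell (k (σ y)), mul_sum]
          exact sum_congr rfl fun z _ => by ring
      _ = ∑ y, ν0 y * ∑ z, ν0 z * k (σ y) (σ z) := hcell (fun t => ∑ z, ν0 z * k t (σ z))
      _ = _ := by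
          refine sum_congr rfl fun y _ => ?_
          rw [mul_sum]
          exact sum_congr rfl fun z _ => by ring
  have hmain : 0 ≤ Q (fun y z => c (σ y) (σ z) - κ) ν ν + Q S ν ν - Q Nn ν ν / 2 := by
    have e1 : κ * (∑ y, ν y) ^ 2 = ∑ y, ∑ z, ν y * ν z * κ := by
      rw [sq, sum_mul_sum, mul_sum]
      refine sum_congr rfl fun y _ => ?_
      rw [mul_sum]
      exact sum_congr rfl fun z _ => by ring
    have e2 := hκ ν hν
    rw [e1] at e2
    have e3 : Q C ν ν - ∑ y, ∑ z, ν y * ν z * κ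
        ≤ Q (fun y z => c (σ y) (σ z) - κ) ν ν + Q S ν ν - Q Nn ν ν / 2 := by
      simp only [Q, sum_div, ← sum_sub_distrib, ← sum_add_distrib]
      refine sum_le_sum fun y _ => sum_le_sum fun z _ => ?_
      have := mul_le_mul_of_nonneg_left (hC y z) (mul_nonneg (hν y) (hν z))
      nlinarith
    linarith
  have hSle : Q S ν ν ≤ Q S (fun z => 1 / n
            + ∑ y, sel ξ y * (f y z / (2 * n) + if y = z then Mx y / 64 else 0))
          (fun z => 1 / n
            + ∑ y, sel ξ y * (f y z / (2 * n) + if y = z then Mx y / 64 else 0)) := by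
    have hle : ∀ z, ν z ≤ 1 / n
        + ∑ y, sel ξ y * (f y z / (2 * n) + if y = z then Mx y / 64 else 0) := by
      intro z
      simp_rw [mul_add, sum_add_distrib, hsel]
      have e1 : ν3 z ≤ 1 / n := by
        apply div_le_div_of_nonneg_right _ hn0.le
        have : 0 ≤ min 1 (A (σ z)) := le_min zero_le_one (hA _)
        linarith
      have e2 : ν2 z ≤ ∑ y, sel ξ y * (f y z / (2 * n)) := by
        have : ∑ y, sel ξ y * (f y z / (2 * n)) = F z / (2 * n) := by
          simp only [F, sum_div]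
          exact sum_congr rfl fun y _ => by ring
        rw [this]
        exact div_le_div_of_nonneg_right (div_le_self (hF z) (le_max_left _ _)) (by positivity)
      simp only [ν]
      linarith
    refine sum_le_sum fun y _ => sum_le_sum fun z _ => ?_
    exact mul_le_mul_of_nonneg_right
      (mul_le_mul (hle y) (hle z) (hν z) ((hν y).trans (hle y))) (hS y z)
  have hNge : 1 / (128 * n) * ∑ y, ∑ z, Mx y * min (a y (σ z)) 1 *
          (sel ξ y * (1 + ∑ y', sel ξ y' * (if y' = y then 0 else - a y' (σ z))))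
      ≤ Q Nn ν ν / 2 := by
    have e1 : ∑ y, ∑ z, ν1 y * ν2 z * Nn y z ≤ Q Nn ν ν / 2 := by
      have e : ∑ y, ∑ z, ν1 y * ν2 z * Nn y z = ∑ y, ∑ z, ν2 y * ν1 z * Nn y z := by
        rw [sum_comm]
        exact sum_congr rfl fun y _ => sum_congr rfl fun z _ => by rw [hNs]; ring
      have : ∑ y, ∑ z, ν1 y * ν2 z * Nn y z + ∑ y, ∑ z, ν2 y * ν1 z * Nn y z ≤ Q Nn ν ν := by
        simp only [Q, ← sum_add_distrib]
        refine sum_le_sum fun y _ => sum_le_sum fun z _ => ?_
        rw [← add_mul]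
        refine mul_le_mul_of_nonneg_right ?_ (hN y z)
        simp only [ν]
        have := mul_nonneg (h1 y) (h1 z)
        have := mul_nonneg (h2 y) (h2 z)
        have := mul_nonneg (h3 y) (hν z)
        have := mul_nonneg (add_nonneg (h2 y) (h1 y)) (h3 z)
        simp only [ν] at *
        nlinarith
      linarith
    refine le_trans ?_ e1
    rw [mul_sum]
    refine sum_le_sum fun y _ => ?_
    by_cases hy : ξ y
    · have hs : sel ξ y = 1 := by simp [sel, hy]
      have e2 : ∑ z, f y z * (1 / max 1 (A (σ z))) = ∑ z, a y (σ z) * (1 / max 1 (A (σ z))) :=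
        cond_avg σ (f y) (fun t => 1 / max 1 (A t))
      have e3 : ∀ z, min (a y (σ z)) 1 *
          (1 + ∑ y', sel ξ y' * (if y' = y then 0 else - a y' (σ z)))
          ≤ a y (σ z) * (1 / max 1 (A (σ z))) := by
        intro z
        have hB : 0 ≤ ∑ y', sel ξ y' * (if y' = y then 0 else a y' (σ z)) :=
          sum_nonneg fun y' _ => mul_nonneg (sel_nonneg _ _) (by split_ifs; exacts [le_rfl, ha _ _])
        have := div_max_ge (ha y (σ z)) hB
        have e4 : a y (σ z) + ∑ y', sel ξ y' * (if y' = y then 0 else a y' (σ z)) = A (σ z) := by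
          have : a y (σ z) = ∑ y', sel ξ y' * (if y' = y then a y' (σ z) else 0) := by simp [hs]
          rw [this, ← sum_add_distrib]
          refine sum_congr rfl fun y' _ => ?_
          split_ifs <;> simp
        have e5 : ∑ y', sel ξ y' * (if y' = y then 0 else - a y' (σ z))
            = - ∑ y', sel ξ y' * (if y' = y then 0 else a y' (σ z)) := by
          rw [← sum_neg_distrib]
          refine sum_congr rfl fun y' _ => ?_
          split_ifs <;> simp
        rw [e4] at this
        rw [e5, mul_one_div]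
        exact this
      have e6 : ∀ z, Mx y / 64 * (f y z * (1 / max 1 (A (σ z))) / (2 * n)) ≤ ν1 y * ν2 z * Nn y z := by
        intro z
        have e7 : f y z ≤ F z := by
          have := single_le_sum (f := fun y' => sel ξ y' * f y' z)
            (fun y' _ => mul_nonneg (sel_nonneg ξ y') (hf y' z)) (mem_univ y)
          simpa [hs] using this
        have e8 : f y z ≤ F z * Nn y z := by
          rw [← hfN y z]
          exact mul_le_mul_of_nonneg_right e7 (hN y z)
        have e9 : ν1 y * ν2 z * Nn y z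
            = Mx y / 64 * (F z * Nn y z * (1 / max 1 (A (σ z))) / (2 * n)) := by
          simp only [ν1, ν2, hs]
          ring
        rw [e9]
        have := hMx y
        have := hmax (σ z)
        gcongr
      refine le_trans ?_ (sum_le_sum fun z _ => e6 z)
      rw [← mul_sum, ← sum_div, e2]
      simp only [hs, one_mul, mul_assoc, ← mul_sum]
      have e10 := sum_le_sum fun z (_ : z ∈ univ) => e3 z
      have e11 : 1 / (128 * n) * (Mx y * ∑ z, a y (σ z) * (1 / max 1 (A (σ z))))
          = Mx y / 64 * ((∑ z, a y (σ z) * (1 / max 1 (A (σ z)))) / (2 * n)) := by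
        field_simp
        ring
      rw [← e11]
      have := hMx y
      gcongr
    · have hs : sel ξ y = 0 := by simp [sel, hy]
      simp [hs, ν1]
  have hQ' := hQ (fun s t => c s t - κ)
  simp only [hsel]
  simp only [ν0] at hQ'
  linarith

end Star

end Pool.Agent.Lib.MP_37b92f_co
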