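import Pool.Agent.Lib.MP_37b92f_co.KeyReg

set_option autoImplicit false

namespace Pool.Agent.Lib.MP_37b92f_co

open Finset

theorem tv_two {X : Type} [Fintype X] (m m' n n' : X → ℝ) (φ : X → X → ℝ)
    (hm' : ∀ a, 0 ≤ m' a) (hm1 : ∑ a, m' a = 1) (hn : ∀ a, 0 ≤ n a) (hn1 : ∑ a, n a = 1)
    (hφ : ∀ a b, 0 ≤ φ a b ∧ φ a b ≤ 1) :
    ∑ a, ∑ b, m a * m' b * φ a b
      ≤ ∑ a, ∑ b, n a * n' b * φ a b + ∑ a, |m a - n a| + ∑ b, |m' b - n' b| := by
  have h1 : ∑ a, |m a - n a| = ∑ a, ∑ b, |m a - n a| * m' b := by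
    simp only [← mul_sum, hm1, mul_one]
  have h2 : ∑ b, |m' b - n' b| = ∑ a, ∑ b, n a * |m' b - n' b| := by
    simp only [← mul_sum, ← sum_mul, hn1, one_mul]
  rw [h1, h2]
  simp only [← sum_add_distrib]
  refine sum_le_sum fun a _ => sum_le_sum fun b _ => ?_
  have e1 : (m a - n a) * φ a b ≤ |m a - n a| :=
    (mul_le_mul_of_nonneg_right (le_abs_self _) (hφ a b).1).trans
      (mul_le_of_le_one_right (abs_nonneg _) (hφ a b).2)
  have e2 : (m' b - n' b) * φ a b ≤ |m' b - n' b| :=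
    (mul_le_mul_of_nonneg_right (le_abs_self _) (hφ a b).1).trans
      (mul_le_of_le_one_right (abs_nonneg _) (hφ a b).2)
  have := mul_le_mul_of_nonneg_right e1 (hm' b)
  have := mul_le_mul_of_nonneg_left e2 (hn a)
  nlinarith

section

variable {V X : Type} [Fintype V] [Fintype X] [DecidableEq X]

/-- Empirical distribution of a labelling. -/
noncomputable def emp (T : V → X) (a : X) : ℝ := (cell T a).card / Fintype.card V

omit [Fintype X] in
theorem emp_nonneg (T : V → X) (a : X) : 0 ≤ emp T a := by unfold emp; positivity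

theorem sum_label (T : V → X) (φ : X → ℝ) : ∑ i, φ (T i) = ∑ a, (cell T a).card * φ a := by
  rw [sum_cells T]
  refine sum_congr rfl fun a _ => ?_
  rw [sum_congr rfl fun i hi => by rw [mem_cell.mp hi], sum_const, nsmul_eq_mul]

theorem emp_sum (hV : 0 < Fintype.card V) (T : V → X) : ∑ a, emp T a = 1 := by
  have := sum_label T (fun _ => 1)
  simp only [sum_const, card_univ, nsmul_eq_mul, mul_one] at this
  simp only [emp, ← sum_div, ← this]
  exact div_self (by positivity)

theorem sum_label₂ (hV : 0 < Fintype.card V) (T T' : V → X) (φ : X → X → ℝ) :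
    ∑ i, ∑ j, φ (T i) (T' j)
      = (Fintype.card V : ℝ) ^ 2 * ∑ a, ∑ b, emp T a * emp T' b * φ a b := by
  have hn : (0 : ℝ) < Fintype.card V := by exact_mod_cast hV
  rw [sum_label T (fun a => ∑ j, φ a (T' j)), mul_sum]
  refine sum_congr rfl fun a _ => ?_
  rw [sum_label T' (φ a), mul_sum, mul_sum]
  refine sum_congr rfl fun b _ => ?_
  simp only [emp]
  field_simp

open Classical in
theorem irr_mass (hV : 0 < Fintype.card V) (T T' : V → X) (e : V → V → Prop) (d : X → X → ℝ)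
    (d' : V → V → ℝ) (γ θ α1 α2 : ℝ) (hθ : 0 < θ) (hα2 : 0 ≤ α2)
    (hl : ∑ i, ∑ j, |d' i j - d (T i) (T' j)| ≤ α1 * (Fintype.card V : ℝ) ^ 2)
    (hc : ∀ A B : Finset V, ∑ i ∈ A, ∑ j ∈ B, (d' i j - if e i j then 1 else 0)
      ≤ α2 * (Fintype.card V : ℝ) ^ 2) :
    ∑ a, ∑ b, emp T a * emp T' b * (if γ ≤ d a b ∧ ¬ ((cell T a).Nonempty ∧ (cell T' b).Nonempty ∧
        LowReg e (cell T a) (cell T' b) γ θ) then 1 else 0)
      ≤ (α1 + (Fintype.card X : ℝ) ^ 2 * α2) / θ := by
  have hn : (0 : ℝ) < Fintype.card V := by exact_mod_cast hV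
  set n : ℝ := (Fintype.card V : ℝ) with hnd
  have h1 : ∀ a b, θ * n ^ 2 * (emp T a * emp T' b * (if γ ≤ d a b ∧ ¬ ((cell T a).Nonempty ∧
        (cell T' b).Nonempty ∧ LowReg e (cell T a) (cell T' b) γ θ) then 1 else 0))
      ≤ ∑ i ∈ cell T a, ∑ j ∈ cell T' b, |d' i j - d (T i) (T' j)| + α2 * n ^ 2 := by
    intro a b
    have h0 : 0 ≤ ∑ i ∈ cell T a, ∑ j ∈ cell T' b, |d' i j - d (T i) (T' j)| + α2 * n ^ 2 :=
      add_nonneg (sum_nonneg fun _ _ => sum_nonneg fun _ _ => abs_nonneg _) (by positivity)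
    split_ifs with h
    · obtain ⟨hγ, h⟩ := h
      by_cases ha : (cell T a).Nonempty
      · by_cases hb : (cell T' b).Nonempty
        · have hr : ¬ LowReg e (cell T a) (cell T' b) γ θ := fun hr => h ⟨ha, hb, hr⟩
          unfold LowReg at hr
          push Not at hr
          obtain ⟨A, hA, B, hB, hlt⟩ := hr
          have e1 : θ * n ^ 2 * (emp T a * emp T' b * 1)
              = θ * (cell T a).card * (cell T' b).card := by
            simp only [emp, ← hnd]
            field_simp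
          have e2 : ∑ i ∈ A, ∑ j ∈ B, |d' i j - d (T i) (T' j)|
              ≤ ∑ i ∈ cell T a, ∑ j ∈ cell T' b, |d' i j - d (T i) (T' j)| := by
            refine (sum_le_sum fun i _ => sum_le_sum_of_subset_of_nonneg hB
              fun _ _ _ => abs_nonneg _).trans ?_
            exact sum_le_sum_of_subset_of_nonneg hA
              fun _ _ _ => sum_nonneg fun _ _ => abs_nonneg _
          have e3 : γ * A.card * B.card ≤ ∑ i ∈ A, ∑ j ∈ B, (|d' i j - d (T i) (T' j)| + d' i j) := by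
            have : γ * A.card * B.card = ∑ _i ∈ A, ∑ _j ∈ B, γ := by
              simp only [sum_const, nsmul_eq_mul]
              ring
            rw [this]
            refine sum_le_sum fun i hi => sum_le_sum fun j hj => ?_
            rw [mem_cell.mp (hA hi), mem_cell.mp (hB hj)]
            linarith [neg_abs_le (d' i j - d a b)]
          have e4 := hc A B
          simp only [sum_sub_distrib, sum_add_distrib] at e3 e4
          rw [e1]
          linarith
        · have : emp T' b = 0 := by simp [emp, not_nonempty_iff_eq_empty.mp hb]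
          rw [this]
          simpa using h0
      · have : emp T a = 0 := by simp [emp, not_nonempty_iff_eq_empty.mp ha]
        rw [this]
        simpa using h0
    · simpa using h0
  have h2 := sum_le_sum fun a (_ : a ∈ univ) => sum_le_sum fun b (_ : b ∈ univ) => h1 a b
  have h3 : ∑ a, ∑ b, ∑ i ∈ cell T a, ∑ j ∈ cell T' b, |d' i j - d (T i) (T' j)|
      = ∑ i, ∑ j, |d' i j - d (T i) (T' j)| := by
    rw [sum_cells T]
    refine sum_congr rfl fun a _ => ?_
    rw [sum_comm]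
    exact sum_congr rfl fun i _ => (sum_cells T' _).symm
  simp only [← mul_sum, sum_add_distrib, sum_const, card_univ, nsmul_eq_mul] at h2
  rw [h3] at h2
  rw [le_div_iff₀ hθ]
  refine le_of_mul_le_mul_right ?_ (pow_pos hn 2)
  nlinarith

end

theorem cut_of_box {V : Type} [Fintype V] (h : V → V → ℝ) (α : ℝ) (hα : 0 ≤ α)
    (hb : ∑ i, ∑ i', ∑ j, ∑ j', h i j * h i j' * h i' j * h i' j' ≤ α ^ 4 * (Fintype.card V : ℝ) ^ 4)
    (A B : Finset V) : |∑ i ∈ A, ∑ j ∈ B, h i j| ≤ α * (Fintype.card V : ℝ) ^ 2 := by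
  classical
  set n : ℝ := (Fintype.card V : ℝ) with hn
  have hn0 : 0 ≤ n := Nat.cast_nonneg _
  have hA : (A.card : ℝ) ≤ n := by rw [hn]; exact_mod_cast card_le_univ A
  have hB : (B.card : ℝ) ≤ n := by rw [hn]; exact_mod_cast card_le_univ B
  have h1 : (∑ i ∈ A, ∑ j ∈ B, h i j) ^ 2 ≤ n * ∑ j, (∑ i ∈ A, h i j) ^ 2 := by
    rw [sum_comm]
    refine sq_sum_le_card_mul_sum_sq.trans ?_
    exact mul_le_mul hB (sum_le_sum_of_subset_of_nonneg (subset_univ B) fun _ _ _ => sq_nonneg _)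
      (sum_nonneg fun _ _ => sq_nonneg _) hn0
  have h2 : ∑ j, (∑ i ∈ A, h i j) ^ 2 = ∑ p ∈ A ×ˢ A, ∑ j, h p.1 j * h p.2 j := by
    rw [sum_comm]
    refine sum_congr rfl fun j _ => ?_
    rw [sq, sum_mul_sum, sum_product]
  have h3 : (∑ p ∈ A ×ˢ A, ∑ j, h p.1 j * h p.2 j) ^ 2
      ≤ n ^ 2 * ∑ p : V × V, (∑ j, h p.1 j * h p.2 j) ^ 2 := by
    refine sq_sum_le_card_mul_sum_sq.trans ?_
    refine mul_le_mul ?_ (sum_le_sum_of_subset_of_nonneg (subset_univ _) fun _ _ _ => sq_nonneg _)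
      (sum_nonneg fun _ _ => sq_nonneg _) (by positivity)
    rw [card_product, sq]
    push_cast
    exact mul_le_mul hA hA (Nat.cast_nonneg _) hn0
  have h4 : ∑ p : V × V, (∑ j, h p.1 j * h p.2 j) ^ 2
      = ∑ i, ∑ i', ∑ j, ∑ j', h i j * h i j' * h i' j * h i' j' := by
    rw [Fintype.sum_prod_type]
    refine sum_congr rfl fun i _ => sum_congr rfl fun i' _ => ?_
    rw [sq, sum_mul_sum]
    exact sum_congr rfl fun j _ => sum_congr rfl fun j' _ => by ring
  rw [h4, ← h2] at h3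
  have h5 : ((∑ i ∈ A, ∑ j ∈ B, h i j) ^ 2) ^ 2 ≤ n ^ 2 * (∑ j, (∑ i ∈ A, h i j) ^ 2) ^ 2 := by
    rw [← mul_pow]
    exact pow_le_pow_left₀ (sq_nonneg _) h1 2
  have h6 : |∑ i ∈ A, ∑ j ∈ B, h i j| ^ 4 ≤ (α * n ^ 2) ^ 4 := by
    have e : |∑ i ∈ A, ∑ j ∈ B, h i j| ^ 4 = ((∑ i ∈ A, ∑ j ∈ B, h i j) ^ 2) ^ 2 := by
      rw [← sq_abs (∑ i ∈ A, ∑ j ∈ B, h i j)]
      ring
    rw [e]
    refine h5.trans ((mul_le_mul_of_nonneg_left (h3.trans
      (mul_le_mul_of_nonneg_left hb (by positivity))) (by positivity)).trans (le_of_eq ?_))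
    ring
  exact (pow_le_pow_iff_left₀ (abs_nonneg _) (by positivity) (by norm_num)).mp h6

theorem sum_comm4 {α β : Type} [Fintype α] [Fintype β] (F : α → α → β → β → ℝ) :
    ∑ a, ∑ b, ∑ s, ∑ s', F a b s s' = ∑ s, ∑ s', ∑ a, ∑ b, F a b s s' := by
  have h := sum_comm (s := (univ : Finset (α × α))) (t := (univ : Finset (β × β)))
    (f := fun x y => F x.1 x.2 y.1 y.2)
  simpa only [Fintype.sum_prod_type] using h

open Classical in
theorem pos_det {W V X : Type} [Fintype W] [Fintype V] [Fintype X] [DecidableEq X] {f : ℕ}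
    (A : Fin f → Fin f → Prop) (hA : ∀ u v, A u v → u < v) (ω : W → W → ℝ) (hω : ∀ p q, 0 ≤ ω p q)
    (hω0 : ∀ p, ω p p = 0) (t : ℝ)
    (ht : ∀ D : W → W → Prop, HomFree A D → ∑ p, ∑ q, (if D p q then ω p q else 0) ≤ t)
    (γ θ : ℝ) (hγ : 0 ≤ γ) (hθ : 0 < θ)
    (hemb : ∀ (g : Fin f → Fin f → V → V → Prop) (P : Fin f → Finset V), (∀ u, (P u).Nonempty) →
      (∀ u v, u < v → A u v → LowReg (g u v) (P u) (P v) γ θ) →
      ∃ x : Fin f → V, (∀ u, x u ∈ P u) ∧ ∀ u v, u < v → A u v → g u v (x u) (x v))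
    (hV : 0 < Fintype.card V) (T : Fin (f + 2) → V → X)
    (e : Fin (f + 2) → V → W → Fin (f + 2) → V → W → Prop)
    (hav : ¬ ∃ (x : Fin f → V) (pt : Fin f → W), ∀ u v, A u v →
      e u.castSucc.castSucc (x u) (pt u) v.castSucc.castSucc (x v) (pt v))
    (d : X → W → X → W → ℝ) (hd : ∀ a p b q, 0 ≤ d a p b q ∧ d a p b q ≤ 1)
    (d' : Fin (f + 2) → V → W → Fin (f + 2) → V → W → ℝ) (α1 α2 α3 : ℝ) (hα1 : 0 ≤ α1)
    (hα2 : 0 ≤ α2) (hα3 : 0 ≤ α3)
    (hl : ∀ s s', s < s' → ∀ p q, ∑ i, ∑ j, |d' s i p s' j q - d (T s i) p (T s' j) q|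
      ≤ α1 * (Fintype.card V : ℝ) ^ 2)
    (hc : ∀ s s', s < s' → ∀ p q (A B : Finset V),
      ∑ i ∈ A, ∑ j ∈ B, (d' s i p s' j q - if e s i p s' j q then 1 else 0)
        ≤ α2 * (Fintype.card V : ℝ) ^ 2)
    (htv : ∀ s, ∑ a, |emp (T 0) a - emp (T s) a| ≤ α3) :
    ∑ p, ∑ q, ω p q * ((∑ i, ∑ j, d (T 0 i) p (T 1 j) q) / (Fintype.card V : ℝ) ^ 2)
      ≤ t + (∑ p, ∑ q, ω p q) * (γ + α3 + (f + 2) ^ 2 *
        ((α1 + (Fintype.card X : ℝ) ^ 2 * α2) / θ + 2 * α3)) := by
  have hn : (0 : ℝ) < Fintype.card V := by exact_mod_cast hV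
  let Good : Fin (f + 2) → Fin (f + 2) → X → W → X → W → Prop := fun s s' a p b q =>
    (cell (T s) a).Nonempty ∧ (cell (T s') b).Nonempty ∧
      LowReg (fun i j => e s i p s' j q) (cell (T s) a) (cell (T s') b) γ θ
  let D : X → W → X → W → Prop := fun a p b q => ∀ s s', s < s' → Good s s' a p b q
  have hfree : ∀ x : W → X, HomFree A (fun p q => D (x p) p (x q) q) := by
    rintro x ⟨φ, hφ⟩
    have hne : (univ : Finset V).Nonempty := card_pos.mp hV
    obtain ⟨y, -, hy⟩ := hemb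
      (fun u v i j => e u.castSucc.castSucc i (φ u) v.castSucc.castSucc j (φ v))
      (fun u => if (cell (T u.castSucc.castSucc) (x (φ u))).Nonempty
        then cell (T u.castSucc.castSucc) (x (φ u)) else univ)
      (fun u => by split_ifs with h; exacts [h, hne])
      (fun u v huv hA' => by
        obtain ⟨h1, h2, h3⟩ := hφ u v hA' u.castSucc.castSucc v.castSucc.castSucc huv
        simp only [h1, h2, if_true]
        exact h3)
    exact hav ⟨y, φ, fun u v h => hy u v (hA u v h) h⟩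
  let m : X → ℝ := emp (T 0)
  have hm0 : ∀ a, 0 ≤ m a := emp_nonneg _
  have hm1 : ∑ a, m a = 1 := emp_sum hV _
  have hcol : ∑ p, ∑ q, ω p q * ∑ a, ∑ b, m a * m b * (if D a p b q then 1 else 0) ≤ t := by
    obtain ⟨x, -, hx⟩ := exists_ge_of_avg (pw fun _ : W => m)
      (fun x => ∑ p, ∑ q, if D (x p) p (x q) q then ω p q else 0)
      (pw_nonneg fun _ => hm0) (pw_sum fun _ => hm1)
    refine le_trans (le_of_eq ?_) (hx.trans (le_trans (le_of_eq (by congr!)) (ht _ (hfree x))))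
    have e' : ∀ (r : ℝ) (G : W → W → ℝ), r * ∑ z, ∑ z', G z z' = ∑ z, ∑ z', r * G z z' := by
      intro r G
      simp only [mul_sum]
    simp_rw [e']
    rw [sum_comm (s := (univ : Finset (W → X)))]
    refine sum_congr rfl fun p _ => ?_
    rw [sum_comm (s := (univ : Finset (W → X)))]
    refine sum_congr rfl fun q _ => ?_
    by_cases hpq : p = q
    · subst hpq
      simp [hω0]
    · rw [pw_two (fun _ => hm1) hpq (fun a b => if D a p b q then ω p q else 0), mul_sum]
      refine sum_congr rfl fun a _ => ?_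
      rw [mul_sum]
      exact sum_congr rfl fun b _ => by split_ifs <;> ring
  set β := (α1 + (Fintype.card X : ℝ) ^ 2 * α2) / θ + 2 * α3 with hβ
  have hβ0 : 0 ≤ β := by positivity
  have hpq : ∀ p q, (∑ i, ∑ j, d (T 0 i) p (T 1 j) q) / (Fintype.card V : ℝ) ^ 2
      ≤ ∑ a, ∑ b, m a * m b * (if D a p b q then 1 else 0) + (γ + α3 + (f + 2) ^ 2 * β) := by
    intro p q
    rw [sum_label₂ hV (T 0) (T 1) (fun a b => d a p b q), mul_div_cancel_left₀ _ (by positivity)]
    have h1 := tv_two m (emp (T 1)) m m (fun a b => d a p b q) (emp_nonneg _) (emp_sum hV _) hm0 hm1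
      (fun a b => hd a p b q)
    have h2 : ∑ b, |emp (T 1) b - m b| ≤ α3 := by
      simp only [abs_sub_comm (emp (T 1) _)]
      exact htv 1
    have h3 : ∀ s s', ∑ a, ∑ b, m a * m b *
        (if s < s' ∧ γ ≤ d a p b q ∧ ¬ Good s s' a p b q then 1 else 0) ≤ β := by
      intro s s'
      by_cases hs : s < s'
      · have e1 := tv_two m m (emp (T s)) (emp (T s'))
          (fun a b => if γ ≤ d a p b q ∧ ¬ Good s s' a p b q then 1 else 0) hm0 hm1 (emp_nonneg _)
          (emp_sum hV _) (fun a b => by split_ifs <;> norm_num)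
        have e2 := irr_mass hV (T s) (T s') (fun i j => e s i p s' j q) (fun a b => d a p b q)
          (fun i j => d' s i p s' j q) γ θ α1 α2 hθ hα2 (hl s s' hs p q) (hc s s' hs p q)
        simp only [hs, true_and]
        have e3 := htv s
        have e4 := htv s'
        have e5 : ∑ a, ∑ b, emp (T s) a * emp (T s') b *
            (if γ ≤ d a p b q ∧ ¬ Good s s' a p b q then 1 else 0)
            ≤ (α1 + (Fintype.card X : ℝ) ^ 2 * α2) / θ := by convert e2
        simp only [m] at e1 ⊢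
        linarith
      · simpa [hs] using hβ0
    have h4 : ∑ a, ∑ b, m a * m b * d a p b q
        ≤ ∑ a, ∑ b, m a * m b * (if D a p b q then 1 else 0) + ∑ a, ∑ b, m a * m b * γ
          + ∑ a, ∑ b, ∑ s, ∑ s', m a * m b *
            (if s < s' ∧ γ ≤ d a p b q ∧ ¬ Good s s' a p b q then 1 else 0) := by
      simp only [← sum_add_distrib]
      refine sum_le_sum fun a _ => sum_le_sum fun b _ => ?_
      simp only [← mul_sum, ← mul_add]
      refine mul_le_mul_of_nonneg_left ?_ (mul_nonneg (hm0 a) (hm0 b))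
      have hs0 : 0 ≤ ∑ s, ∑ s',
          (if s < s' ∧ γ ≤ d a p b q ∧ ¬ Good s s' a p b q then (1 : ℝ) else 0) :=
        sum_nonneg fun _ _ => sum_nonneg fun _ _ => by split_ifs <;> norm_num
      by_cases hD : D a p b q
      · simp only [hD, if_true]
        linarith [(hd a p b q).2]
      · simp only [hD, if_false]
        rcases le_total γ (d a p b q) with hγ' | hγ'
        · have hD' := hD
          simp only [D, not_forall] at hD'
          obtain ⟨s, s', hs, hG⟩ := hD'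
          have e1 : (1 : ℝ) ≤ ∑ s, ∑ s',
              (if s < s' ∧ γ ≤ d a p b q ∧ ¬ Good s s' a p b q then (1 : ℝ) else 0) := by
            refine le_trans ?_ (single_le_sum (f := fun s => ∑ s',
              (if s < s' ∧ γ ≤ d a p b q ∧ ¬ Good s s' a p b q then (1 : ℝ) else 0))
              (fun _ _ => sum_nonneg fun _ _ => by split_ifs <;> norm_num) (mem_univ s))
            refine le_trans ?_ (single_le_sum (f := fun s' =>
              (if s < s' ∧ γ ≤ d a p b q ∧ ¬ Good s s' a p b q then (1 : ℝ) else 0))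
              (fun _ _ => by split_ifs <;> norm_num) (mem_univ s'))
            simp [hs, hγ', hG]
          linarith [(hd a p b q).2]
        · linarith
    have h5 : ∑ a, ∑ b, m a * m b * γ = γ := by
      simp only [← sum_mul, ← mul_sum, hm1, one_mul]
    have h6 : ∑ a, ∑ b, ∑ s, ∑ s', m a * m b *
          (if s < s' ∧ γ ≤ d a p b q ∧ ¬ Good s s' a p b q then 1 else 0) ≤ (f + 2) ^ 2 * β := by
      have e1 : ∑ a, ∑ b, ∑ s, ∑ s', m a * m b *
          (if s < s' ∧ γ ≤ d a p b q ∧ ¬ Good s s' a p b q then 1 else 0)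
          = ∑ s, ∑ s', ∑ a, ∑ b, m a * m b *
          (if s < s' ∧ γ ≤ d a p b q ∧ ¬ Good s s' a p b q then 1 else 0) := by
        exact sum_comm4 _
      rw [e1]
      refine (sum_le_sum fun s _ => sum_le_sum fun s' _ => h3 s s').trans (le_of_eq ?_)
      simp only [sum_const, card_univ, Fintype.card_fin, nsmul_eq_mul]
      push_cast
      ring
    simp only [sub_self, abs_zero, sum_const_zero, add_zero] at h1
    linarith
  calc _ ≤ ∑ p, ∑ q, ω p q * (∑ a, ∑ b, m a * m b * (if D a p b q then 1 else 0)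
          + (γ + α3 + (f + 2) ^ 2 * β)) :=
        sum_le_sum fun p _ => sum_le_sum fun q _ => mul_le_mul_of_nonneg_left (hpq p q) (hω p q)
    _ ≤ _ := by
        simp only [mul_add (ω _ _), sum_add_distrib, ← sum_mul]
        linarith

end Pool.Agent.Lib.MP_37b92f_co
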