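import Pool.Agent.Lib.MP_37b92f_co.Pos1
import Pool.Agent.Lib.MP_37b92f_co.Pos2

set_option autoImplicit false

namespace Pool.Agent.Lib.MP_37b92f_co

open Finset

theorem exists_layout (k B M : ℕ) : ∃ (K : ℕ) (ρ : Rf k → Fin K) (bp : Fin B → Fin M → Fin K),
    ∀ s i s' j, (s < s' ∨ (s = s' ∧ i < j)) → Valid ρ (bp s i) (bp s' j) := by
  have hb : ∀ (s : Fin B) (i : Fin M), s.1 * M + i.1 < B * M := by
    intro s i
    have h1 : (s.1 + 1) * M ≤ B * M := Nat.mul_le_mul_right M s.2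
    have := i.2
    rw [Nat.add_mul, one_mul] at h1
    omega
  refine ⟨k + B * M + k, Sum.elim (fun a => ⟨a, by omega⟩) (fun a => ⟨k + B * M + a, by omega⟩),
    fun s i => ⟨k + (s.1 * M + i.1), by have := hb s i; omega⟩, fun s i s' j h => ?_⟩
  refine ⟨fun _ _ h => h, fun _ _ h => Nat.add_lt_add_left h (k + B * M), fun a => ?_, ?_, fun a => ?_⟩
  · simp only [Sum.elim_inl, Fin.lt_def]
    omega
  · simp only [Fin.lt_def]
    rcases h with h | ⟨rfl, h⟩
    · have h1 : (s.1 + 1) * M ≤ s'.1 * M := Nat.mul_le_mul_right M h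
      have := i.2
      rw [Nat.add_mul, one_mul] at h1
      omega
    · have : i.1 < j.1 := h
      omega
  · have := hb s' j
    simp only [Sum.elim_inr, Fin.lt_def]
    omega

variable {W : Type} [Fintype W] [DecidableEq W]

theorem Law.E_D (L : Law W) {k K : ℕ} {ρ : Rf k → Fin K} {x y : Fin K} (h : Valid ρ x y) (p q : W) :
    ∑ E, L.μ K E * L.D k p q (atom ρ E x y) = ∑ E, L.μ 2 E * ind (E 0 p 1 q) := by
  have h1 := L.orth h p q (fun _ => 1)
  have h2 := L.spread 2 K ![x, y] (Fin.strictMono_iff_lt_succ.mpr fun i => by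
    fin_cases i
    exact h.xy) (fun E => ind (E 0 p 1 q))
  simp only [mul_one, mul_sub, sum_sub_distrib] at h1
  rw [← h2]
  exact (sub_eq_zero.mp h1).symm

theorem Law.E_le_one (L : Law W) {K : ℕ} (g : Str W K → ℝ) (hg : ∀ E, g E ≤ 1) :
    ∑ E, L.μ K E * g E ≤ 1 := by
  rw [← L.total K]
  exact sum_le_sum fun E _ => mul_le_of_le_one_right (L.nonneg K E) (hg E)

section Layout

variable (L : Law W) {k K B M : ℕ} {ρ : Rf k → Fin K} {bp : Fin B → Fin M → Fin K}
  (hv : ∀ s i s' j, (s < s' ∨ (s = s' ∧ i < j)) → Valid ρ (bp s i) (bp s' j))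

include hv

theorem Law.E_box (p q : W) (τ : ℝ) (hτ : 0 < τ) (hev : L.ev (k + 1) p q - L.ev k p q ≤ τ ^ 2)
    {s s' : Fin B} (hs : s < s') :
    ∑ E, L.μ K E * ∑ i, ∑ i', ∑ j, ∑ j', L.h ρ p q E (bp s i) (bp s' j)
        * L.h ρ p q E (bp s i) (bp s' j') * L.h ρ p q E (bp s i') (bp s' j)
        * L.h ρ p q E (bp s i') (bp s' j')
      ≤ τ * (M : ℝ) ^ 4 + 2 * (M : ℝ) ^ 3 := by
  have h1 : ∀ i i' j j', ∑ E, L.μ K E * (L.h ρ p q E (bp s i) (bp s' j)
        * L.h ρ p q E (bp s i) (bp s' j') * L.h ρ p q E (bp s i') (bp s' j)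
        * L.h ρ p q E (bp s i') (bp s' j'))
      ≤ τ + (if i = i' then 1 else 0) + (if j = j' then 1 else 0) := by
    have hlt : ∀ i i' j j', i < i' → j < j' → ∑ E, L.μ K E * (L.h ρ p q E (bp s i) (bp s' j)
        * L.h ρ p q E (bp s i) (bp s' j') * L.h ρ p q E (bp s i') (bp s' j)
        * L.h ρ p q E (bp s i') (bp s' j')) ≤ τ := fun i i' j j' hi hj =>
      L.box_lt (hv s i s' j' (Or.inl hs)) (hv s i s i' (Or.inr ⟨rfl, hi⟩)).xy
        (hv s i' s' j (Or.inl hs)).xy (hv s' j s' j' (Or.inr ⟨rfl, hj⟩)).xy p q τ hτ hev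
    intro i i' j j'
    have hone : ∑ E, L.μ K E * (L.h ρ p q E (bp s i) (bp s' j)
        * L.h ρ p q E (bp s i) (bp s' j') * L.h ρ p q E (bp s i') (bp s' j)
        * L.h ρ p q E (bp s i') (bp s' j')) ≤ 1 := by
      refine L.E_le_one _ fun E => (le_abs_self _).trans ?_
      simp only [abs_mul]
      exact mul_le_one₀ (mul_le_one₀ (mul_le_one₀ (L.h_abs _ _ _ _ _ _) (abs_nonneg _)
        (L.h_abs _ _ _ _ _ _)) (abs_nonneg _) (L.h_abs _ _ _ _ _ _)) (abs_nonneg _)
        (L.h_abs _ _ _ _ _ _)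
    by_cases hi : i = i'
    · simp only [hi, if_true] at hone ⊢
      split_ifs <;> linarith
    by_cases hj : j = j'
    · simp only [hj, if_true] at hone ⊢
      split_ifs <;> linarith
    simp only [hi, hj, if_false, add_zero]
    rcases lt_or_gt_of_ne hi with hi | hi <;> rcases lt_or_gt_of_ne hj with hj | hj
    · exact hlt i i' j j' hi hj
    · exact le_of_eq_of_le (sum_congr rfl fun E _ => by ring) (hlt i i' j' j hi hj)
    · exact le_of_eq_of_le (sum_congr rfl fun E _ => by ring) (hlt i' i j j' hi hj)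
    · exact le_of_eq_of_le (sum_congr rfl fun E _ => by ring) (hlt i' i j' j hi hj)
  simp only [mul_sum]
  rw [sum_comm]
  have h2 : τ * (M : ℝ) ^ 4 + 2 * (M : ℝ) ^ 3 = ∑ i : Fin M, ∑ i' : Fin M, ∑ j : Fin M, ∑ j' : Fin M,
      (τ + (if i = i' then 1 else 0) + (if j = j' then (1 : ℝ) else 0)) := by
    simp only [sum_add_distrib, sum_const, card_univ, Fintype.card_fin, nsmul_eq_mul, sum_ite_eq,
      mem_univ, if_true, mul_ite, mul_one, mul_zero]
    ring
  rw [h2]
  refine sum_le_sum fun i _ => ?_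
  rw [sum_comm]
  refine sum_le_sum fun i' _ => ?_
  rw [sum_comm]
  refine sum_le_sum fun j _ => ?_
  rw [sum_comm]
  exact sum_le_sum fun j' _ => h1 i i' j j'

theorem Law.E_disc [Fintype (Typ W k)] [DecidableEq (Typ W k)] (p0 : W) (hM : 0 < M) (s s' : Fin B) :
    ∑ E, L.μ K E * ∑ a, (emp (fun i => typ ρ E (bp s i)) a - emp (fun i => typ ρ E (bp s' i)) a) ^ 2
      ≤ 2 / M := by
  have hM' : (0 : ℝ) < M := by exact_mod_cast hM
  by_cases hss : s = s'
  · subst hss
    simp only [sub_self, ne_eq, OfNat.ofNat_ne_zero, not_false_eq_true, zero_pow, sum_const_zero,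
      mul_zero]
    positivity
  set P := ∑ E, L.μ _ E * (if typ (ρ0 k) E (x0 k) = typ (ρ0 k) E (y0 k) then (1 : ℝ) else 0) with hP
  have hval : ∀ {x y : Fin K}, Valid ρ x y →
      ∑ E, L.μ K E * (if typ ρ E x = typ ρ E y then (1 : ℝ) else 0) = P := fun h =>
    L.transfer h p0 p0 (fun a _ => if a.2.1 = a.2.2 then 1 else 0)
  have hval' : ∀ {x y : Fin K}, Valid ρ y x →
      ∑ E, L.μ K E * (if typ ρ E x = typ ρ E y then (1 : ℝ) else 0) = P := fun h => by
    rw [← hval h]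
    exact sum_congr rfl fun E _ => by simp only [eq_comm]
  have hP0 : 0 ≤ P := sum_nonneg fun E _ => mul_nonneg (L.nonneg _ E) (by split_ifs <;> norm_num)
  let c : Fin B → Fin B → Str W K → ℝ := fun s s' E =>
    ∑ i, ∑ j, if typ ρ E (bp s i) = typ ρ E (bp s' j) then 1 else 0
  have hc : ∀ s s' E, ∑ a, emp (fun i => typ ρ E (bp s i)) a * emp (fun i => typ ρ E (bp s' i)) a
      = c s s' E / (M : ℝ) ^ 2 := by
    intro s s' E
    have := sum_label₂ (V := Fin M) (by simpa using hM) (fun i => typ ρ E (bp s i))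
      (fun i => typ ρ E (bp s' i)) (fun a b => if a = b then 1 else 0)
    simp only [Fintype.card_fin, mul_ite, mul_one, mul_zero, sum_ite_eq, mem_univ, if_true] at this
    simp only [c]
    rw [this]
    field_simp
  have hE : ∀ s s', ∑ E, L.μ K E * c s s' E = ∑ i, ∑ j, ∑ E, L.μ K E *
      (if typ ρ E (bp s i) = typ ρ E (bp s' j) then (1 : ℝ) else 0) := by
    intro s s'
    simp only [c, mul_sum]
    rw [sum_comm]
    exact sum_congr rfl fun i _ => sum_comm
  have hsame : ∀ s, ∑ E, L.μ K E * c s s E ≤ (M : ℝ) ^ 2 * P + M := by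
    intro s
    have : (M : ℝ) ^ 2 * P + M = ∑ i : Fin M, ∑ j : Fin M, (P + if i = j then 1 else 0) := by
      simp only [sum_add_distrib, sum_const, card_univ, Fintype.card_fin, nsmul_eq_mul, sum_ite_eq,
        mem_univ, if_true]
      ring
    rw [hE, this]
    refine sum_le_sum fun i _ => sum_le_sum fun j _ => ?_
    rcases lt_trichotomy i j with h | h | h
    · rw [hval (hv s i s j (Or.inr ⟨rfl, h⟩))]
      simp [h.ne]
    · have := L.E_le_one (fun E => if typ ρ E (bp s i) = typ ρ E (bp s j) then (1 : ℝ) else 0)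
        (fun E => by split_ifs <;> norm_num)
      simp only [h, if_true] at this ⊢
      linarith
    · rw [hval' (hv s j s i (Or.inr ⟨rfl, h⟩))]
      simp [h.ne']
  have hdiff : ∑ E, L.μ K E * c s s' E = (M : ℝ) ^ 2 * P := by
    rw [hE]
    have : ∀ i j, ∑ E, L.μ K E *
        (if typ ρ E (bp s i) = typ ρ E (bp s' j) then (1 : ℝ) else 0) = P := by
      intro i j
      rcases lt_or_gt_of_ne hss with h | h
      · exact hval (hv s i s' j (Or.inl h))
      · exact hval' (hv s' j s i (Or.inl h))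
    simp only [this, sum_const, card_univ, Fintype.card_fin, nsmul_eq_mul]
    ring
  have h1 : ∑ E, L.μ K E *
      ∑ a, (emp (fun i => typ ρ E (bp s i)) a - emp (fun i => typ ρ E (bp s' i)) a) ^ 2
      = (∑ E, L.μ K E * c s s E + ∑ E, L.μ K E * c s' s' E - 2 * ∑ E, L.μ K E * c s s' E)
        / (M : ℝ) ^ 2 := by
    rw [mul_sum, ← sum_add_distrib, ← sum_sub_distrib, sum_div]
    refine sum_congr rfl fun E _ => ?_
    have : ∑ a, (emp (fun i => typ ρ E (bp s i)) a - emp (fun i => typ ρ E (bp s' i)) a) ^ 2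
        = c s s E / (M : ℝ) ^ 2 + c s' s' E / (M : ℝ) ^ 2 - 2 * (c s s' E / (M : ℝ) ^ 2) := by
      rw [← hc, ← hc, ← hc, mul_sum, ← sum_add_distrib, ← sum_sub_distrib]
      exact sum_congr rfl fun a _ => by ring
    rw [this]
    ring
  rw [h1, hdiff, div_le_div_iff₀ (by positivity) hM']
  have := hsame s
  have := hsame s'
  nlinarith

end Layout

theorem le_of_sum4 {α β : Type} [Fintype α] [Fintype β] (F : α → α → β → β → ℝ)
    (hF : ∀ s s' p q, 0 ≤ F s s' p q) (s s' : α) (p q : β) :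
    F s s' p q ≤ ∑ s, ∑ s', ∑ p, ∑ q, F s s' p q := by
  have h := single_le_sum (f := fun x : (α × α) × β × β => F x.1.1 x.1.2 x.2.1 x.2.2)
    (fun x _ => hF _ _ _ _) (mem_univ ((s, s'), (p, q)))
  simpa only [Fintype.sum_prod_type] using h

theorem E_sum4 {Ω α β : Type} [Fintype Ω] [Fintype α] [Fintype β] (μ : Ω → ℝ)
    (F : α → α → β → β → Ω → ℝ) (c : ℝ) (hF : ∀ s s' p q, ∑ E, μ E * F s s' p q E ≤ c) :
    ∑ E, μ E * ∑ s, ∑ s', ∑ p, ∑ q, F s s' p q E
      ≤ (Fintype.card α : ℝ) ^ 2 * (Fintype.card β : ℝ) ^ 2 * c := by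
  have h1 : ∀ E, ∑ s, ∑ s', ∑ p, ∑ q, F s s' p q E
      = ∑ x : (α × α) × β × β, F x.1.1 x.1.2 x.2.1 x.2.2 E := by
    intro E
    simp only [Fintype.sum_prod_type]
  simp only [h1, mul_sum]
  rw [sum_comm]
  refine (sum_le_sum fun x _ => hF _ _ _ _).trans (le_of_eq ?_)
  simp only [sum_const, card_univ, Fintype.card_prod, nsmul_eq_mul]
  push_cast
  ring

theorem abs_sum_le_of_sq {α : Type} [Fintype α] (u : α → ℝ) (c b : ℝ) (hb : 0 ≤ b)
    (hc : (Fintype.card α : ℝ) ≤ c) (h : c * ∑ a, u a ^ 2 ≤ b ^ 2) : ∑ a, |u a| ≤ b := by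
  have h1 : (∑ a, |u a|) ^ 2 ≤ (univ : Finset α).card * ∑ a, |u a| ^ 2 := sq_sum_le_card_mul_sum_sq
  simp only [sq_abs, card_univ] at h1
  have h2 : (Fintype.card α : ℝ) * ∑ a, u a ^ 2 ≤ c * ∑ a, u a ^ 2 :=
    mul_le_mul_of_nonneg_right hc (sum_nonneg fun _ _ => sq_nonneg _)
  exact (pow_le_pow_iff_left₀ (sum_nonneg fun _ _ => abs_nonneg _) hb two_ne_zero).mp
    (h1.trans (h2.trans h))

theorem box_nonneg {V : Type} [Fintype V] (h : V → V → ℝ) :
    0 ≤ ∑ i, ∑ i', ∑ j, ∑ j', h i j * h i j' * h i' j * h i' j' := by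
  refine sum_nonneg fun i _ => sum_nonneg fun i' _ => ?_
  have : ∑ j, ∑ j', h i j * h i j' * h i' j * h i' j' = (∑ j, h i j * h i' j) ^ 2 := by
    rw [sq, sum_mul_sum]
    exact sum_congr rfl fun j _ => sum_congr rfl fun j' _ => by ring
  rw [this]
  exact sq_nonneg _

open Classical in
theorem pos_eps {f : ℕ} (A : Fin f → Fin f → Prop) (hA : ∀ u v, A u v → u < v) (ω : W → W → ℝ)
    (hω : ∀ p q, 0 ≤ ω p q) (hω0 : ∀ p, ω p p = 0) (t : ℝ) (ht0 : 0 ≤ t)
    (ht : ∀ D : W → W → Prop, HomFree A D → ∑ p, ∑ q, (if D p q then ω p q else 0) ≤ t)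
    (L : Law W) (hL : ∀ K E, L.μ K E ≠ 0 → Avoid A E) (p0 : W) (γ : ℝ) (hγ : 0 < γ) (hγ1 : γ ≤ 1) :
    ∑ E, L.μ 2 E * ∑ p, ∑ q, (if E 0 p 1 q = true then ω p q else 0)
      ≤ t + (∑ p, ∑ q, ω p q) * (4 * γ) := by
  obtain ⟨θ, hθ, hemb⟩ := embed γ hγ hγ1 f
  obtain ⟨F2, hF2⟩ : ∃ F2 : ℝ, F2 = (f + 2) ^ 2 := ⟨_, rfl⟩
  have hF0 : 0 < F2 := by rw [hF2]; positivity
  obtain ⟨c, hc⟩ : ∃ c : ℝ, c = F2 * (Fintype.card W : ℝ) ^ 2 := ⟨_, rfl⟩
  have hc0 : 0 ≤ c := by rw [hc]; positivity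
  obtain ⟨α1, hα1⟩ : ∃ α1 : ℝ, α1 = γ * θ / (2 * F2) := ⟨_, rfl⟩
  have hα10 : 0 < α1 := by rw [hα1]; positivity
  obtain ⟨α3, hα3⟩ : ∃ α3 : ℝ, α3 = γ / (2 * F2 + 1) := ⟨_, rfl⟩
  have hα30 : 0 < α3 := by rw [hα3]; positivity
  obtain ⟨k, hk⟩ := L.ev_cauchy (γ * α1 ^ 2 / (3 * (c + 1))) (by positivity)
  have iT : Fintype (Typ W k) := Fintype.ofFinite _
  obtain ⟨R, hR⟩ : ∃ R : ℝ, R = Fintype.card (Typ W k) := ⟨_, rfl⟩
  have hR0 : 0 ≤ R := by rw [hR]; positivity
  obtain ⟨α2, hα2⟩ : ∃ α2 : ℝ, α2 = α1 / (R ^ 2 + 1) := ⟨_, rfl⟩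
  have hα20 : 0 < α2 := by rw [hα2]; positivity
  obtain ⟨τ, hτ⟩ : ∃ τ : ℝ, τ = γ * α2 ^ 4 / (6 * (c + 1)) := ⟨_, rfl⟩
  have hτ0 : 0 < τ := by rw [hτ]; positivity
  obtain ⟨k1, hk1⟩ := L.ev_cauchy (τ ^ 2) (by positivity)
  obtain ⟨k', hkk', hk1'⟩ : ∃ k', k ≤ k' ∧ k1 ≤ k' := ⟨max k k1, le_max_left _ _, le_max_right _ _⟩
  obtain ⟨M, hM⟩ := exists_nat_gt (2 / τ + 6 * (f + 2) * (R + 1) / (γ * α3 ^ 2))
  have hM1 : 2 / τ < M := lt_of_le_of_lt (le_add_of_nonneg_right (by positivity)) hM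
  have hM2 : 6 * (f + 2) * (R + 1) / (γ * α3 ^ 2) < M :=
    lt_of_le_of_lt (le_add_of_nonneg_left (by positivity)) hM
  have hM0 : (0 : ℝ) < M := lt_trans (by positivity) hM1
  have hMn : 0 < M := by exact_mod_cast hM0
  obtain ⟨K, ρ', bp, hv⟩ := exists_layout k' (f + 2) M
  let ρ : Rf k → Fin K := ρ' ∘ Sum.map (Fin.castLE hkk') (Fin.castLE hkk')
  have hv' : ∀ s i s' j, (s < s' ∨ (s = s' ∧ i < j)) → Valid ρ (bp s i) (bp s' j) :=
    fun s i s' j h => (hv s i s' j h).comp (Fin.strictMono_castLE hkk') (Fin.strictMono_castLE hkk')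
  let l2 : Fin (f + 2) → Fin (f + 2) → W → W → Str W K → ℝ := fun s s' p q E =>
    ∑ i, ∑ j, (L.D k' p q (atom ρ' E (bp s i) (bp s' j)) - L.D k p q (atom ρ E (bp s i) (bp s' j))) ^ 2
  let bx : Fin (f + 2) → Fin (f + 2) → W → W → Str W K → ℝ := fun s s' p q E =>
    ∑ i, ∑ i', ∑ j, ∑ j', L.h ρ' p q E (bp s i) (bp s' j)
        * L.h ρ' p q E (bp s i) (bp s' j') * L.h ρ' p q E (bp s i') (bp s' j)
        * L.h ρ' p q E (bp s i') (bp s' j')
  let T : Str W K → Fin (f + 2) → Fin M → Typ W k := fun E s i => typ ρ E (bp s i)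
  let ds : Fin (f + 2) → Str W K → ℝ := fun s E => ∑ a, (emp (T E 0) a - emp (T E s) a) ^ 2
  let P1 : Fin (f + 2) → Fin (f + 2) → W → W → Str W K → ℝ := fun s s' p q E =>
    if s < s' then l2 s s' p q E / (α1 ^ 2 * (M : ℝ) ^ 2) + bx s s' p q E / (α2 ^ 4 * (M : ℝ) ^ 4)
    else 0
  have hl0 : ∀ s s' p q E, 0 ≤ l2 s s' p q E := fun _ _ _ _ _ =>
    sum_nonneg fun _ _ => sum_nonneg fun _ _ => sq_nonneg _
  have hb0 : ∀ s s' p q E, 0 ≤ bx s s' p q E := fun s s' p q E =>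
    box_nonneg (fun i j => L.h ρ' p q E (bp s i) (bp s' j))
  have hd0 : ∀ s E, 0 ≤ ds s E := fun _ _ => sum_nonneg fun _ _ => sq_nonneg _
  have hP10 : ∀ s s' p q E, 0 ≤ P1 s s' p q E := fun s s' p q E => by
    have := hl0 s s' p q E
    have := hb0 s s' p q E
    simp only [P1]
    split_ifs
    · positivity
    · exact le_rfl
  let Pen : Str W K → ℝ := fun E =>
    ∑ s, ∑ s', ∑ p, ∑ q, P1 s s' p q E + ∑ s, (R + 1) * ds s E / α3 ^ 2
  have hP20 : ∀ s E, 0 ≤ (R + 1) * ds s E / α3 ^ 2 := fun s E => by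
    have := hd0 s E
    positivity
  let val : Str W K → ℝ := fun E => ∑ p, ∑ q, ω p q *
    ((∑ i, ∑ j, L.D k p q (atom ρ E (bp 0 i) (bp 1 j))) / (M : ℝ) ^ 2)
  set Z := ∑ p, ∑ q, ω p q with hZ
  have hZ0 : 0 ≤ Z := sum_nonneg fun p _ => sum_nonneg fun q _ => hω p q
  have hpt : ∀ E, L.μ K E ≠ 0 → val E ≤ t + Z * (3 * γ) + Z * Pen E := by
    intro E hE
    have hS1 : 0 ≤ ∑ s, ∑ s', ∑ p, ∑ q, P1 s s' p q E :=
      sum_nonneg fun _ _ => sum_nonneg fun _ _ => sum_nonneg fun _ _ => sum_nonneg fun _ _ =>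
        hP10 _ _ _ _ _
    have hS2 : 0 ≤ ∑ s, (R + 1) * ds s E / α3 ^ 2 := sum_nonneg fun s _ => hP20 s E
    have hZγ : 0 ≤ Z * (3 * γ) := by positivity
    rcases le_total 1 (Pen E) with h1 | h1
    · have : val E ≤ Z := by
        refine sum_le_sum fun p _ => sum_le_sum fun q _ => mul_le_of_le_one_right (hω p q) ?_
        apply div_le_one_of_le₀ _ (by positivity)
        refine (sum_le_sum fun i _ => sum_le_sum fun j _ => (L.D_mem k p q _).2).trans ?_
        simp [sq]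
      nlinarith
    · have hP1 : ∀ s s' p q, s < s' → l2 s s' p q E ≤ α1 ^ 2 * (M : ℝ) ^ 2 ∧
          bx s s' p q E ≤ α2 ^ 4 * (M : ℝ) ^ 4 := by
        intro s s' p q hs
        have e1 := le_of_sum4 (fun s s' p q => P1 s s' p q E) (fun _ _ _ _ => hP10 _ _ _ _ _) s s' p q
        have e2 : P1 s s' p q E ≤ 1 := by simp only [Pen] at h1; linarith
        simp only [P1, hs, if_true] at e2
        have e3 : 0 ≤ l2 s s' p q E / (α1 ^ 2 * (M : ℝ) ^ 2) :=
          div_nonneg (hl0 _ _ _ _ _) (by positivity)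
        have e4 : 0 ≤ bx s s' p q E / (α2 ^ 4 * (M : ℝ) ^ 4) :=
          div_nonneg (hb0 _ _ _ _ _) (by positivity)
        exact ⟨(div_le_one (by positivity)).mp (by linarith),
          (div_le_one (by positivity)).mp (by linarith)⟩
      have hdet := pos_det A hA ω hω hω0 t ht γ θ hγ.le hθ (hemb (Fin M) A) (by simpa using hMn)
        (T E) (fun s i p s' j q => E (bp s i) p (bp s' j) q = true)
        (by
          rintro ⟨x, pt, hx⟩
          exact hL K E hE ⟨fun u => bp u.castSucc.castSucc (x u), pt,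
            fun u v huv => (hv _ _ _ _ (Or.inl huv)).xy, hx⟩)
        (fun a p b q => L.D k p q (res ρ E, a, b)) (fun a p b q => L.D_mem k p q _)
        (fun s i p s' j q => L.D k' p q (atom ρ' E (bp s i) (bp s' j))) α1 α2 α3 hα10.le hα20.le
        hα30.le
        (fun s s' hs p q => by
          have e1 := abs_sum_le_of_sq (fun x : Fin M × Fin M =>
            L.D k' p q (atom ρ' E (bp s x.1) (bp s' x.2)) - L.D k p q (atom ρ E (bp s x.1) (bp s' x.2)))
            ((M : ℝ) ^ 2) (α1 * (M : ℝ) ^ 2) (by positivity) (by simp [sq]) (by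
              rw [Fintype.sum_prod_type]
              have := mul_le_mul_of_nonneg_left (hP1 s s' p q hs).1 (sq_nonneg (M : ℝ))
              exact this.trans (le_of_eq (by ring)))
          rw [Fintype.sum_prod_type] at e1
          rw [Fintype.card_fin]
          exact e1)
        (fun s s' hs p q A B => by
          have e1 := cut_of_box (fun i j => L.h ρ' p q E (bp s i) (bp s' j)) α2 hα20.le
            (by rw [Fintype.card_fin]; exact (hP1 s s' p q hs).2) A B
          refine le_trans (le_of_eq ?_) ((neg_le_abs _).trans e1)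
          simp only [← sum_neg_distrib, Law.h, ind, neg_sub]
          congr!)
        (fun s => abs_sum_le_of_sq _ (R + 1) α3 hα30.le (by rw [← hR]; linarith) (by
          have e1 := single_le_sum (f := fun s => (R + 1) * ds s E / α3 ^ 2)
            (fun s _ => hP20 s E) (mem_univ s)
          have e2 : (R + 1) * ds s E / α3 ^ 2 ≤ 1 := by simp only [Pen] at h1; linarith
          exact (div_le_one (by positivity)).mp e2))
      rw [Fintype.card_fin, ← hR, ← hF2, ← hZ] at hdet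
      have e1 : R ^ 2 * α2 ≤ α1 := by
        rw [hα2, ← mul_div_assoc, div_le_iff₀ (by positivity)]
        nlinarith
      have e2 : F2 * ((α1 + R ^ 2 * α2) / θ) ≤ γ := by
        have : (α1 + R ^ 2 * α2) / θ ≤ 2 * α1 / θ := div_le_div_of_nonneg_right (by linarith) hθ.le
        refine (mul_le_mul_of_nonneg_left this hF0.le).trans (le_of_eq ?_)
        rw [hα1]
        field_simp
      have e3 : α3 + F2 * (2 * α3) = γ := by
        rw [hα3]
        field_simp
        ring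
      have e4 : Z * (γ + α3 + F2 * ((α1 + R ^ 2 * α2) / θ + 2 * α3)) ≤ Z * (3 * γ) :=
        mul_le_mul_of_nonneg_left (by linarith) hZ0
      have e5 : 0 ≤ Z * Pen E := mul_nonneg hZ0 (add_nonneg hS1 hS2)
      have e6 : val E ≤ t + Z * (γ + α3 + F2 * ((α1 + R ^ 2 * α2) / θ + 2 * α3)) := hdet
      linarith
  have hval : ∑ E, L.μ K E * val E
      = ∑ E, L.μ 2 E * ∑ p, ∑ q, (if E 0 p 1 q = true then ω p q else 0) := by
    simp only [val, mul_sum]
    rw [sum_comm, sum_comm (s := (univ : Finset (Str W 2)))]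
    refine sum_congr rfl fun p _ => ?_
    rw [sum_comm, sum_comm (s := (univ : Finset (Str W 2)))]
    refine sum_congr rfl fun q _ => ?_
    have e1 : ∑ E, L.μ K E * ∑ i, ∑ j, L.D k p q (atom ρ E (bp 0 i) (bp 1 j))
        = (M : ℝ) ^ 2 * ∑ E, L.μ 2 E * ind (E 0 p 1 q) := by
      simp only [mul_sum (s := (univ : Finset (Fin M)))]
      rw [sum_comm]
      have : ∀ i, ∑ E, ∑ j, L.μ K E * L.D k p q (atom ρ E (bp 0 i) (bp 1 j))
          = M * ∑ E, L.μ 2 E * ind (E 0 p 1 q) := by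
        intro i
        rw [sum_comm, sum_congr rfl fun j _ => L.E_D (hv' 0 i 1 j (Or.inl Fin.zero_lt_one)) p q]
        simp
      simp only [this, sum_const, card_univ, Fintype.card_fin, nsmul_eq_mul]
      ring
    have e2 : ∑ E, L.μ K E * (ω p q * ((∑ i, ∑ j, L.D k p q (atom ρ E (bp 0 i) (bp 1 j)))
        / (M : ℝ) ^ 2))
        = ω p q / (M : ℝ) ^ 2 * ∑ E, L.μ K E * ∑ i, ∑ j, L.D k p q (atom ρ E (bp 0 i) (bp 1 j)) := by
      rw [mul_sum]
      exact sum_congr rfl fun E _ => by ring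
    rw [e2, e1, ← mul_assoc, div_mul_cancel₀ _ (by positivity), mul_sum]
    exact sum_congr rfl fun E _ => by unfold ind; split_ifs <;> ring
  have hpen : ∑ E, L.μ K E * Pen E ≤ γ := by
    have e1 : ∑ E, L.μ K E * ∑ s, ∑ s', ∑ p, ∑ q, P1 s s' p q E ≤ c * (2 * γ / (3 * (c + 1))) := by
      have := E_sum4 (L.μ K) P1 (2 * γ / (3 * (c + 1))) (fun s s' p q => by
        by_cases hs : s < s'
        · simp only [P1, hs, if_true, mul_add, sum_add_distrib, ← mul_div_assoc, ← sum_div]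
          have a1 : ∑ E, L.μ K E * l2 s s' p q E ≤ (M : ℝ) ^ 2 * (γ * α1 ^ 2 / (3 * (c + 1))) := by
            simp only [l2, mul_sum]
            rw [sum_comm]
            refine (sum_le_sum fun i _ => (le_of_eq sum_comm).trans (sum_le_sum fun j _ =>
              (le_of_eq (L.diff (hv s i s' j (Or.inl hs)) (Fin.strictMono_castLE hkk')
                (Fin.strictMono_castLE hkk') p q)).trans (hk k le_rfl k' hkk' p q))).trans ?_
            simp only [sum_const, card_univ, Fintype.card_fin, nsmul_eq_mul]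
            exact le_of_eq (by ring)
          have a2 : ∑ E, L.μ K E * bx s s' p q E ≤ τ * (M : ℝ) ^ 4 + 2 * (M : ℝ) ^ 3 :=
            L.E_box hv p q τ hτ0 (hk1 k' hk1' (k' + 1) (Nat.le_succ _) p q) hs
          have a3 : 2 * (M : ℝ) ^ 3 ≤ τ * (M : ℝ) ^ 4 := by
            rw [div_lt_iff₀ hτ0] at hM1
            have : 0 < (M : ℝ) ^ 3 := by positivity
            nlinarith
          have a4 : (∑ E, L.μ K E * l2 s s' p q E) / (α1 ^ 2 * (M : ℝ) ^ 2) ≤ γ / (3 * (c + 1)) := by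
            rw [div_le_iff₀ (by positivity)]
            exact a1.trans (le_of_eq (by ring))
          have a5 : (∑ E, L.μ K E * bx s s' p q E) / (α2 ^ 4 * (M : ℝ) ^ 4) ≤ γ / (3 * (c + 1)) := by
            rw [div_le_iff₀ (by positivity)]
            refine (a2.trans (add_le_add_right a3 _)).trans (le_of_eq ?_)
            rw [hτ]
            field_simp
            ring
          refine (add_le_add a4 a5).trans (le_of_eq ?_)
          field_simp
          ring
        · simp only [P1, hs, if_false, mul_zero, sum_const_zero]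
          positivity)
      rw [Fintype.card_fin] at this
      push_cast at this
      rwa [← hF2, ← hc] at this
    have e2 : ∑ E, L.μ K E * ∑ s, (R + 1) * ds s E / α3 ^ 2 ≤ γ / 3 := by
      simp only [mul_sum]
      rw [sum_comm]
      have a1 : ∀ s, ∑ E, L.μ K E * ((R + 1) * ds s E / α3 ^ 2) ≤ (R + 1) / α3 ^ 2 * (2 / M) := by
        intro s
        have b1 := mul_le_mul_of_nonneg_left (L.E_disc hv' p0 hMn 0 s)
          (by positivity : 0 ≤ (R + 1) / α3 ^ 2)
        refine le_trans (le_of_eq ?_) b1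
        rw [mul_sum]
        exact sum_congr rfl fun E _ => by simp only [ds, T]; ring
      refine (sum_le_sum fun s _ => a1 s).trans ?_
      simp only [sum_const, card_univ, Fintype.card_fin, nsmul_eq_mul]
      rw [div_lt_iff₀ (by positivity)] at hM2
      have b2 : ((f + 2 : ℕ) : ℝ) * ((R + 1) / α3 ^ 2 * (2 / M))
          = 6 * (f + 2) * (R + 1) / (3 * (α3 ^ 2 * M)) := by
        push_cast
        field_simp
        ring
      rw [b2, div_le_div_iff₀ (by positivity) (by norm_num)]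
      nlinarith
    have e3 : c * (2 * γ / (3 * (c + 1))) ≤ 2 * γ / 3 := by
      rw [← mul_div_assoc, div_le_div_iff₀ (by positivity) (by norm_num)]
      nlinarith
    simp only [Pen, mul_add, sum_add_distrib]
    linarith
  have hfin : ∑ E, L.μ K E * val E ≤ ∑ E, L.μ K E * (t + Z * (3 * γ) + Z * Pen E) := by
    refine sum_le_sum fun E _ => ?_
    by_cases hE : L.μ K E = 0
    · simp [hE]
    · exact mul_le_mul_of_nonneg_left (hpt E hE) (L.nonneg K E)
  have e1 : ∑ E, L.μ K E * (t + Z * (3 * γ) + Z * Pen E)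
      = (t + Z * (3 * γ)) * ∑ E, L.μ K E + Z * ∑ E, L.μ K E * Pen E := by
    simp only [mul_sum, ← sum_add_distrib]
    exact sum_congr rfl fun E _ => by ring
  rw [e1, L.total, hval] at hfin
  have := mul_le_mul_of_nonneg_left hpen hZ0
  linarith

theorem posThm : PosThm := by
  intro W _ _ f A hA ω hω hω0 t ht0 ht L hL
  rcases isEmpty_or_nonempty W with hW | ⟨⟨p0⟩⟩
  · simpa using ht0
  have hZ0 : 0 ≤ ∑ p, ∑ q, ω p q := sum_nonneg fun p _ => sum_nonneg fun q _ => hω p q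
  refine le_of_forall_pos_le_add fun δ hδ => ?_
  have h := pos_eps A hA ω hω hω0 t ht0 ht L hL p0 (min (δ / (4 * (∑ p, ∑ q, ω p q + 1))) 1)
    (by positivity) (min_le_right _ _)
  refine h.trans (add_le_add_right ?_ _)
  have h1 : min (δ / (4 * (∑ p, ∑ q, ω p q + 1))) 1 ≤ δ / (4 * (∑ p, ∑ q, ω p q + 1)) :=
    min_le_left _ _
  rw [le_div_iff₀ (by positivity)] at h1
  have h2 : 0 ≤ min (δ / (4 * (∑ p, ∑ q, ω p q + 1))) 1 := by positivity
  nlinarith

end Pool.Agent.Lib.MP_37b92f_co
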