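import Pool.Agent.Lib.MP_37b92f_co.PosDef

set_option autoImplicit false

namespace Pool.Agent.Lib.MP_37b92f_co

open Finset

variable {W : Type} [Fintype W] [DecidableEq W]

theorem Law.otp (L : Law W) {ι : Type} [Fintype ι] (rk : ι → ℕ) (hrk : Function.Injective rk)
    {K K' : ℕ} (c : ι → Fin K) (c' : ι → Fin K') (hc : ∀ a b, rk a < rk b → c a < c b)
    (hc' : ∀ a b, rk a < rk b → c' a < c' b) (g : (ι → W → ι → W → Bool) → ℝ) :
    ∑ E, L.μ K E * g (res c E) = ∑ E, L.μ K' E * g (res c' E) := by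
  classical
  let _ : LinearOrder ι := LinearOrder.lift' rk hrk
  let e := monoEquivOfFin ι rfl
  have h1 := L.spread _ K (c ∘ e) (fun a b hab => hc _ _ (e.strictMono hab)) (fun A => g (res e.symm A))
  have h2 := L.spread _ K' (c' ∘ e) (fun a b hab => hc' _ _ (e.strictMono hab))
    (fun A => g (res e.symm A))
  have h3 : ∀ {N : ℕ} (d : ι → Fin N) (E : Str W N), res e.symm (res (d ∘ e) E) = res d E := by
    intro N d E
    funext i p j q
    simp [res]
  simp only [h3] at h1 h2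
  rw [h1, h2]

/-- Reference indices. -/
abbrev Rf (k : ℕ) : Type := Fin k ⊕ Fin k

/-- Types of positions relative to the references. -/
abbrev Typ (W : Type) (k : ℕ) : Type := Rf k → W → W → Bool × Bool

/-- Information available about a pair of positions. -/
abbrev Atom (W : Type) (k : ℕ) : Type := (Rf k → W → Rf k → W → Bool) × Typ W k × Typ W k

instance finiteTyp (k : ℕ) : Finite (Typ W k) := by
  have : Finite (W → Bool × Bool) := inferInstance
  have : Finite (W → W → Bool × Bool) := inferInstance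
  infer_instance

instance finiteAtom (k : ℕ) : Finite (Atom W k) := by
  have : Finite (Rf k → W → Bool) := inferInstance
  have : Finite (W → Rf k → W → Bool) := inferInstance
  have : Finite (Rf k → W → Rf k → W → Bool) := inferInstance
  have : Finite (Typ W k × Typ W k) := inferInstance
  exact Finite.instProd

/-- The type of a position. -/
def typ {κ : Type} {k : ℕ} (ρ : Rf k → κ) (E : κ → W → κ → W → Bool) (x : κ) : Typ W k :=
  fun a p q => (E (ρ a) p x q, E x q (ρ a) p)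

/-- The atom of a pair of positions. -/
def atom {κ : Type} {k : ℕ} (ρ : Rf k → κ) (E : κ → W → κ → W → Bool) (x y : κ) : Atom W k :=
  (res ρ E, typ ρ E x, typ ρ E y)

/-- Placements of references and of two inner positions. -/
structure Valid {k K : ℕ} (ρ : Rf k → Fin K) (x y : Fin K) : Prop where
  left : StrictMono fun a => ρ (Sum.inl a)
  right : StrictMono fun a => ρ (Sum.inr a)
  lx : ∀ a, ρ (Sum.inl a) < x
  xy : x < y
  yr : ∀ a, y < ρ (Sum.inr a)

/-- Combined placement map. -/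
def comb {k : ℕ} {κ : Type} (ρ : Rf k → κ) (x y : κ) : Option (Option (Rf k)) → κ
  | none => y
  | some none => x
  | some (some a) => ρ a

/-- Rank of an index in a valid placement. -/
def rank (k : ℕ) : Option (Option (Rf k)) → ℕ
  | none => k + 1
  | some none => k
  | some (some (Sum.inl a)) => a
  | some (some (Sum.inr a)) => k + 2 + a

theorem rank_inj (k : ℕ) : Function.Injective (rank k) := by
  rintro (_ | _ | a | a) (_ | _ | b | b) h <;> simp only [rank] at h <;>
    first | rfl | (exfalso; omega) | (congr; exact Fin.ext (by omega))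

theorem Valid.comb_lt {k K : ℕ} {ρ : Rf k → Fin K} {x y : Fin K} (h : Valid ρ x y) :
    ∀ a b, rank k a < rank k b → comb ρ x y a < comb ρ x y b := by
  rintro (_ | _ | a | a) (_ | _ | b | b) hab <;> simp only [rank, comb] at hab ⊢
  all_goals first
    | (exfalso; omega)
    | exact h.yr _
    | exact h.xy
    | exact h.lx _
    | exact h.xy.trans (h.yr _)
    | exact (h.lx _).trans h.xy
    | exact ((h.lx _).trans h.xy).trans (h.yr _)
    | exact h.left (show _ < _ from hab)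
    | exact h.right (show (_ : Fin k) < _ from Fin.lt_def.mpr (by omega))

/-- Base references. -/
def ρ0 (k : ℕ) : Rf k → Fin (k + 2 + k)
  | Sum.inl a => ⟨a, by omega⟩
  | Sum.inr a => ⟨k + 2 + a, by omega⟩

/-- Base inner positions. -/
def x0 (k : ℕ) : Fin (k + 2 + k) := ⟨k, by omega⟩

/-- Base inner positions. -/
def y0 (k : ℕ) : Fin (k + 2 + k) := ⟨k + 1, by omega⟩

theorem valid0 (k : ℕ) : Valid (ρ0 k) (x0 k) (y0 k) where
  left := fun _ _ h => h
  right := fun _ _ h => Nat.add_lt_add_left h (k + 2)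
  lx := fun a => by simp [ρ0, x0, Fin.lt_def]
  xy := by simp [x0, y0, Fin.lt_def]
  yr := fun a => by simp [ρ0, y0, Fin.lt_def]; omega

theorem Law.transfer (L : Law W) {k K : ℕ} {ρ : Rf k → Fin K} {x y : Fin K} (h : Valid ρ x y)
    (p q : W) (G : Atom W k → Bool → ℝ) :
    ∑ E, L.μ K E * G (atom ρ E x y) (E x p y q)
      = ∑ E, L.μ _ E * G (atom (ρ0 k) E (x0 k) (y0 k)) (E (x0 k) p (y0 k) q) :=
  L.otp (rank k) (rank_inj k) (comb ρ x y) (comb (ρ0 k) (x0 k) (y0 k)) h.comb_lt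
    (valid0 k).comb_lt
    (fun A => G (atom (fun a => some (some a)) A (some none) none) (A (some none) p none q))

/-- Indicator of a boolean. -/
def ind (b : Bool) : ℝ := if b = true then 1 else 0

theorem ind_mem (b : Bool) : 0 ≤ ind b ∧ ind b ≤ 1 := by cases b <;> simp [ind]

open Classical in
/-- Conditional edge probability given the atom. -/
noncomputable def Law.D (L : Law W) (k : ℕ) (p q : W) : Atom W k → ℝ :=
  cond (L.μ (k + 2 + k)) (fun E => atom (ρ0 k) E (x0 k) (y0 k))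
    (fun E => ind (E (x0 k) p (y0 k) q))

open Classical in
theorem Law.D_mem (L : Law W) (k : ℕ) (p q : W) (a : Atom W k) : 0 ≤ L.D k p q a ∧ L.D k p q a ≤ 1 :=
  cond_mem (L.nonneg _) _ (fun _ => ind_mem _) a

open Classical in
theorem Law.orth (L : Law W) {k K : ℕ} {ρ : Rf k → Fin K} {x y : Fin K} (h : Valid ρ x y)
    (p q : W) (g : Atom W k → ℝ) :
    ∑ E, L.μ K E * ((ind (E x p y q) - L.D k p q (atom ρ E x y)) * g (atom ρ E x y)) = 0 := by
  rw [L.transfer h p q (fun a b => (ind b - L.D k p q a) * g a)]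
  have : Fintype (Atom W k) := Fintype.ofFinite _
  exact cond_orth (L.nonneg _) _ _ g

/-- Energy at level `k`. -/
noncomputable def Law.ev (L : Law W) (k : ℕ) (p q : W) : ℝ :=
  ∑ E, L.μ _ E * L.D k p q (atom (ρ0 k) E (x0 k) (y0 k)) ^ 2

theorem Law.ev_le (L : Law W) (k : ℕ) (p q : W) : L.ev k p q ≤ 1 := by
  rw [← L.total (k + 2 + k)]
  exact sum_le_sum fun E _ => mul_le_of_le_one_right (L.nonneg _ E)
    (pow_le_one₀ (L.D_mem k p q _).1 (L.D_mem k p q _).2)

theorem Valid.comp {k k' K : ℕ} {ρ : Rf k' → Fin K} {x y : Fin K} (h : Valid ρ x y)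
    {jl jr : Fin k → Fin k'} (hl : StrictMono jl) (hr : StrictMono jr) :
    Valid (ρ ∘ Sum.map jl jr) x y :=
  ⟨h.left.comp hl, h.right.comp hr, fun a => h.lx (jl a), h.xy, fun a => h.yr (jr a)⟩

/-- Forgetting references. -/
def down {k k' : ℕ} (j : Rf k → Rf k') (a : Atom W k') : Atom W k :=
  (res j a.1, a.2.1 ∘ j, a.2.2 ∘ j)

theorem Law.diff (L : Law W) {k k' K : ℕ} {ρ : Rf k' → Fin K} {x y : Fin K} (h : Valid ρ x y)
    {jl jr : Fin k → Fin k'} (hl : StrictMono jl) (hr : StrictMono jr) (p q : W) :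
    ∑ E, L.μ K E * (L.D k' p q (atom ρ E x y) - L.D k p q (atom (ρ ∘ Sum.map jl jr) E x y)) ^ 2
      = L.ev k' p q - L.ev k p q := by
  have h1 := L.orth h p q (fun a => L.D k p q (down (Sum.map jl jr) a))
  have h2 := L.orth (h.comp hl hr) p q (L.D k p q)
  have h3 := L.transfer h p q (fun a _ => L.D k' p q a ^ 2)
  have h4 := L.transfer (h.comp hl hr) p q (fun a _ => L.D k p q a ^ 2)
  have h5 : ∀ E : Str W K, down (Sum.map jl jr) (atom ρ E x y)
      = atom (ρ ∘ Sum.map jl jr) E x y := fun E => rfl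
  simp only [h5] at h1
  rw [Law.ev, Law.ev, ← h3, ← h4]
  have : ∑ E, L.μ K E * (L.D k' p q (atom ρ E x y)
        - L.D k p q (atom (ρ ∘ Sum.map jl jr) E x y)) ^ 2
      = ∑ E, L.μ K E * L.D k' p q (atom ρ E x y) ^ 2
        - ∑ E, L.μ K E * L.D k p q (atom (ρ ∘ Sum.map jl jr) E x y) ^ 2
        + 2 * ∑ E, L.μ K E * ((ind (E x p y q) - L.D k' p q (atom ρ E x y))
            * L.D k p q (atom (ρ ∘ Sum.map jl jr) E x y))
        - 2 * ∑ E, L.μ K E * ((ind (E x p y q) - L.D k p q (atom (ρ ∘ Sum.map jl jr) E x y))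
            * L.D k p q (atom (ρ ∘ Sum.map jl jr) E x y)) := by
    simp only [mul_sum, ← sum_sub_distrib, ← sum_add_distrib]
    exact sum_congr rfl fun E _ => by ring
  rw [this, h1, h2]
  ring

theorem Law.ev_mono (L : Law W) (p q : W) : Monotone fun k => L.ev k p q := by
  intro k k' hk
  have := L.diff (valid0 k') (Fin.strictMono_castLE hk) (Fin.strictMono_castLE hk) p q
  have h0 : 0 ≤ L.ev k' p q - L.ev k p q :=
    this ▸ sum_nonneg fun E _ => mul_nonneg (L.nonneg _ E) (sq_nonneg _)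
  simp only
  linarith

theorem Law.ev_cauchy (L : Law W) (η : ℝ) (hη : 0 < η) :
    ∃ k0, ∀ k, k0 ≤ k → ∀ k', k ≤ k' → ∀ p q, L.ev k' p q - L.ev k p q ≤ η := by
  let u : ℕ → ℝ := fun k => ∑ p, ∑ q, L.ev k p q
  have hb : BddAbove (Set.range u) := ⟨∑ _p : W, ∑ _q : W, (1 : ℝ), by
    rintro _ ⟨k, rfl⟩
    exact sum_le_sum fun p _ => sum_le_sum fun q _ => L.ev_le k p q⟩
  obtain ⟨_, ⟨k0, rfl⟩, hk0⟩ := exists_lt_of_lt_csSup (Set.range_nonempty u)
    (sub_lt_self (sSup (Set.range u)) hη)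
  refine ⟨k0, fun k hk k' hk' p q => ?_⟩
  have h1 : u k' ≤ sSup (Set.range u) := le_csSup hb ⟨k', rfl⟩
  have h2 : u k0 ≤ u k := sum_le_sum fun p _ => sum_le_sum fun q _ => L.ev_mono p q hk
  have h3 : L.ev k' p q - L.ev k p q ≤ u k' - u k := by
    simp only [u, ← sum_sub_distrib]
    refine le_trans ?_ (single_le_sum (f := fun p => ∑ q, (L.ev k' p q - L.ev k p q))
      (fun p _ => sum_nonneg fun q _ => sub_nonneg.mpr (L.ev_mono p q hk')) (mem_univ p))
    exact single_le_sum (f := fun q => L.ev k' p q - L.ev k p q)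
      (fun q _ => sub_nonneg.mpr (L.ev_mono p q hk')) (mem_univ q)
  linarith

/-- The centred edge indicator. -/
noncomputable def Law.h (L : Law W) {k K : ℕ} (ρ : Rf k → Fin K) (p q : W) (E : Str W K)
    (x y : Fin K) : ℝ := ind (E x p y q) - L.D k p q (atom ρ E x y)

theorem Law.h_abs (L : Law W) {k K : ℕ} (ρ : Rf k → Fin K) (p q : W) (E : Str W K) (x y : Fin K) :
    |L.h ρ p q E x y| ≤ 1 := by
  have h1 := ind_mem (E x p y q)
  have h2 := L.D_mem k p q (atom ρ E x y)
  rw [Law.h, abs_le]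
  constructor <;> linarith

theorem Law.box_aux (L : Law W) {k K : ℕ} {ρ : Rf (k + 1) → Fin K} {x y : Fin K} (h : Valid ρ x y)
    (p q : W) (τ : ℝ) (hτ : 0 < τ) (hev : L.ev (k + 1) p q - L.ev k p q ≤ τ ^ 2) :
    ∑ E, L.μ K E * (L.h (ρ ∘ Sum.map Fin.castSucc Fin.succ) p q E (ρ (Sum.inl (Fin.last k))) y
        * L.h (ρ ∘ Sum.map Fin.castSucc Fin.succ) p q E (ρ (Sum.inl (Fin.last k))) (ρ (Sum.inr 0))
        * L.h (ρ ∘ Sum.map Fin.castSucc Fin.succ) p q E x y
        * L.h (ρ ∘ Sum.map Fin.castSucc Fin.succ) p q E x (ρ (Sum.inr 0))) ≤ τ := by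
  let j : Rf k → Rf (k + 1) := Sum.map Fin.castSucc Fin.succ
  let g : Atom W (k + 1) → ℝ := fun a =>
    (ind (a.2.2 (Sum.inl (Fin.last k)) p q).1
        - L.D k p q (res j a.1, typ j a.1 (Sum.inl (Fin.last k)), a.2.2 ∘ j))
      * (ind (a.1 (Sum.inl (Fin.last k)) p (Sum.inr 0) q)
        - L.D k p q (res j a.1, typ j a.1 (Sum.inl (Fin.last k)), typ j a.1 (Sum.inr 0)))
      * (ind (a.2.1 (Sum.inr 0) q p).2
        - L.D k p q (res j a.1, a.2.1 ∘ j, typ j a.1 (Sum.inr 0)))
  have hg : ∀ E : Str W K, g (atom ρ E x y)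
      = L.h (ρ ∘ j) p q E (ρ (Sum.inl (Fin.last k))) y
        * L.h (ρ ∘ j) p q E (ρ (Sum.inl (Fin.last k))) (ρ (Sum.inr 0))
        * L.h (ρ ∘ j) p q E x (ρ (Sum.inr 0)) := fun E => rfl
  have h1 := L.orth h p q g
  have h2 := L.diff h Fin.strictMono_castSucc Fin.strictMono_succ p q
  have h3 : ∀ E : Str W K, |g (atom ρ E x y)| ≤ 1 := by
    intro E
    rw [hg, abs_mul, abs_mul]
    exact mul_le_one₀ (mul_le_one₀ (L.h_abs _ _ _ _ _ _) (abs_nonneg _) (L.h_abs _ _ _ _ _ _))
      (abs_nonneg _) (L.h_abs _ _ _ _ _ _)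
  have h4 : ∑ E, L.μ K E * (L.h (ρ ∘ j) p q E (ρ (Sum.inl (Fin.last k))) y
        * L.h (ρ ∘ j) p q E (ρ (Sum.inl (Fin.last k))) (ρ (Sum.inr 0))
        * L.h (ρ ∘ j) p q E x y * L.h (ρ ∘ j) p q E x (ρ (Sum.inr 0)))
      ≤ ∑ E, L.μ K E * ((ind (E x p y q) - L.D (k + 1) p q (atom ρ E x y)) * g (atom ρ E x y))
        + (τ / 2 * ∑ E, L.μ K E + 1 / (2 * τ) * ∑ E, L.μ K E *
          (L.D (k + 1) p q (atom ρ E x y) - L.D k p q (atom (ρ ∘ j) E x y)) ^ 2) := by
    simp only [mul_sum, ← sum_add_distrib]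
    refine sum_le_sum fun E _ => ?_
    have e1 : L.h (ρ ∘ j) p q E (ρ (Sum.inl (Fin.last k))) y
        * L.h (ρ ∘ j) p q E (ρ (Sum.inl (Fin.last k))) (ρ (Sum.inr 0))
        * L.h (ρ ∘ j) p q E x y * L.h (ρ ∘ j) p q E x (ρ (Sum.inr 0))
        = (ind (E x p y q) - L.D (k + 1) p q (atom ρ E x y)) * g (atom ρ E x y)
          + (L.D (k + 1) p q (atom ρ E x y) - L.D k p q (atom (ρ ∘ j) E x y)) * g (atom ρ E x y) := by
      rw [hg]
      simp only [Law.h]
      ring
    rw [e1]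
    set u := L.D (k + 1) p q (atom ρ E x y) - L.D k p q (atom (ρ ∘ j) E x y)
    have e2 : u * g (atom ρ E x y) ≤ τ / 2 + 1 / (2 * τ) * u ^ 2 := by
      have e3 := abs_le.mp (h3 E)
      have e4 : g (atom ρ E x y) ^ 2 ≤ 1 := by nlinarith
      have e5 : τ / 2 + 1 / (2 * τ) * u ^ 2 - u * g (atom ρ E x y)
          = (u - τ * g (atom ρ E x y)) ^ 2 / (2 * τ) + τ / 2 * (1 - g (atom ρ E x y) ^ 2) := by
        field_simp
        ring
      have e6 : 0 ≤ (u - τ * g (atom ρ E x y)) ^ 2 / (2 * τ) := by positivity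
      have e7 : 0 ≤ τ / 2 * (1 - g (atom ρ E x y) ^ 2) := mul_nonneg (by positivity) (by linarith)
      linarith
    have := mul_le_mul_of_nonneg_left e2 (L.nonneg K E)
    nlinarith
  rw [h1, L.total, h2] at h4
  have h5 : 1 / (2 * τ) * (L.ev (k + 1) p q - L.ev k p q) ≤ 1 / (2 * τ) * τ ^ 2 :=
    mul_le_mul_of_nonneg_left hev (by positivity)
  have h6 : 1 / (2 * τ) * τ ^ 2 = τ / 2 := by field_simp
  linarith

theorem Law.box_lt (L : Law W) {k K : ℕ} {ρ : Rf k → Fin K} {x1 x2 x3 x4 : Fin K}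
    (h : Valid ρ x1 x4) (h12 : x1 < x2) (h23 : x2 < x3) (h34 : x3 < x4)
    (p q : W) (τ : ℝ) (hτ : 0 < τ) (hev : L.ev (k + 1) p q - L.ev k p q ≤ τ ^ 2) :
    ∑ E, L.μ K E * (L.h ρ p q E x1 x3 * L.h ρ p q E x1 x4 * L.h ρ p q E x2 x3
      * L.h ρ p q E x2 x4) ≤ τ := by
  let ρ' : Rf (k + 1) → Fin K :=
    Sum.elim (Fin.snoc (α := fun _ => Fin K) (fun a => ρ (Sum.inl a)) x1)
      (Fin.cons (α := fun _ => Fin K) x4 (fun a => ρ (Sum.inr a)))
  have e1 : ρ' ∘ Sum.map Fin.castSucc Fin.succ = ρ := by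
    funext a
    rcases a with a | a <;> simp [ρ']
  have e2 : ρ' (Sum.inl (Fin.last k)) = x1 := by simp [ρ']
  have e3 : ρ' (Sum.inr 0) = x4 := by simp [ρ']
  have hv : Valid ρ' x2 x3 := by
    refine ⟨?_, ?_, ?_, h23, ?_⟩
    · intro a b hab
      induction a using Fin.lastCases with
      | last => exact absurd hab (not_lt.mpr (Fin.le_last b))
      | cast a =>
        induction b using Fin.lastCases with
        | last => simpa [ρ'] using h.lx a
        | cast b => simpa [ρ'] using h.left (Fin.castSucc_lt_castSucc_iff.mp hab)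
    · intro a b hab
      induction b using Fin.cases with
      | zero => exact absurd hab (Fin.not_lt_zero a)
      | succ b =>
        induction a using Fin.cases with
        | zero => simpa [ρ'] using h.yr b
        | succ a => simpa [ρ'] using h.right (Fin.succ_lt_succ_iff.mp hab)
    · intro a
      induction a using Fin.lastCases with
      | last => simpa [ρ'] using h12
      | cast a => simpa [ρ'] using (h.lx a).trans h12
    · intro a
      induction a using Fin.cases with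
      | zero => simpa [ρ'] using h34
      | succ a => simpa [ρ'] using h34.trans (h.yr a)
  have := L.box_aux hv p q τ hτ hev
  rwa [e1, e2, e3] at this

end Pool.Agent.Lib.MP_37b92f_co
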